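import Mathlib

/-!
# [DDD] Lower bound for the sum of d_3(n) d_3(n+1): definitions and row statements

Every row `X` proves `st_X` (a closed proposition), possibly from the statements of other rows as hypotheses.
-/

set_option autoImplicit false

open Finset Real

namespace Pool.Agent.DDD

/-- ternary divisor function: the number of ordered triples of positive integers with product `n` -/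
def d3 (n : ℕ) : ℕ :=
  ((n.divisors ×ˢ n.divisors ×ˢ n.divisors).filter fun t => t.1 * t.2.1 * t.2.2 = n).card

noncomputable def S (x : ℝ) : ℝ := ∑ n ∈ Icc 1 ⌊x⌋₊, (d3 n : ℝ) * (d3 (n + 1) : ℝ)

noncomputable def fac (p : ℕ) : ℝ := 1 - (2 / (p : ℝ) - 1 / (p : ℝ) ^ 2) ^ 2

noncomputable def PP : ℝ := ∏' p : Nat.Primes, fac p

/-- the integers `a` with `x ^ α < a ≤ x ^ (α + η)` -/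
noncomputable def Iv (x α η : ℝ) : Finset ℕ := Ioc ⌊x ^ α⌋₊ ⌊x ^ (α + η)⌋₊

/-- box of quadruples `(a, b, f, d)` -/
noncomputable def Bx (x α1 α2 β1 β2 η : ℝ) : Finset (ℕ × ℕ × ℕ × ℕ) :=
  Iv x α1 η ×ˢ Iv x α2 η ×ˢ Iv x β1 η ×ˢ Iv x β2 η

/-- weight `1 / (a b f d)` -/
noncomputable def wt (t : ℕ × ℕ × ℕ × ℕ) : ℝ :=
  1 / ((t.1 : ℝ) * (t.2.1 : ℝ) * (t.2.2.1 : ℝ) * (t.2.2.2 : ℝ))

/-- proportion of the quadruples modulo `W` with `gcd (r1 r2, r3 r4, W) = 1` -/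
noncomputable def rho (W : ℕ) : ℝ :=
  (((range W ×ˢ range W ×ˢ range W ×ˢ range W).filter fun r =>
    Nat.gcd (Nat.gcd (r.1 * r.2.1) (r.2.2.1 * r.2.2.2)) W = 1).card : ℝ) / (W : ℝ) ^ 4

/-- `q = s r` with `s ≤ K0` and `r` squarefree, coprime to `s` -/
def Gd (K0 q : ℕ) : Prop := ∃ s r : ℕ, q = s * r ∧ Nat.Coprime s r ∧ Squarefree r ∧ s ≤ K0

/-- Kloosterman sums for all moduli -/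
noncomputable def kq (q : ℕ) [NeZero q] (a b : ZMod q) : ℂ :=
  ∑ u : (ZMod q)ˣ, (ZMod.stdAddChar (a * (u : ZMod q) + b * ((u⁻¹ : (ZMod q)ˣ) : ZMod q)) : ℂ)

/-- linear exponential sums -/
noncomputable def lin (q : ℕ) [NeZero q] (D M : ℕ) (h : ZMod q) : ℂ :=
  ∑ d ∈ Ioc D (D + M), (ZMod.stdAddChar (h * (d : ZMod q)) : ℂ)

/-- the 6-tuples `(a, b, c, f, d, e)` with `a < b < c`, `f < d < e`, `a b c + 1 = f d e`, `a b c ≤ x` -/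
noncomputable def Tset (x : ℝ) : Finset (ℕ × ℕ × ℕ × ℕ × ℕ × ℕ) :=
  (range (⌊x⌋₊ + 2) ×ˢ range (⌊x⌋₊ + 2) ×ˢ range (⌊x⌋₊ + 2) ×ˢ range (⌊x⌋₊ + 2) ×ˢ
    range (⌊x⌋₊ + 2) ×ˢ range (⌊x⌋₊ + 2)).filter fun t =>
    0 < t.1 ∧ t.1 < t.2.1 ∧ t.2.1 < t.2.2.1 ∧ 0 < t.2.2.2.1 ∧ t.2.2.2.1 < t.2.2.2.2.1 ∧
    t.2.2.2.2.1 < t.2.2.2.2.2 ∧ t.1 * t.2.1 * t.2.2.1 + 1 = t.2.2.2.1 * t.2.2.2.2.1 * t.2.2.2.2.2 ∧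
    t.1 * t.2.1 * t.2.2.1 ≤ ⌊x⌋₊

/-- the part of `Tset x` with `a, b, f, d` in the four intervals -/
noncomputable def TB (x α1 α2 β1 β2 η : ℝ) : Finset (ℕ × ℕ × ℕ × ℕ × ℕ × ℕ) :=
  (Tset x).filter fun t => t.1 ∈ Iv x α1 η ∧ t.2.1 ∈ Iv x α2 η ∧ t.2.2.2.1 ∈ Iv x β1 η ∧
    t.2.2.2.2.1 ∈ Iv x β2 η

/-- the quintuples `(a, b, f, d, e)` with `a b ∣ f d e - u`, `κ x / 3 < f d e ≤ x` -/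
noncomputable def HS (u : ℤ) (x α1 α2 β1 β2 η κ : ℝ) : Finset (ℕ × ℕ × ℕ × ℕ × ℕ) :=
  (Iv x α1 η ×ˢ Iv x α2 η ×ˢ Iv x β1 η ×ˢ Iv x β2 η ×ˢ range (⌊x⌋₊ + 1)).filter fun t =>
    ((t.1 * t.2.1 : ℕ) : ℤ) ∣ ((t.2.2.1 * t.2.2.2.1 * t.2.2.2.2 : ℕ) : ℤ) - u ∧
    κ / 3 * x < ((t.2.2.1 * t.2.2.2.1 * t.2.2.2.2 : ℕ) : ℝ) ∧
    ((t.2.2.1 * t.2.2.2.1 * t.2.2.2.2 : ℕ) : ℝ) ≤ x

/-- the good grid cubes -/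
def GG (N : ℕ) : Finset (ℕ × ℕ × ℕ × ℕ) :=
  (range N ×ˢ range N ×ˢ range N ×ˢ range N).filter fun g =>
    g.1 + 1 ≤ g.2.1 ∧ g.1 + 2 * g.2.1 + 3 < N ∧ g.2.2.1 + 1 ≤ g.2.2.2 ∧ g.2.2.1 + 2 * g.2.2.2 + 3 < N ∧
    (3 * (g.1 + g.2.1 + 2) + 2 * (g.2.2.1 + 1) < 2 * N ∨ 3 * (g.2.2.1 + g.2.2.2 + 2) + 2 * (g.1 + 1) < 2 * N)


/-! ## small API (proved) -/

theorem mem_Iv {x α η : ℝ} (hx : 0 ≤ x) {a : ℕ} : a ∈ Iv x α η ↔ x ^ α < (a : ℝ) ∧ (a : ℝ) ≤ x ^ (α + η) := by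
  unfold Iv
  rw [Finset.mem_Ioc, Nat.floor_lt (rpow_nonneg hx _), Nat.le_floor_iff (rpow_nonneg hx _)]

theorem one_lt_of_mem_Iv {x α η : ℝ} (hx : 1 ≤ x) (hα : 0 ≤ α) {a : ℕ} (h : a ∈ Iv x α η) : 1 < a := by
  have h1 := ((mem_Iv (by linarith)).1 h).1
  have h2 : (1 : ℝ) ≤ x ^ α := one_le_rpow hx hα
  exact_mod_cast lt_of_le_of_lt h2 h1

theorem card_Iv_le {x α η : ℝ} (hx : 0 ≤ x) : ((Iv x α η).card : ℝ) ≤ x ^ (α + η) := by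
  unfold Iv
  rw [Nat.card_Ioc]
  exact (Nat.cast_le.2 (Nat.sub_le _ _)).trans (Nat.floor_le (rpow_nonneg hx _))

theorem wt_nonneg (t : ℕ × ℕ × ℕ × ℕ) : 0 ≤ wt t := by
  unfold wt
  positivity

theorem mem_Bx {x α1 α2 β1 β2 η : ℝ} {t : ℕ × ℕ × ℕ × ℕ} : t ∈ Bx x α1 α2 β1 β2 η ↔
    t.1 ∈ Iv x α1 η ∧ t.2.1 ∈ Iv x α2 η ∧ t.2.2.1 ∈ Iv x β1 η ∧ t.2.2.2 ∈ Iv x β2 η := by
  unfold Bx
  rw [Finset.mem_product, Finset.mem_product, Finset.mem_product]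

/-- the weighted sum over a product box factorises -/
theorem sum_wt_product (A B C D : Finset ℕ) : ∑ t ∈ A ×ˢ B ×ˢ C ×ˢ D, wt t =
    (∑ a ∈ A, (1 : ℝ) / a) * (∑ b ∈ B, (1 : ℝ) / b) * (∑ f ∈ C, (1 : ℝ) / f) * (∑ d ∈ D, (1 : ℝ) / d) := by
  have h : ∑ t ∈ A ×ˢ B ×ˢ C ×ˢ D, wt t =
      ∑ a ∈ A, ∑ b ∈ B, ∑ f ∈ C, ∑ d ∈ D, (1 : ℝ) / a * (1 / b) * (1 / f) * (1 / d) := by
    simp only [Finset.sum_product, wt]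
    refine sum_congr rfl fun a _ => sum_congr rfl fun b _ => sum_congr rfl fun f _ => sum_congr rfl fun d _ => ?_
    rw [one_div, one_div, one_div, one_div, one_div, mul_inv, mul_inv, mul_inv]
  rw [h]
  simp only [← mul_sum, ← sum_mul]

/-! ## Block K: Kloosterman sums -/

/-- multiplicativity -/
def st_K1 : Prop := ∀ (q q1 q2 : ℕ) [NeZero q] [NeZero q1] [NeZero q2], q = q1 * q2 → Nat.Coprime q1 q2 →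
  ∀ v w : ℤ, (q1 : ℤ) ∣ v * q2 - 1 → (q2 : ℤ) ∣ w * q1 - 1 → ∀ m n : ℤ,
  kq q (m : ZMod q) (n : ZMod q) =
    kq q1 ((m * v : ℤ) : ZMod q1) ((n * v : ℤ) : ZMod q1) * kq q2 ((m * w : ℤ) : ZMod q2) ((n * w : ℤ) : ZMod q2)

/-- prime moduli (Weil, from KLW) -/
def st_K2 : Prop := ∀ (p : ℕ) [NeZero p], p.Prime → ∀ m n : ℤ,
  ‖kq p (m : ZMod p) (n : ZMod p)‖ ≤ 2 * sqrt ((p : ℝ) * (Int.gcd n p : ℝ))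

/-- squarefree moduli -/
def st_K3 : Prop := ∀ (r : ℕ) [NeZero r], Squarefree r → ∀ m n : ℤ,
  ‖kq r (m : ZMod r) (n : ZMod r)‖ ≤ (r.divisors.card : ℝ) * sqrt ((r : ℝ) * (Int.gcd n r : ℝ))

/-- general moduli with bounded bad part -/
def st_K4 : Prop := ∀ (q s r : ℕ) [NeZero q], q = s * r → Nat.Coprime s r → Squarefree r → ∀ m n : ℤ,
  ‖kq q (m : ZMod q) (n : ZMod q)‖ ≤ (s : ℝ) * ((r.divisors.card : ℝ) * sqrt ((r : ℝ) * (Int.gcd n r : ℝ)))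

/-- linear sums -/
def st_K5 : Prop := ∀ (q : ℕ) [NeZero q] (D M h : ℕ), 0 < h → h < q →
  ‖lin q D M (h : ZMod q)‖ ≤ (q : ℝ) / (2 * (min h (q - h) : ℕ))

/-- weighted sum over the frequencies -/
def st_K6 : Prop := ∀ q r : ℕ, 1 ≤ q → r ∣ q →
  ∑ h ∈ Ioo 0 q, (q : ℝ) / (2 * (min h (q - h) : ℕ)) * sqrt (Nat.gcd h r : ℝ) ≤
    (q : ℝ) * (r.divisors.card : ℝ) * (1 + log q)

/-- incomplete Kloosterman sums -/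
def st_K7 : Prop := ∀ (q s r : ℕ) [NeZero q], q = s * r → Nat.Coprime s r → Squarefree r →
  ∀ (n : ℤ) (D M : ℕ),
  ‖∑ d ∈ (Ioc D (D + M)).filter (fun d => Nat.Coprime d q),
      (ZMod.stdAddChar ((n : ZMod q) * (d : ZMod q)⁻¹) : ℂ)‖ ≤
    (s : ℝ) * ((r.divisors.card : ℝ) * sqrt ((r : ℝ) * (Int.gcd n r : ℝ))) * ((M : ℝ) / q + 1 + log q)

/-- modular hyperbola -/
def st_K8 : Prop := ∀ (q s r : ℕ), 1 ≤ q → q = s * r → Nat.Coprime s r → Squarefree r →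
  ∀ (f : ℕ) (u : ℤ), Nat.Coprime f q → (u = 1 ∨ u = -1) → ∀ D M E N : ℕ,
  |((((Ioc D (D + M)) ×ˢ (Ioc E (E + N))).filter fun t =>
      ((q : ℕ) : ℤ) ∣ ((f * t.1 * t.2 : ℕ) : ℤ) - u).card : ℝ) -
    (N : ℝ) / q * (((Ioc D (D + M)).filter fun d => Nat.Coprime d q).card : ℝ)| ≤
    (s : ℝ) * (r.divisors.card : ℝ) ^ 2 * sqrt (r : ℝ) * (1 + log q) * ((M : ℝ) / q + 1 + log q)

/-! ## Block T: divisor bound -/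

def st_T1 : Prop := ∀ ε : ℝ, 0 < ε → ∃ C : ℝ, 0 < C ∧ ∀ n : ℕ, 1 ≤ n → (n.divisors.card : ℝ) ≤ C * (n : ℝ) ^ ε

/-! ## Block P: the Euler product -/

def st_P1 : Prop := 0 < PP ∧ (Multipliable fun p : Nat.Primes => fac p) ∧
  ∀ y : ℕ, PP ≤ ∏ p ∈ Nat.primesBelow y, fac p

/-! ## Block M: main term -/

def st_M1 : Prop := ∀ W : ℕ, 1 ≤ W → ∀ r : ℕ, r < W → ∀ x α η : ℝ, 1 ≤ x → 0 ≤ α → 0 ≤ η →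
  |∑ a ∈ (Iv x α η).filter (fun a => a % W = r), (1 : ℝ) / a - η * log x / W| ≤ 2

def st_M2 : Prop := ∀ p : ℕ, 1 ≤ p → ∀ x α η : ℝ, 1 ≤ x → 0 ≤ α → 0 ≤ η →
  ∑ a ∈ (Iv x α η).filter (fun a => p ∣ a), (1 : ℝ) / a ≤ (η * log x + 1) / p

def st_M3 : Prop := ∀ W : ℕ, 1 ≤ W → ∀ α1 α2 β1 β2 η : ℝ, 0 ≤ α1 → 0 ≤ α2 → 0 ≤ β1 → 0 ≤ β2 → 0 < η →
  ∀ δ : ℝ, 0 < δ → ∃ X0 : ℝ, ∀ x : ℝ, X0 ≤ x → (rho W - δ) * (η * log x) ^ 4 ≤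
    ∑ t ∈ (Bx x α1 α2 β1 β2 η).filter (fun t => Nat.gcd (Nat.gcd (t.1 * t.2.1) (t.2.2.1 * t.2.2.2)) W = 1), wt t

def st_M4 : Prop := ∀ y : ℕ, rho (∏ p ∈ Nat.primesBelow y, p) = ∏ p ∈ Nat.primesBelow y, fac p

open scoped Classical in
def st_M5a : Prop := ∀ y : ℕ, 2 ≤ y → ∀ x α1 α2 β1 β2 η : ℝ, 1 ≤ x → 0 ≤ α1 → 0 ≤ α2 → 0 ≤ β1 → 0 ≤ β2 → 0 ≤ η →
  ∑ t ∈ (Bx x α1 α2 β1 β2 η).filter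
    (fun t => ∃ p : ℕ, p.Prime ∧ y ≤ p ∧ p ∣ t.1 * t.2.1 ∧ p ∣ t.2.2.1 * t.2.2.2), wt t ≤
    8 / y * (η * log x + 1) ^ 4

open scoped Classical in
def st_M5b : Prop := ∀ y : ℕ, 2 ≤ y → ∀ x α1 α2 β1 β2 η : ℝ, 1 ≤ x → 0 ≤ α1 → 0 ≤ α2 → 0 ≤ β1 → 0 ≤ β2 → 0 ≤ η →
  ∑ t ∈ (Bx x α1 α2 β1 β2 η).filter (fun t => ∃ p : ℕ, p.Prime ∧ y ≤ p ∧ p ^ 2 ∣ t.1 * t.2.1), wt t ≤
    6 / y * (η * log x + 1) ^ 4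

open scoped Classical in
def st_M5c : Prop := ∀ y k : ℕ, 1 ≤ k → ∀ x α1 α2 β1 β2 η : ℝ, 1 ≤ x → 0 ≤ α1 → 0 ≤ α2 → 0 ≤ β1 → 0 ≤ β2 → 0 ≤ η →
  ∑ t ∈ (Bx x α1 α2 β1 β2 η).filter (fun t => ∃ p : ℕ, p.Prime ∧ p < y ∧ p ^ k ∣ t.1 * t.2.1), wt t ≤
    y * (k + 1) / 2 ^ k * (η * log x + 1) ^ 4

def st_M5d : Prop := ∀ y k q : ℕ, 1 ≤ y → 1 ≤ q → (∀ p : ℕ, p.Prime → y ≤ p → ¬ p ^ 2 ∣ q) →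
  (∀ p : ℕ, p.Prime → p < y → ¬ p ^ k ∣ q) → Gd (y ^ (y * k)) q

open scoped Classical in
def st_M6 : Prop := ∀ α1 α2 β1 β2 η : ℝ, 0 ≤ α1 → 0 ≤ α2 → 0 ≤ β1 → 0 ≤ β2 → 0 < η →
  ∀ δ : ℝ, 0 < δ → ∃ K0 : ℕ, 1 ≤ K0 ∧ ∃ X0 : ℝ, ∀ x : ℝ, X0 ≤ x → (PP - δ) * (η * log x) ^ 4 ≤
    ∑ t ∈ (Bx x α1 α2 β1 β2 η).filter
      (fun t => Nat.Coprime (t.1 * t.2.1) (t.2.2.1 * t.2.2.2) ∧ Gd K0 (t.1 * t.2.1)), wt t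

/-! ## Block B: counting in a box -/

/-- error term for the modulus `q` -/
noncomputable def Er (K0 q : ℕ) : ℝ :=
  (K0 : ℝ) * (q.divisors.card : ℝ) ^ 2 * sqrt (q : ℝ) * (1 + log q) ^ 2

def st_B1 : Prop := ∀ K0 q : ℕ, 1 ≤ q → Gd K0 q → ∀ (f : ℕ) (u : ℤ), Nat.Coprime f q → (u = 1 ∨ u = -1) →
  ∀ D M E N : ℕ,
  (N : ℝ) / q * (((Ioc D (D + M)).filter fun d => Nat.Coprime d q).card : ℝ) - Er K0 q * ((M : ℝ) / q + 1) ≤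
    ((((Ioc D (D + M)) ×ˢ (Ioc E (E + N))).filter fun t =>
      ((q : ℕ) : ℤ) ∣ ((f * t.1 * t.2 : ℕ) : ℤ) - u).card : ℝ)

def st_B2 : Prop := ∀ K0 q : ℕ, 1 ≤ K0 → 1 ≤ q → Gd K0 q → ∀ (f : ℕ) (u : ℤ), 1 ≤ f → Nat.Coprime f q →
  (u = 1 ∨ u = -1) → ∀ x β η κ : ℝ, 1 < x → 0 ≤ β → 0 < η → 0 < κ → κ ≤ 1 →
  (1 - κ) * exp (-κ) * (x / (q * f)) * ∑ d ∈ (Iv x β η).filter (fun d => Nat.Coprime d q), (1 : ℝ) / d -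
    2 * Er K0 q * (((Iv x β η).card : ℝ) / q + (η * log x / κ + 1)) ≤
  (((Iv x β η ×ˢ range (⌊x⌋₊ + 1)).filter fun t =>
      ((q : ℕ) : ℤ) ∣ ((f * t.1 * t.2 : ℕ) : ℤ) - u ∧ κ / 3 * x < ((f * t.1 * t.2 : ℕ) : ℝ) ∧
      ((f * t.1 * t.2 : ℕ) : ℝ) ≤ x).card : ℝ)

def st_B3 : Prop := ∀ α1 α2 β1 β2 η : ℝ, 0 ≤ α1 → 0 ≤ α2 → 0 ≤ β1 → 0 ≤ β2 → 0 < η →
  3 / 2 * (α1 + α2 + 2 * η) + β1 + η < 1 → (α1 + α2) / 2 + β1 + β2 + 4 * η < 1 →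
  ∀ (K0 : ℕ) (κ δ : ℝ), 0 < κ → 0 < δ → ∃ X0 : ℝ, ∀ x : ℝ, X0 ≤ x →
  ∑ t ∈ Iv x α1 η ×ˢ Iv x α2 η ×ˢ Iv x β1 η,
    2 * Er K0 (t.1 * t.2.1) * (((Iv x β2 η).card : ℝ) / ((t.1 * t.2.1 : ℕ) : ℝ) + (η * log x / κ + 1)) ≤ δ * x

def st_B4 : Prop := ∀ α1 α2 β1 β2 η : ℝ, 0 ≤ α1 → 0 ≤ α2 → 0 ≤ β1 → 0 ≤ β2 → 0 < η →
  3 / 2 * (α1 + α2 + 2 * η) + β1 + η < 1 → (α1 + α2) / 2 + β1 + β2 + 4 * η < 1 →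
  ∀ δ : ℝ, 0 < δ → ∃ κ : ℝ, 0 < κ ∧ κ ≤ 1 ∧ ∃ X0 : ℝ, ∀ x : ℝ, X0 ≤ x → ∀ u : ℤ, (u = 1 ∨ u = -1) →
  (PP - δ) * (η * log x) ^ 4 * x ≤ ((HS u x α1 α2 β1 β2 η κ).card : ℝ)

/-! ## Block A: from the boxes to the tuples -/

def st_A1 : Prop := ∀ α1 α2 β1 β2 η κ : ℝ, 0 ≤ α1 → 0 ≤ β1 → 0 < η → α1 + η ≤ α2 → β1 + η ≤ β2 →
  α1 + 2 * α2 + 3 * η < 1 → β1 + 2 * β2 + 3 * η < 1 → 0 < κ → ∃ X0 : ℝ, ∀ x : ℝ, X0 ≤ x →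
  (HS 1 x α1 α2 β1 β2 η κ).card ≤ (TB x α1 α2 β1 β2 η).card

def st_A2 : Prop := ∀ α1 α2 β1 β2 η κ : ℝ, 0 ≤ α1 → 0 ≤ β1 → 0 < η → α1 + η ≤ α2 → β1 + η ≤ β2 →
  α1 + 2 * α2 + 3 * η < 1 → β1 + 2 * β2 + 3 * η < 1 → 0 < κ → ∃ X0 : ℝ, ∀ x : ℝ, X0 ≤ x →
  (HS (-1) x β1 β2 α1 α2 η κ).card ≤ (TB x α1 α2 β1 β2 η).card

def st_S1 : Prop := ∀ x : ℝ, 1 ≤ x → 36 * ((Tset x).card : ℝ) ≤ S x

def st_S2 : Prop := ∀ N : ℕ, 1 ≤ N → ∀ G : Finset (ℕ × ℕ × ℕ × ℕ), ∀ x : ℝ, 1 ≤ x →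
  ∑ g ∈ G, (TB x ((g.1 : ℝ) / N) ((g.2.1 : ℝ) / N) ((g.2.2.1 : ℝ) / N) ((g.2.2.2 : ℝ) / N) (1 / N)).card ≤
    (Tset x).card

/-! ## Block G: the number of good cubes -/

/-- coarse bound, times 6, for the number of bad `i2` -/
def U6 (K I J : ℕ) : ℕ := (3 * ((K : ℤ) - I) - max (6 * (I : ℤ)) (4 * ((K : ℤ) - J - 1) - 6 * (I + 1)) + 1).toNat

/-- pairs -/
def Tp (N : ℕ) : Finset (ℕ × ℕ) := (range N ×ˢ range N).filter fun g => g.1 + 1 ≤ g.2 ∧ g.1 + 2 * g.2 + 3 < N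

def st_G1 : Prop := ∀ N : ℕ, 5 ≤ N → (N - 5) ^ 2 ≤ 12 * (Tp N).card

/-- the bad quadruples -/
def Bad (N : ℕ) : Finset (ℕ × ℕ × ℕ × ℕ) :=
  (range N ×ˢ range N ×ˢ range N ×ˢ range N).filter fun g =>
    g.1 + 1 ≤ g.2.1 ∧ g.1 + 2 * g.2.1 + 3 < N ∧ g.2.2.1 + 1 ≤ g.2.2.2 ∧ g.2.2.1 + 2 * g.2.2.2 + 3 < N ∧
    2 * N ≤ 3 * (g.1 + g.2.1 + 2) + 2 * (g.2.2.1 + 1) ∧ 2 * N ≤ 3 * (g.2.2.1 + g.2.2.2 + 2) + 2 * (g.1 + 1)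

def st_G2 : Prop := ∀ K M : ℕ, 1 ≤ K → 6 ≤ M → 3 ∣ K →
  36 * (Bad (K * M)).card ≤ M ^ 4 * ∑ I ∈ range (K / 3), ∑ J ∈ range (K / 3), U6 K I J * U6 K J I

/-- numerical bound, proved by kernel computation (the sum is 6015764970) -/
def st_G3 : Prop := ∑ I ∈ range 300, ∑ J ∈ range 300, U6 900 I J * U6 900 J I ≤ 6015764970

def st_G4 : Prop := ∃ N : ℕ, 30 ≤ N ∧ (0.9631 : ℝ) * (N : ℝ) ^ 4 ≤ 144 * ((GG N).card : ℝ)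

/-- the final statement -/
def st_F : Prop := (Multipliable fun p : Nat.Primes => fac p) ∧ 0 < PP ∧
  ∃ X0 : ℝ, ∀ x : ℝ, X0 ≤ x → 0.963 * ((1 / 4) * PP) * x * (log x) ^ 4 ≤ S x

end Pool.Agent.DDD
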