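import Pool.Agent.DDD.Defs

/-!
# [DDD] second part: the sharp constant 547/567
-/

set_option autoImplicit false

open Finset Real

namespace Pool.Agent.DDD

/-- six times the length of the bad interval -/
noncomputable def el (s t : ℝ) : ℝ := max 0 (3 * (1 - s) - max (6 * s) (4 - 4 * t - 6 * s))

/-- the exact value of the integral is `5/567`; only `≤` is needed -/
def st_X1 : Prop := ∫ t in (0 : ℝ)..(1 / 3), ∫ s in (0 : ℝ)..(1 / 3), el s t * el t s ≤ 5 / 567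

/-- Riemann sum -/
def st_X2 : Prop := ∀ K : ℕ, 3 ≤ K → 3 ∣ K →
  ((∑ I ∈ range (K / 3), ∑ J ∈ range (K / 3), U6 K I J * U6 K J I : ℕ) : ℝ) ≤
    (K : ℝ) ^ 4 * (∫ t in (0 : ℝ)..(1 / 3), ∫ s in (0 : ℝ)..(1 / 3), el s t * el t s) + 1000 * (K : ℝ) ^ 3

def st_X3 : Prop := ∀ ε : ℝ, 0 < ε → ∃ N : ℕ, 30 ≤ N ∧ (547 / 567 - ε) * (N : ℝ) ^ 4 ≤ 144 * ((GG N).card : ℝ)

/-- the final statement, sharp form -/
def st_F2 : Prop := (Multipliable fun p : Nat.Primes => fac p) ∧ 0 < PP ∧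
  ∀ κ : ℝ, κ < 547 / 567 → ∃ X0 : ℝ, ∀ x : ℝ, X0 ≤ x → κ * ((1 / 4) * PP) * x * (log x) ^ 4 ≤ S x

end Pool.Agent.DDD
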