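import Pool.Agent.DDD.Defs

set_option autoImplicit false

namespace Pool.Agent.DDD

open Finset Real

theorem A2_large (s κ : ℝ) (hs : s < 1) (hκ : 0 < κ) : ∃ X0 : ℝ, ∀ x : ℝ, X0 ≤ x →
    1 ≤ x ∧ x ^ s ≤ κ / 3 * x := by
  have h1 : Filter.Tendsto (fun x : ℝ => x ^ (1 - s)) Filter.atTop Filter.atTop :=
    tendsto_rpow_atTop (by linarith)
  have h2 := (h1.eventually_ge_atTop (3 / κ)).and (Filter.eventually_ge_atTop (1 : ℝ))
  obtain ⟨X0, hX0⟩ := Filter.eventually_atTop.1 h2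
  refine ⟨X0, fun x hx => ?_⟩
  obtain ⟨h3, h4⟩ := hX0 x hx
  refine ⟨h4, ?_⟩
  have hx0 : (0 : ℝ) < x := by linarith
  have h5 : x = x ^ s * x ^ (1 - s) := by
    rw [← rpow_add hx0, add_sub_cancel, rpow_one]
  have h6 : 0 < x ^ s := rpow_pos_of_pos hx0 s
  have h7 : 1 ≤ κ / 3 * x ^ (1 - s) := by
    have : κ / 3 * (3 / κ) ≤ κ / 3 * x ^ (1 - s) := mul_le_mul_of_nonneg_left h3 (by positivity)
    have h8 : κ / 3 * (3 / κ) = 1 := by field_simp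
    linarith
  calc x ^ s = x ^ s * 1 := (mul_one _).symm
    _ ≤ x ^ s * (κ / 3 * x ^ (1 - s)) := mul_le_mul_of_nonneg_left h7 h6.le
    _ = κ / 3 * (x ^ s * x ^ (1 - s)) := by ring
    _ = κ / 3 * x := by rw [← h5]

theorem A2_lt {x α β η κ : ℝ} (hx : 1 ≤ x)
    (hbig : x ^ (α + 2 * β + 3 * η) ≤ κ / 3 * x) {a b c : ℕ}
    (ha : a ∈ Iv x α η) (hb : b ∈ Iv x β η) (h : κ / 3 * x < ((a * b * c : ℕ) : ℝ)) : b < c := by
  by_contra hcb
  push Not at hcb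
  have h0 : (0 : ℝ) ≤ x := by linarith
  have hx0 : (0 : ℝ) < x := by linarith
  have h1 := ((mem_Iv h0).1 ha).2
  have h2 := ((mem_Iv h0).1 hb).2
  have h3 : ((a * b * c : ℕ) : ℝ) ≤ x ^ (α + η) * x ^ (β + η) * x ^ (β + η) := by
    push_cast
    have hc' : (c : ℝ) ≤ (b : ℝ) := by exact_mod_cast hcb
    have hc2 : (c : ℝ) ≤ x ^ (β + η) := hc'.trans h2
    have ha0 : (0 : ℝ) ≤ (a : ℝ) := Nat.cast_nonneg a
    have hb0 : (0 : ℝ) ≤ (b : ℝ) := Nat.cast_nonneg b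
    have hc0 : (0 : ℝ) ≤ (c : ℝ) := Nat.cast_nonneg c
    have hp1 : 0 ≤ x ^ (α + η) := rpow_nonneg h0 _
    have hp2 : 0 ≤ x ^ (β + η) := rpow_nonneg h0 _
    exact mul_le_mul (mul_le_mul h1 h2 hb0 hp1) hc2 hc0 (mul_nonneg hp1 hp2)
  have h4 : x ^ (α + η) * x ^ (β + η) * x ^ (β + η) = x ^ (α + 2 * β + 3 * η) := by
    rw [← rpow_add hx0, ← rpow_add hx0]
    congr 1
    ring
  rw [h4] at h3
  linarith

theorem A2_lt' {x α β η : ℝ} (hx : 1 ≤ x) (h : α + η ≤ β) {a b : ℕ}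
    (ha : a ∈ Iv x α η) (hb : b ∈ Iv x β η) : a < b := by
  have h0 : (0 : ℝ) ≤ x := by linarith
  have h1 := ((mem_Iv h0).1 ha).2
  have h2 := ((mem_Iv h0).1 hb).1
  have h3 : x ^ (α + η) ≤ x ^ β := rpow_le_rpow_of_exponent_le hx h
  have h4 : (a : ℝ) < (b : ℝ) := by linarith
  exact_mod_cast h4

theorem R_A2 : st_A2 := by
  intro α1 α2 β1 β2 η κ hα hβ hη hα2 hβ2 hsα hsβ hκ
  obtain ⟨X1, hX1⟩ := A2_large (α1 + 2 * α2 + 3 * η) κ hsα hκ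
  obtain ⟨X2, hX2⟩ := A2_large (β1 + 2 * β2 + 3 * η) κ hsβ hκ
  refine ⟨max X1 X2, fun x hx => ?_⟩
  obtain ⟨hx1, hA⟩ := hX1 x ((le_max_left _ _).trans hx)
  obtain ⟨_, hB⟩ := hX2 x ((le_max_right _ _).trans hx)
  have h0 : (0 : ℝ) ≤ x := by linarith
  have hdata : ∀ t ∈ HS (-1) x β1 β2 α1 α2 η κ,
      (t.1 ∈ Iv x β1 η ∧ t.2.1 ∈ Iv x β2 η ∧ t.2.2.1 ∈ Iv x α1 η ∧ t.2.2.2.1 ∈ Iv x α2 η) ∧
      κ / 3 * x < ((t.2.2.1 * t.2.2.2.1 * t.2.2.2.2 : ℕ) : ℝ) ∧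
      ((t.2.2.1 * t.2.2.2.1 * t.2.2.2.2 : ℕ) : ℝ) ≤ x ∧
      t.1 * t.2.1 * ((t.2.2.1 * t.2.2.2.1 * t.2.2.2.2 + 1) / (t.1 * t.2.1)) =
        t.2.2.1 * t.2.2.2.1 * t.2.2.2.2 + 1 := by
    intro t ht
    unfold HS at ht
    rw [Finset.mem_filter] at ht
    obtain ⟨hp, hd, hlow, hup⟩ := ht
    rw [Finset.mem_product, Finset.mem_product, Finset.mem_product, Finset.mem_product] at hp
    obtain ⟨p1, p2, p3, p4, _⟩ := hp
    refine ⟨⟨p1, p2, p3, p4⟩, hlow, hup, ?_⟩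
    have hd' : t.1 * t.2.1 ∣ t.2.2.1 * t.2.2.2.1 * t.2.2.2.2 + 1 := by
      have : ((t.1 * t.2.1 : ℕ) : ℤ) ∣ ((t.2.2.1 * t.2.2.2.1 * t.2.2.2.2 + 1 : ℕ) : ℤ) := by
        rw [Nat.cast_add, Nat.cast_one]
        rw [sub_neg_eq_add] at hd
        exact hd
      exact Int.natCast_dvd_natCast.1 this
    exact Nat.mul_div_cancel' hd'
  refine Finset.card_le_card_of_injOn (fun t => (t.2.2.1, t.2.2.2.1, t.2.2.2.2, t.1, t.2.1,
    (t.2.2.1 * t.2.2.2.1 * t.2.2.2.2 + 1) / (t.1 * t.2.1))) ?_ ?_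
  · intro t ht
    have ht' := hdata t (Finset.mem_coe.1 ht)
    obtain ⟨f, d, a, b, c⟩ := t
    simp only at ht'
    obtain ⟨⟨p1, p2, p3, p4⟩, hlow, hup, he⟩ := ht'
    set e := (a * b * c + 1) / (f * d) with hedef
    have ha1 : 1 < a := one_lt_of_mem_Iv hx1 hα p3
    have hf1 : 1 < f := one_lt_of_mem_Iv hx1 hβ p1
    have hab : a < b := A2_lt' hx1 hα2 p3 p4
    have hfd : f < d := A2_lt' hx1 hβ2 p1 p2
    have hbc : b < c := A2_lt hx1 hA p3 p4 hlow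
    have hde : d < e := by
      refine A2_lt hx1 hB p1 p2 ?_
      rw [he]
      push_cast
      push_cast at hlow
      linarith
    have hle : a * b * c ≤ ⌊x⌋₊ := Nat.le_floor hup
    have hb0 : 0 < b := by omega
    have hc0 : 0 < c := by omega
    have hd0 : 0 < d := by omega
    have he0 : 0 < e := by omega
    have hf0 : 0 < f := by omega
    have ha0 : 0 < a := by omega
    have la : a ≤ a * b * c := by
      rw [mul_assoc]
      exact Nat.le_mul_of_pos_right _ (Nat.mul_pos hb0 hc0)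
    have lb : b ≤ a * b * c := by
      rw [mul_assoc, mul_left_comm]
      exact Nat.le_mul_of_pos_right _ (Nat.mul_pos ha0 hc0)
    have lc : c ≤ a * b * c := Nat.le_mul_of_pos_left _ (Nat.mul_pos ha0 hb0)
    have lf : f ≤ f * d * e := by
      rw [mul_assoc]
      exact Nat.le_mul_of_pos_right _ (Nat.mul_pos hd0 he0)
    have ld : d ≤ f * d * e := by
      rw [mul_assoc, mul_left_comm]
      exact Nat.le_mul_of_pos_right _ (Nat.mul_pos hf0 he0)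
    have le' : e ≤ f * d * e := Nat.le_mul_of_pos_left _ (Nat.mul_pos hf0 hd0)
    refine Finset.mem_coe.2 ?_
    unfold TB Tset
    rw [Finset.mem_filter, Finset.mem_filter]
    refine ⟨⟨?_, ha0, hab, hbc, hf0, hfd, hde, he.symm, hle⟩, p3, p4, p1, p2⟩
    simp only [Finset.mem_product, Finset.mem_range]
    refine ⟨?_, ?_, ?_, ?_, ?_, ?_⟩ <;> omega
  · intro t _ t' _ h
    simp only [Prod.mk.injEq] at h
    obtain ⟨a1, a2, a3, a4, a5, _⟩ := h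
    exact Prod.ext a4 (Prod.ext a5 (Prod.ext a1 (Prod.ext a2 a3)))

end Pool.Agent.DDD
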