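import Pool.Agent.DDD.Defs

/-! # [DDD] row B1 -/

set_option autoImplicit false

namespace Pool.Agent.DDD

open Finset Real

theorem R_B1 (h8 : st_K8) : st_B1 := by
  intro K0 q hq hG f u hf hu D M E N
  obtain ⟨s, r, hqs, hsr, hr, hs⟩ := hG
  have h := (abs_le.1 (h8 q s r hq hqs hsr hr f u hf hu D M E N)).1
  have hlog : 0 ≤ log (q : ℝ) := Real.log_natCast_nonneg q
  have hrq : r ∣ q := ⟨s, by rw [hqs, mul_comm]⟩
  have hτ : (r.divisors.card : ℝ) ≤ q.divisors.card := by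
    exact_mod_cast Finset.card_le_card (Nat.divisors_subset_of_dvd (by omega) hrq)
  have hrle : (r : ℝ) ≤ q := by exact_mod_cast Nat.le_of_dvd (by omega) hrq
  have hsq : sqrt (r : ℝ) ≤ sqrt (q : ℝ) := Real.sqrt_le_sqrt hrle
  have hsK : (s : ℝ) ≤ K0 := by exact_mod_cast hs
  have hM : 0 ≤ (M : ℝ) / q := by positivity
  have key : (s : ℝ) * (r.divisors.card : ℝ) ^ 2 * sqrt (r : ℝ) * (1 + log q) *
      ((M : ℝ) / q + 1 + log q) ≤ Er K0 q * ((M : ℝ) / q + 1) := by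
    unfold Er
    have h1 : (s : ℝ) * (r.divisors.card : ℝ) ^ 2 * sqrt (r : ℝ) ≤
        (K0 : ℝ) * (q.divisors.card : ℝ) ^ 2 * sqrt (q : ℝ) := by gcongr
    have h2 : (1 + log q) * ((M : ℝ) / q + 1 + log q) ≤ (1 + log q) ^ 2 * ((M : ℝ) / q + 1) := by
      have h3 : (M : ℝ) / q + 1 + log q ≤ (1 + log q) * ((M : ℝ) / q + 1) := by
        nlinarith [mul_nonneg hM hlog]
      calc (1 + log q) * ((M : ℝ) / q + 1 + log q)
          ≤ (1 + log q) * ((1 + log q) * ((M : ℝ) / q + 1)) :=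
            mul_le_mul_of_nonneg_left h3 (by positivity)
        _ = (1 + log q) ^ 2 * ((M : ℝ) / q + 1) := by ring
    calc (s : ℝ) * (r.divisors.card : ℝ) ^ 2 * sqrt (r : ℝ) * (1 + log q) *
          ((M : ℝ) / q + 1 + log q)
        = ((s : ℝ) * (r.divisors.card : ℝ) ^ 2 * sqrt (r : ℝ)) *
          ((1 + log q) * ((M : ℝ) / q + 1 + log q)) := by ring
      _ ≤ ((K0 : ℝ) * (q.divisors.card : ℝ) ^ 2 * sqrt (q : ℝ)) *
          ((1 + log q) ^ 2 * ((M : ℝ) / q + 1)) :=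
            mul_le_mul h1 h2 (by positivity) (by positivity)
      _ = (K0 : ℝ) * (q.divisors.card : ℝ) ^ 2 * sqrt (q : ℝ) * (1 + log q) ^ 2 *
          ((M : ℝ) / q + 1) := by ring
  linarith

end Pool.Agent.DDD
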