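import Pool.Agent.DDD.Defs

/-!
# [DDD-B2] splitting the d-range into multiplicatively short intervals
-/

set_option autoImplicit false

namespace Pool.Agent.DDD

open Finset Real

theorem B2_part (a : ℕ → ℕ) (ha : Monotone a) (g : ℕ → ℝ) (J : ℕ) :
    ∑ j ∈ range J, ∑ d ∈ Ioc (a j) (a (j + 1)), g d = ∑ d ∈ Ioc (a 0) (a J), g d := by
  induction J with
  | zero => simp
  | succ J ih =>
    rw [sum_range_succ, ih]
    exact Finset.sum_Ioc_consecutive g (ha (Nat.zero_le J)) (ha (Nat.le_succ J))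

theorem B2_cprod (A B : Finset ℕ) (P : ℕ × ℕ → Prop) [DecidablePred P] :
    (((A ×ˢ B).filter P).card : ℝ) = ∑ d ∈ A, ((B.filter (fun e => P (d, e))).card : ℝ) := by
  rw [card_filter, sum_product]
  push_cast
  refine sum_congr rfl fun d _ => ?_
  rw [card_filter]
  push_cast
  rfl

theorem B2_Er {K0 q : ℕ} (hK0 : 1 ≤ K0) (hq : 1 ≤ q) : 1 ≤ Er K0 q := by
  unfold Er
  have h1 : (1 : ℝ) ≤ K0 := by exact_mod_cast hK0
  have h2 : (1 : ℝ) ≤ (q.divisors.card : ℝ) := by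
    have h3 : 0 < q.divisors.card := card_pos.2 ⟨1, Nat.mem_divisors.2 ⟨one_dvd _, by omega⟩⟩
    exact_mod_cast h3
  have hq' : (1 : ℝ) ≤ q := by exact_mod_cast hq
  have h4 : (1 : ℝ) ≤ sqrt q := Real.one_le_sqrt.2 hq'
  have h5 : (1 : ℝ) ≤ 1 + log q := by
    have := log_nonneg hq'
    linarith
  have h6 : (1 : ℝ) ≤ (q.divisors.card : ℝ) ^ 2 := one_le_pow₀ h2
  have h7 : (1 : ℝ) ≤ (1 + log q) ^ 2 := one_le_pow₀ h5
  exact one_le_mul_of_one_le_of_one_le (one_le_mul_of_one_le_of_one_le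
    (one_le_mul_of_one_le_of_one_le h1 h6) h4) h7

/-- one short interval -/
theorem B2_one (h1 : st_B1) {K0 q : ℕ} (hq : 1 ≤ q) (hG : Gd K0 q) {f : ℕ} {u : ℤ} (hf : 1 ≤ f)
    (hfq : Nat.Coprime f q) (hu : u = 1 ∨ u = -1) {x κ : ℝ} (hx : 1 < x) (hκ : 0 < κ)
    (hκ1 : κ ≤ 1) {D D' : ℝ} (hD : 1 ≤ D) (hDD : D ≤ D') (hDe : D' ≤ D * exp κ) :
    (1 - κ) * exp (-κ) * (x / (q * f)) *
      ∑ d ∈ Ioc ⌊D⌋₊ ⌊D'⌋₊, (if Nat.Coprime d q then (1 : ℝ) / d else 0) -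
      (∑ d ∈ Ioc ⌊D⌋₊ ⌊D'⌋₊, (1 : ℝ)) / q -
      Er K0 q * ((∑ d ∈ Ioc ⌊D⌋₊ ⌊D'⌋₊, (1 : ℝ)) / q + 1) ≤
    ∑ d ∈ Ioc ⌊D⌋₊ ⌊D'⌋₊, (((range (⌊x⌋₊ + 1)).filter fun e =>
      ((q : ℕ) : ℤ) ∣ ((f * d * e : ℕ) : ℤ) - u ∧ κ / 3 * x < ((f * d * e : ℕ) : ℝ) ∧
      ((f * d * e : ℕ) : ℝ) ≤ x).card : ℝ) := by
  classical
  have hx0 : 0 < x := by linarith
  have hD0 : 0 < D := by linarith
  have hD'0 : 0 < D' := by linarith
  have hf0 : (0 : ℝ) < f := by exact_mod_cast hf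
  have hf1 : (1 : ℝ) ≤ f := by exact_mod_cast hf
  have hq0 : (0 : ℝ) < q := by exact_mod_cast hq
  set X : ℝ := x / (D' * f) with hX
  have hX0 : 0 < X := by positivity
  have hXx : X ≤ x := by
    rw [hX, div_le_iff₀ (by positivity)]
    have h2 : 1 ≤ D' * f := one_le_mul_of_one_le_of_one_le (hD.trans hDD) hf1
    nlinarith
  have hfl : ⌊κ * X⌋₊ ≤ ⌊X⌋₊ := Nat.floor_le_floor (by nlinarith)
  have hDfl : ⌊D⌋₊ ≤ ⌊D'⌋₊ := Nat.floor_le_floor hDD
  have hB := h1 K0 q hq hG f u hfq hu ⌊D⌋₊ (⌊D'⌋₊ - ⌊D⌋₊) ⌊κ * X⌋₊ (⌊X⌋₊ - ⌊κ * X⌋₊)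
  rw [Nat.add_sub_cancel' hDfl, Nat.add_sub_cancel' hfl] at hB
  set I := Ioc ⌊D⌋₊ ⌊D'⌋₊ with hI
  have hcard : ∑ d ∈ I, (1 : ℝ) = ((⌊D'⌋₊ - ⌊D⌋₊ : ℕ) : ℝ) := by
    rw [sum_const, nsmul_eq_mul, mul_one, hI, Nat.card_Ioc]
  rw [hcard]
  have hmemI : ∀ d ∈ I, D < (d : ℝ) ∧ (d : ℝ) ≤ D' := by
    intro d hd
    rw [hI, mem_Ioc, Nat.floor_lt hD0.le, Nat.le_floor_iff hD'0.le] at hd
    exact hd
  -- the count of B1 is at most the count of B2
  have hcount : ((((I ×ˢ Ioc ⌊κ * X⌋₊ ⌊X⌋₊).filter fun t : ℕ × ℕ =>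
      ((q : ℕ) : ℤ) ∣ ((f * t.1 * t.2 : ℕ) : ℤ) - u).card : ℕ) : ℝ) ≤
      ∑ d ∈ I, (((range (⌊x⌋₊ + 1)).filter fun e =>
      ((q : ℕ) : ℤ) ∣ ((f * d * e : ℕ) : ℤ) - u ∧ κ / 3 * x < ((f * d * e : ℕ) : ℝ) ∧
      ((f * d * e : ℕ) : ℝ) ≤ x).card : ℝ) := by
    rw [B2_cprod]
    refine sum_le_sum fun d hd => ?_
    have hd' := hmemI d hd
    refine Nat.cast_le.2 (card_le_card fun e he => ?_)
    rw [mem_filter, mem_Ioc, Nat.floor_lt (by positivity), Nat.le_floor_iff hX0.le] at he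
    rw [mem_filter, mem_range]
    obtain ⟨⟨he1, he2⟩, he3⟩ := he
    have he0 : 0 < (e : ℝ) := lt_trans (by positivity) he1
    have hd0 : 0 < (d : ℝ) := by linarith [hd'.1]
    refine ⟨Nat.lt_succ_of_le ((Nat.le_floor_iff hx0.le).2 (he2.trans hXx)), he3, ?_, ?_⟩
    · push_cast
      have h3 : κ / 3 * x < f * D * (κ * X) := by
        have h4 : f * D * (κ * X) = κ * x * (D / D') := by
          rw [hX]
          field_simp
        rw [h4]
        have h5 : 1 / 3 < D / D' := by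
          rw [div_lt_div_iff₀ (by norm_num) hD'0]
          have h6 : exp κ ≤ exp 1 := exp_le_exp.2 hκ1
          have h7 : exp 1 < 3 := lt_trans exp_one_lt_d9 (by norm_num)
          nlinarith
        nlinarith [mul_pos hκ hx0]
      have h8 : f * D * (κ * X) ≤ f * d * e := by
        have h9 : (f : ℝ) * D ≤ f * d := mul_le_mul_of_nonneg_left hd'.1.le hf0.le
        exact mul_le_mul h9 he1.le (by positivity) (by positivity)
      linarith
    · push_cast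
      calc (f : ℝ) * d * e ≤ f * D' * X := by
            refine mul_le_mul (mul_le_mul_of_nonneg_left hd'.2 hf0.le) he2 he0.le (by positivity)
        _ = x := by
            rw [hX]
            field_simp
  refine le_trans ?_ (hB.trans hcount)
  -- the main term
  set c : ℝ := ((I.filter fun d => Nat.Coprime d q).card : ℝ) with hc
  have hc0 : 0 ≤ c := by positivity
  have hcM : c ≤ ((⌊D'⌋₊ - ⌊D⌋₊ : ℕ) : ℝ) := by
    rw [hc]
    refine Nat.cast_le.2 ((card_filter_le _ _).trans ?_)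
    rw [hI, Nat.card_Ioc]
  have hN : (1 - κ) * X - 1 ≤ ((⌊X⌋₊ - ⌊κ * X⌋₊ : ℕ) : ℝ) := by
    rw [Nat.cast_sub hfl]
    have h3 := Nat.sub_one_lt_floor X
    have h4 := Nat.floor_le (show 0 ≤ κ * X by positivity)
    linarith
  have hmain : exp (-κ) * (x / f) *
      ∑ d ∈ I, (if Nat.Coprime d q then (1 : ℝ) / d else 0) ≤ X * c := by
    rw [← sum_filter, mul_sum, hc, mul_comm X, ← nsmul_eq_mul, ← sum_const]
    refine sum_le_sum fun d hd => ?_
    have hd' := hmemI d (mem_filter.1 hd).1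
    have hd0 : 0 < (d : ℝ) := by linarith [hd'.1]
    rw [hX, exp_neg]
    have h3 : D' ≤ d * exp κ :=
      hDe.trans (mul_le_mul_of_nonneg_right hd'.1.le (exp_pos κ).le)
    have h4 : (exp κ)⁻¹ * (x / f) * (1 / d) = x / ((d * exp κ) * f) := by
      have := (exp_pos κ).ne'
      field_simp
    rw [h4]
    exact div_le_div_of_nonneg_left hx0.le (by positivity)
      (mul_le_mul_of_nonneg_right h3 hf0.le)
  have h5 : (1 - κ) * exp (-κ) * (x / (q * f)) *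
      ∑ d ∈ I, (if Nat.Coprime d q then (1 : ℝ) / d else 0) ≤ (1 - κ) * (X * c) / q := by
    have h6 : (1 - κ) * exp (-κ) * (x / (q * f)) *
        ∑ d ∈ I, (if Nat.Coprime d q then (1 : ℝ) / d else 0) =
        (1 - κ) * (exp (-κ) * (x / f) *
        ∑ d ∈ I, (if Nat.Coprime d q then (1 : ℝ) / d else 0)) / q := by
      field_simp
    rw [h6]
    exact div_le_div_of_nonneg_right (mul_le_mul_of_nonneg_left hmain (by linarith)) hq0.le
  have h7 : ((1 - κ) * X - 1) * c ≤ ((⌊X⌋₊ - ⌊κ * X⌋₊ : ℕ) : ℝ) * c :=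
    mul_le_mul_of_nonneg_right hN hc0
  have h8 : ((1 - κ) * X - 1) * c / q ≤ ((⌊X⌋₊ - ⌊κ * X⌋₊ : ℕ) : ℝ) / q * c := by
    rw [div_mul_eq_mul_div]
    exact div_le_div_of_nonneg_right h7 hq0.le
  have h9 : ((1 - κ) * X - 1) * c / q = (1 - κ) * (X * c) / q - c / q := by
    ring
  have h10 : c / q ≤ ((⌊D'⌋₊ - ⌊D⌋₊ : ℕ) : ℝ) / q := div_le_div_of_nonneg_right hcM hq0.le
  linarith

theorem R_B2 (h1 : st_B1) : st_B2 := by
  classical
  intro K0 q hK0 hq hG f u hf hfq hu x β η κ hx hβ hη hκ hκ1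
  have hx0 : 0 < x := by linarith
  have hL : 0 < log x := log_pos hx
  have hq0 : (0 : ℝ) < q := by exact_mod_cast hq
  have hEr := B2_Er hK0 hq
  set J : ℕ := ⌈η * log x / κ⌉₊ with hJ
  have hJ1 : 0 < J := Nat.ceil_pos.2 (by positivity)
  have hJ0 : (0 : ℝ) < J := by exact_mod_cast hJ1
  have hJu : (J : ℝ) ≤ η * log x / κ + 1 := (Nat.ceil_lt_add_one (by positivity)).le
  have hJl : η * log x / κ ≤ J := Nat.le_ceil _
  set s : ℝ := η * log x / J with hs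
  have hs0 : 0 < s := by positivity
  have hsκ : s ≤ κ := by
    rw [hs, div_le_iff₀ hJ0]
    rw [div_le_iff₀ hκ] at hJl
    linarith
  set D : ℕ → ℝ := fun j => x ^ β * exp (s * j) with hD
  have hDs : ∀ j, D (j + 1) = D j * exp s := by
    intro j
    rw [hD]
    simp only
    rw [mul_assoc, ← exp_add]
    congr 2
    push_cast
    ring
  have hD1 : ∀ j, 1 ≤ D j := by
    intro j
    exact one_le_mul_of_one_le_of_one_le (one_le_rpow hx.le hβ) (one_le_exp (by positivity))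
  have hDm : ∀ j, D j ≤ D (j + 1) := by
    intro j
    rw [hDs]
    exact le_mul_of_one_le_right (by linarith [hD1 j]) (one_le_exp hs0.le)
  have hDe : ∀ j, D (j + 1) ≤ D j * exp κ := by
    intro j
    rw [hDs]
    exact mul_le_mul_of_nonneg_left (exp_le_exp.2 hsκ) (by linarith [hD1 j])
  have hD0 : D 0 = x ^ β := by
    rw [hD]
    simp
  have hDJ : D J = x ^ (β + η) := by
    rw [hD]
    simp only
    rw [hs, div_mul_cancel₀ _ hJ0.ne', rpow_add hx0, rpow_def_of_pos hx0 η, mul_comm (log x)]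
  have ha : Monotone (fun j => ⌊D j⌋₊) :=
    monotone_nat_of_le_succ fun j => Nat.floor_le_floor (hDm j)
  have hIv : Iv x β η = Ioc ⌊D 0⌋₊ ⌊D J⌋₊ := by
    rw [hD0, hDJ]
    rfl
  have hsum := sum_le_sum fun j (_ : j ∈ range J) => B2_one h1 hq hG hf hfq hu hx hκ hκ1
    (hD1 j) (hDm j) (hDe j)
  rw [B2_part (fun j => ⌊D j⌋₊) ha, sum_sub_distrib, sum_sub_distrib, ← mul_sum,
    B2_part (fun j => ⌊D j⌋₊) ha, ← sum_div, B2_part (fun j => ⌊D j⌋₊) ha (fun _ => (1 : ℝ)),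
    ← mul_sum, sum_add_distrib, ← sum_div,
    B2_part (fun j => ⌊D j⌋₊) ha (fun _ => (1 : ℝ))] at hsum
  simp only at hsum
  rw [← hIv] at hsum
  simp only [sum_const, card_range, nsmul_eq_mul, mul_one] at hsum
  rw [B2_cprod, sum_filter]
  refine le_trans ?_ hsum
  have h2 : ((Iv x β η).card : ℝ) / q ≤ Er K0 q * (((Iv x β η).card : ℝ) / q) :=
    le_mul_of_one_le_left (by positivity) hEr
  have h3 : Er K0 q * (((Iv x β η).card : ℝ) / q + J) ≤
      Er K0 q * (((Iv x β η).card : ℝ) / q + (η * log x / κ + 1)) :=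
    mul_le_mul_of_nonneg_left (by linarith) (by linarith)
  have h4 : 0 ≤ Er K0 q * (η * log x / κ + 1) :=
    mul_nonneg (by linarith) (by positivity)
  have h5 : Er K0 q * (((Iv x β η).card : ℝ) / q + (η * log x / κ + 1)) =
      Er K0 q * (((Iv x β η).card : ℝ) / q) + Er K0 q * (η * log x / κ + 1) := by ring
  linarith

end Pool.Agent.DDD
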