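import Pool.Agent.DDD.Defs

/-! # [DDD] row B3 -/

set_option autoImplicit false

namespace Pool.Agent.DDD

open Finset Real

/-- bound for one summand -/
theorem B3_term {x α1 α2 β2 η κ ε C e1 c1 c2 : ℝ} (hx : 1 ≤ x) (hα1 : 0 ≤ α1) (hα2 : 0 ≤ α2)
    (hε : 0 < ε) (hC : 0 < C)
    (hT : ∀ n : ℕ, 1 ≤ n → (n.divisors.card : ℝ) ≤ C * (n : ℝ) ^ ε) (hc2 : 0 ≤ c2)
    (h1 : 1 + (α1 + α2 + 2 * η) * log x ≤ c1 * x ^ e1) (h2 : η * log x / κ + 1 ≤ c2 * x ^ e1)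
    (K0 a b : ℕ) (ha : a ∈ Iv x α1 η) (hb : b ∈ Iv x α2 η) :
    2 * Er K0 (a * b) * (((Iv x β2 η).card : ℝ) / ((a * b : ℕ) : ℝ) + (η * log x / κ + 1)) ≤
      2 * K0 * (C * x ^ ((α1 + α2 + 2 * η) * ε)) ^ 2 * (c1 * x ^ e1) ^ 2 *
        (x ^ (β2 + η) * x ^ (-((α1 + α2) / 2)) + x ^ ((α1 + α2 + 2 * η) / 2) * (c2 * x ^ e1)) := by
  have hx0 : 0 < x := by linarith
  have ha' := (mem_Iv hx0.le).1 ha
  have hb' := (mem_Iv hx0.le).1 hb
  have ha1 := one_lt_of_mem_Iv hx hα1 ha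
  have hb1 := one_lt_of_mem_Iv hx hα2 hb
  have hq1 : 1 ≤ a * b := Nat.mul_pos (by omega) (by omega)
  set q := a * b with hq
  have hq0 : (0 : ℝ) < (q : ℝ) := by exact_mod_cast hq1
  have hqc : (q : ℝ) = (a : ℝ) * b := by rw [hq]; push_cast; rfl
  have hqA : (q : ℝ) ≤ x ^ (α1 + α2 + 2 * η) := by
    rw [hqc]
    calc (a : ℝ) * b ≤ x ^ (α1 + η) * x ^ (α2 + η) :=
          mul_le_mul ha'.2 hb'.2 (by positivity) (by positivity)
      _ = x ^ (α1 + α2 + 2 * η) := by rw [← rpow_add hx0]; ring_nf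
  have hqa : x ^ (α1 + α2) ≤ (q : ℝ) := by
    rw [hqc, rpow_add hx0]
    exact mul_le_mul ha'.1.le hb'.1.le (by positivity) (by positivity)
  have hτ : (q.divisors.card : ℝ) ≤ C * x ^ ((α1 + α2 + 2 * η) * ε) := by
    refine (hT q hq1).trans (mul_le_mul_of_nonneg_left ?_ hC.le)
    rw [rpow_mul hx0.le]
    exact rpow_le_rpow hq0.le hqA hε.le
  have hs1 : sqrt (q : ℝ) ≤ x ^ ((α1 + α2 + 2 * η) / 2) := by
    have h3 : x ^ ((α1 + α2 + 2 * η) / 2) = sqrt (x ^ (α1 + α2 + 2 * η)) := by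
      rw [sqrt_eq_rpow, ← rpow_mul hx0.le]
      ring_nf
    rw [h3]
    exact sqrt_le_sqrt hqA
  have hs2 : sqrt (q : ℝ) / q ≤ x ^ (-((α1 + α2) / 2)) := by
    have h3 : sqrt (q : ℝ) / q = (sqrt (q : ℝ))⁻¹ := by
      have h4 : (q : ℝ) = sqrt (q : ℝ) * sqrt (q : ℝ) := (mul_self_sqrt hq0.le).symm
      have h5 : sqrt (q : ℝ) ≠ 0 := (sqrt_pos.2 hq0).ne'
      rw [div_eq_iff hq0.ne']
      nth_rewrite 3 [h4]
      rw [← mul_assoc, inv_mul_cancel₀ h5, one_mul]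
    rw [h3, rpow_neg hx0.le]
    have h4 : x ^ ((α1 + α2) / 2) = sqrt (x ^ (α1 + α2)) := by
      rw [sqrt_eq_rpow, ← rpow_mul hx0.le]
      ring_nf
    rw [h4]
    exact inv_anti₀ (sqrt_pos.2 (by positivity)) (sqrt_le_sqrt hqa)
  have hlog0 : 0 ≤ log (q : ℝ) := log_natCast_nonneg q
  have hlog : 1 + log (q : ℝ) ≤ c1 * x ^ e1 := by
    refine le_trans ?_ h1
    have h3 : log (q : ℝ) ≤ log (x ^ (α1 + α2 + 2 * η)) := log_le_log hq0 hqA
    rw [log_rpow hx0] at h3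
    linarith
  have hcard := card_Iv_le (x := x) (α := β2) (η := η) hx0.le
  have hL0 : 0 ≤ log x := log_nonneg hx
  have e : 2 * Er K0 q * (((Iv x β2 η).card : ℝ) / (q : ℝ) + (η * log x / κ + 1)) =
      2 * K0 * (q.divisors.card : ℝ) ^ 2 * (1 + log q) ^ 2 *
        (((Iv x β2 η).card : ℝ) * (sqrt (q : ℝ) / q) + sqrt (q : ℝ) * (η * log x / κ + 1)) := by
    unfold Er
    ring
  rw [e]
  have hR1 : ((Iv x β2 η).card : ℝ) * (sqrt (q : ℝ) / q) ≤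
      x ^ (β2 + η) * x ^ (-((α1 + α2) / 2)) :=
    mul_le_mul hcard hs2 (by positivity) (by positivity)
  have hR2 : sqrt (q : ℝ) * (η * log x / κ + 1) ≤
      x ^ ((α1 + α2 + 2 * η) / 2) * (c2 * x ^ e1) := by
    refine (mul_le_mul_of_nonneg_left h2 (sqrt_nonneg _)).trans ?_
    exact mul_le_mul_of_nonneg_right hs1 (by positivity)
  have hR0 : 0 ≤ x ^ (β2 + η) * x ^ (-((α1 + α2) / 2)) +
      x ^ ((α1 + α2 + 2 * η) / 2) * (c2 * x ^ e1) := by positivity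
  refine (mul_le_mul_of_nonneg_left (add_le_add hR1 hR2) (by positivity)).trans ?_
  refine mul_le_mul_of_nonneg_right ?_ hR0
  gcongr

theorem R_B3 (hT : st_T1) : st_B3 := by
  intro α1 α2 β1 β2 η hα1 hα2 hβ1 hβ2 hη hE2 hE1 K0 κ δ hκ hδ
  set A : ℝ := α1 + α2 + 2 * η with hA
  have hA0 : 0 < A := by positivity
  set γ : ℝ := min (1 - ((α1 + α2) / 2 + β1 + β2 + 4 * η)) (1 - (3 / 2 * A + β1 + η)) with hγ
  have hγ0 : 0 < γ := lt_min (by linarith) (by rw [hA]; linarith)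
  have hγ1 : γ ≤ 1 - ((α1 + α2) / 2 + β1 + β2 + 4 * η) := min_le_left _ _
  have hγ2 : γ ≤ 1 - (3 / 2 * A + β1 + η) := min_le_right _ _
  set ε : ℝ := γ / (4 * (A + 1)) with hε
  have hε0 : 0 < ε := by positivity
  have hAε : 2 * (A * ε) ≤ γ / 2 := by
    have h1 : A * ε * (4 * (A + 1)) = A * γ := by
      rw [hε]
      field_simp
    nlinarith
  obtain ⟨C, hC, hC'⟩ := hT ε hε0
  set e1 : ℝ := γ / 12 with he1
  have he0 : 0 < e1 := by positivity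
  set c1 : ℝ := 1 + A / e1 with hc1
  set c2 : ℝ := η / (κ * e1) + 1 with hc2
  have hc1' : 0 < c1 := by positivity
  have hc2' : 0 < c2 := by positivity
  set Dc : ℝ := 2 * K0 * C ^ 2 * c1 ^ 2 * (1 + c2) with hDc
  have hDc0 : 0 ≤ Dc := by positivity
  have hev := (tendsto_rpow_atTop (show 0 < γ / 4 by positivity)).eventually_ge_atTop (Dc / δ)
  obtain ⟨X1, hX1⟩ := Filter.eventually_atTop.1 hev
  refine ⟨max 1 X1, fun x hxX => ?_⟩
  have hx : 1 ≤ x := (le_max_left _ _).trans hxX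
  have hx0 : 0 < x := by linarith
  have hxD : Dc / δ ≤ x ^ (γ / 4) := hX1 x ((le_max_right _ _).trans hxX)
  have hL0 : 0 ≤ log x := log_nonneg hx
  have hL : log x ≤ x ^ e1 / e1 := log_le_rpow_div hx0.le he0
  have hxe : 1 ≤ x ^ e1 := one_le_rpow hx he0.le
  have h1 : 1 + A * log x ≤ c1 * x ^ e1 := by
    have h3 : A * log x ≤ A * (x ^ e1 / e1) := mul_le_mul_of_nonneg_left hL hA0.le
    have h4 : c1 * x ^ e1 = x ^ e1 + A * (x ^ e1 / e1) := by rw [hc1]; ring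
    linarith
  have h2 : η * log x / κ + 1 ≤ c2 * x ^ e1 := by
    have h3 : η * log x / κ ≤ η * (x ^ e1 / e1) / κ := by gcongr
    have h4 : c2 * x ^ e1 = η * (x ^ e1 / e1) / κ + x ^ e1 := by
      rw [hc2]
      field_simp
    linarith
  set T : ℝ := 2 * K0 * (C * x ^ (A * ε)) ^ 2 * (c1 * x ^ e1) ^ 2 *
        (x ^ (β2 + η) * x ^ (-((α1 + α2) / 2)) + x ^ (A / 2) * (c2 * x ^ e1)) with hTdef
  have hT0 : 0 ≤ T := by positivity
  have hterm : ∀ t ∈ Iv x α1 η ×ˢ Iv x α2 η ×ˢ Iv x β1 η,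
      2 * Er K0 (t.1 * t.2.1) * (((Iv x β2 η).card : ℝ) / ((t.1 * t.2.1 : ℕ) : ℝ) +
        (η * log x / κ + 1)) ≤ T := by
    intro t ht
    rw [mem_product, mem_product] at ht
    exact B3_term hx hα1 hα2 hε0 hC hC' hc2'.le h1 h2 K0 t.1 t.2.1 ht.1 ht.2.1
  have hsum := Finset.sum_le_card_nsmul _ _ _ hterm
  refine hsum.trans ?_
  rw [nsmul_eq_mul, card_product, card_product]
  push_cast
  have hcard : ((Iv x α1 η).card : ℝ) * (((Iv x α2 η).card : ℝ) * ((Iv x β1 η).card : ℝ)) ≤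
      x ^ (A + β1 + η) := by
    have e1' : x ^ (A + β1 + η) = x ^ (α1 + η) * (x ^ (α2 + η) * x ^ (β1 + η)) := by
      rw [← rpow_add hx0, ← rpow_add hx0, hA]
      ring_nf
    rw [e1']
    have g1 := card_Iv_le (x := x) (α := α1) (η := η) hx0.le
    have g2 := card_Iv_le (x := x) (α := α2) (η := η) hx0.le
    have g3 := card_Iv_le (x := x) (α := β1) (η := η) hx0.le
    gcongr
  refine (mul_le_mul_of_nonneg_right hcard hT0).trans ?_
  have e2 : x ^ (A + β1 + η) * T = 2 * K0 * C ^ 2 * c1 ^ 2 *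
      (x ^ ((α1 + α2) / 2 + β1 + β2 + 4 * η + 2 * (A * ε) + 2 * e1) +
        c2 * x ^ (3 / 2 * A + β1 + η + 2 * (A * ε) + 3 * e1)) := by
    have f1 : x ^ ((α1 + α2) / 2 + β1 + β2 + 4 * η + 2 * (A * ε) + 2 * e1) =
        x ^ (A + β1 + η) * (x ^ (A * ε) * x ^ (A * ε)) * (x ^ e1 * x ^ e1) *
          (x ^ (β2 + η) * x ^ (-((α1 + α2) / 2))) := by
      simp only [← rpow_add hx0]
      congr 1
      rw [hA]
      ring
    have f2 : x ^ (3 / 2 * A + β1 + η + 2 * (A * ε) + 3 * e1) =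
        x ^ (A + β1 + η) * (x ^ (A * ε) * x ^ (A * ε)) * (x ^ e1 * x ^ e1) *
          (x ^ (A / 2) * x ^ e1) := by
      simp only [← rpow_add hx0]
      congr 1
      ring
    rw [f1, f2, hTdef]
    ring
  rw [e2]
  have g1 : x ^ ((α1 + α2) / 2 + β1 + β2 + 4 * η + 2 * (A * ε) + 2 * e1) ≤ x ^ (1 - γ / 4) := by
    apply rpow_le_rpow_of_exponent_le hx
    rw [he1]
    linarith
  have g2 : x ^ (3 / 2 * A + β1 + η + 2 * (A * ε) + 3 * e1) ≤ x ^ (1 - γ / 4) := by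
    apply rpow_le_rpow_of_exponent_le hx
    rw [he1]
    linarith
  calc 2 * K0 * C ^ 2 * c1 ^ 2 *
      (x ^ ((α1 + α2) / 2 + β1 + β2 + 4 * η + 2 * (A * ε) + 2 * e1) +
        c2 * x ^ (3 / 2 * A + β1 + η + 2 * (A * ε) + 3 * e1))
      ≤ 2 * K0 * C ^ 2 * c1 ^ 2 * (x ^ (1 - γ / 4) + c2 * x ^ (1 - γ / 4)) := by gcongr
    _ = Dc * x ^ (1 - γ / 4) := by rw [hDc]; ring
    _ ≤ (δ * x ^ (γ / 4)) * x ^ (1 - γ / 4) := by
        apply mul_le_mul_of_nonneg_right _ (by positivity)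
        rw [div_le_iff₀ hδ] at hxD
        linarith
    _ = δ * x := by
        rw [mul_assoc, ← rpow_add hx0]
        have : γ / 4 + (1 - γ / 4) = 1 := by ring
        rw [this, rpow_one]

end Pool.Agent.DDD
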