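import Pool.Agent.DDD.Defs

/-! # [DDD] row B4 -/

set_option autoImplicit false

namespace Pool.Agent.DDD

open Finset Real

theorem B4_card (u : ℤ) (x α1 α2 β1 β2 η κ : ℝ) : ((HS u x α1 α2 β1 β2 η κ).card : ℝ) =
    ∑ t ∈ Iv x α1 η ×ˢ Iv x α2 η ×ˢ Iv x β1 η,
      (((Iv x β2 η ×ˢ range (⌊x⌋₊ + 1)).filter fun s =>
        ((t.1 * t.2.1 : ℕ) : ℤ) ∣ ((t.2.2 * s.1 * s.2 : ℕ) : ℤ) - u ∧
        κ / 3 * x < ((t.2.2 * s.1 * s.2 : ℕ) : ℝ) ∧
        ((t.2.2 * s.1 * s.2 : ℕ) : ℝ) ≤ x).card : ℝ) := by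
  unfold HS
  simp only [card_filter, sum_product, Nat.cast_sum]

open scoped Classical in
theorem B4_main (K0 : ℕ) (A B C D : Finset ℕ) :
    ∑ t ∈ (A ×ˢ B ×ˢ C ×ˢ D).filter
      (fun t => Nat.Coprime (t.1 * t.2.1) (t.2.2.1 * t.2.2.2) ∧ Gd K0 (t.1 * t.2.1)), wt t =
    ∑ t ∈ (A ×ˢ B ×ˢ C).filter (fun t => Nat.Coprime t.2.2 (t.1 * t.2.1) ∧ Gd K0 (t.1 * t.2.1)),
      1 / (((t.1 * t.2.1 : ℕ) : ℝ) * (t.2.2 : ℝ)) *
        ∑ d ∈ D.filter (fun d => Nat.Coprime d (t.1 * t.2.1)), (1 : ℝ) / d := by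
  simp only [sum_filter, sum_product]
  refine sum_congr rfl fun a _ => sum_congr rfl fun b _ => sum_congr rfl fun f _ => ?_
  by_cases hg : Nat.Coprime f (a * b) ∧ Gd K0 (a * b)
  · rw [if_pos hg, mul_sum]
    refine sum_congr rfl fun d _ => ?_
    by_cases hd : Nat.Coprime d (a * b)
    · have h1 : Nat.Coprime (a * b) (f * d) ∧ Gd K0 (a * b) :=
        ⟨Nat.Coprime.mul_right hg.1.symm hd.symm, hg.2⟩
      rw [if_pos h1, if_pos hd]
      unfold wt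
      push_cast
      rw [one_div, one_div, one_div, ← mul_inv]
    · have h1 : ¬ (Nat.Coprime (a * b) (f * d) ∧ Gd K0 (a * b)) := fun h =>
        hd (Nat.Coprime.coprime_mul_left_right h.1).symm
      rw [if_neg h1, if_neg hd, mul_zero]
  · rw [if_neg hg]
    refine sum_eq_zero fun d _ => ?_
    have h1 : ¬ (Nat.Coprime (a * b) (f * d) ∧ Gd K0 (a * b)) := fun h =>
      hg ⟨(Nat.Coprime.coprime_mul_right_right h.1).symm, h.2⟩
    rw [if_neg h1]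

theorem B4_err_nonneg (K0 q : ℕ) (c L : ℝ) (hc : 0 ≤ c) (hL : 0 ≤ L) :
    0 ≤ 2 * Er K0 q * (c / q + L) := by
  unfold Er
  positivity

theorem B4_g {κ : ℝ} (h0 : 0 ≤ κ) (h1 : κ ≤ 1) : 1 - 2 * κ ≤ (1 - κ) * exp (-κ) := by
  have h2 : 1 - κ ≤ exp (-κ) := one_sub_le_exp_neg κ
  nlinarith [mul_le_mul_of_nonneg_left h2 (sub_nonneg.2 h1), sq_nonneg κ]

theorem R_B4 (hP : st_P1) (h2 : st_B2) (h3 : st_B3) (h6 : st_M6) : st_B4 := by
  classical
  intro α1 α2 β1 β2 η hα1 hα2 hβ1 hβ2 hη hE2 hE1 δ hδ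
  have hPP1 : PP ≤ 1 := by
    have h := hP.2.2 0
    have h0 : Nat.primesBelow 0 = ∅ := by decide
    rw [h0, prod_empty] at h
    exact h
  rcases le_or_gt (PP - δ) 0 with hneg | hpos
  · refine ⟨1, one_pos, le_rfl, 0, fun x hx u _ => ?_⟩
    have h4 : 0 ≤ (η * log x) ^ 4 := by positivity
    have h5 : (PP - δ) * (η * log x) ^ 4 * x ≤ 0 :=
      mul_nonpos_of_nonpos_of_nonneg (mul_nonpos_of_nonpos_of_nonneg hneg h4) hx
    exact h5.trans (Nat.cast_nonneg _)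
  · set κ : ℝ := min 1 (δ / 8) with hκ
    have hκ0 : 0 < κ := lt_min one_pos (by positivity)
    have hκ1 : κ ≤ 1 := min_le_left _ _
    have hκδ : κ ≤ δ / 8 := min_le_right _ _
    refine ⟨κ, hκ0, hκ1, ?_⟩
    obtain ⟨K0, hK0, X1, hX1⟩ := h6 α1 α2 β1 β2 η hα1 hα2 hβ1 hβ2 hη (δ / 2) (by positivity)
    obtain ⟨X2, hX2⟩ := h3 α1 α2 β1 β2 η hα1 hα2 hβ1 hβ2 hη hE2 hE1 K0 κ (δ / 4) hκ0
      (by positivity)
    refine ⟨max (max X1 X2) (exp (1 / η)), fun x hx u hu => ?_⟩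
    have hx1 := hX1 x (((le_max_left _ _).trans (le_max_left _ _)).trans hx)
    have hx2 := hX2 x (((le_max_right _ _).trans (le_max_left _ _)).trans hx)
    have hx3 : exp (1 / η) ≤ x := (le_max_right _ _).trans hx
    have hxe : 1 < x := lt_of_lt_of_le (one_lt_exp_iff.2 (by positivity)) hx3
    have hx0 : 0 < x := by linarith
    have hL : 1 / η ≤ log x := by
      rw [le_log_iff_exp_le hx0]
      exact hx3
    have hηL : 1 ≤ η * log x := by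
      rw [div_le_iff₀ hη] at hL
      linarith
    have hηL4 : 1 ≤ (η * log x) ^ 4 := one_le_pow₀ hηL
    set g : ℝ := (1 - κ) * exp (-κ) with hg
    have hg1 : 1 - δ / 4 ≤ g := by
      have := B4_g hκ0.le hκ1
      linarith
    have hg0 : 0 ≤ g := mul_nonneg (by linarith) (exp_pos _).le
    -- the error terms
    set Er' : ℕ × ℕ × ℕ → ℝ := fun t => 2 * Er K0 (t.1 * t.2.1) *
      (((Iv x β2 η).card : ℝ) / ((t.1 * t.2.1 : ℕ) : ℝ) + (η * log x / κ + 1)) with hEr'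
    have hEr0 : ∀ t, 0 ≤ Er' t := fun t =>
      B4_err_nonneg K0 _ _ _ (Nat.cast_nonneg _) (by positivity)
    have hM : ∑ t ∈ (Iv x α1 η ×ˢ Iv x α2 η ×ˢ Iv x β1 η).filter
        (fun t => Nat.Coprime t.2.2 (t.1 * t.2.1) ∧ Gd K0 (t.1 * t.2.1)),
        (g * x * (1 / (((t.1 * t.2.1 : ℕ) : ℝ) * (t.2.2 : ℝ)) *
          ∑ d ∈ (Iv x β2 η).filter (fun d => Nat.Coprime d (t.1 * t.2.1)), (1 : ℝ) / d) - Er' t) ≤
        ((HS u x α1 α2 β1 β2 η κ).card : ℝ) := by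
      rw [B4_card]
      refine le_trans ?_ (sum_le_sum_of_subset_of_nonneg
        (filter_subset (fun t => Nat.Coprime t.2.2 (t.1 * t.2.1) ∧ Gd K0 (t.1 * t.2.1)) _)
        (fun _ _ _ => Nat.cast_nonneg _))
      refine sum_le_sum fun t ht => ?_
      rw [mem_filter, mem_product, mem_product] at ht
      obtain ⟨⟨ha, hb, hf⟩, hcop, hgd⟩ := ht
      have ha1 := one_lt_of_mem_Iv hxe.le hα1 ha
      have hb1 := one_lt_of_mem_Iv hxe.le hα2 hb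
      have hf1 := one_lt_of_mem_Iv hxe.le hβ1 hf
      have hq1 : 1 ≤ t.1 * t.2.1 := Nat.mul_pos (by omega) (by omega)
      have hB := h2 K0 (t.1 * t.2.1) hK0 hq1 hgd t.2.2 u hf1.le hcop hu x β2 η κ hxe hβ2 hη hκ0 hκ1
      refine le_trans (le_of_eq ?_) hB
      rw [hEr']
      ring
    refine le_trans ?_ hM
    rw [sum_sub_distrib, ← mul_sum, ← B4_main]
    have hErr : ∑ t ∈ (Iv x α1 η ×ˢ Iv x α2 η ×ˢ Iv x β1 η).filter
        (fun t => Nat.Coprime t.2.2 (t.1 * t.2.1) ∧ Gd K0 (t.1 * t.2.1)), Er' t ≤ δ / 4 * x :=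
      (sum_le_sum_of_subset_of_nonneg (filter_subset _ _) (fun t _ _ => hEr0 t)).trans hx2
    have hmain : (PP - δ / 2) * (η * log x) ^ 4 ≤
        ∑ t ∈ (Iv x α1 η ×ˢ Iv x α2 η ×ˢ Iv x β1 η ×ˢ Iv x β2 η).filter
          (fun t => Nat.Coprime (t.1 * t.2.1) (t.2.2.1 * t.2.2.2) ∧ Gd K0 (t.1 * t.2.1)), wt t := by
      refine hx1.trans (le_of_eq ?_)
      refine sum_congr ?_ fun _ _ => rfl
      ext t
      simp only [mem_filter, Bx]
    have h7 : g * x * ((PP - δ / 2) * (η * log x) ^ 4) ≤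
        g * x * ∑ t ∈ (Iv x α1 η ×ˢ Iv x α2 η ×ˢ Iv x β1 η ×ˢ Iv x β2 η).filter
          (fun t => Nat.Coprime (t.1 * t.2.1) (t.2.2.1 * t.2.2.2) ∧ Gd K0 (t.1 * t.2.1)), wt t :=
      mul_le_mul_of_nonneg_left hmain (by positivity)
    have h8 : PP - 3 * δ / 4 ≤ g * (PP - δ / 2) := by
      have h9 : 0 ≤ PP - δ / 2 := by linarith
      have h10 : PP - δ / 2 ≤ 1 := by linarith
      nlinarith [mul_nonneg (sub_nonneg.2 hg1) h9]
    have h11 : (PP - 3 * δ / 4) * ((η * log x) ^ 4 * x) ≤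
        (g * (PP - δ / 2)) * ((η * log x) ^ 4 * x) :=
      mul_le_mul_of_nonneg_right h8 (by positivity)
    have h12 : δ / 4 * x ≤ δ / 4 * ((η * log x) ^ 4 * x) := by
      apply mul_le_mul_of_nonneg_left _ (by positivity)
      nlinarith
    have h13 : (PP - δ) * (η * log x) ^ 4 * x =
        (PP - 3 * δ / 4) * ((η * log x) ^ 4 * x) - δ / 4 * ((η * log x) ^ 4 * x) := by ring
    have h14 : (g * (PP - δ / 2)) * ((η * log x) ^ 4 * x) =
        g * x * ((PP - δ / 2) * (η * log x) ^ 4) := by ring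
    linarith

end Pool.Agent.DDD
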