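import Pool.Agent.DDD.Defs2

/-!
# [DDD] row F: the final assembly
-/

set_option autoImplicit false

namespace Pool.Agent.DDD

open Finset Real

/-- the hypotheses of the rows B4, A1, A2 for a good cube -/
theorem F2_num {N i1 i2 j1 j2 : ℕ} (hN : 30 ≤ N) (h1 : i1 + 1 ≤ i2) (h2 : i1 + 2 * i2 + 3 < N)
    (h3 : j1 + 1 ≤ j2) (h4 : j1 + 2 * j2 + 3 < N) :
    (0 : ℝ) ≤ (i1 : ℝ) / N ∧ (0 : ℝ) ≤ (i2 : ℝ) / N ∧ (0 : ℝ) ≤ (j1 : ℝ) / N ∧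
    (0 : ℝ) ≤ (j2 : ℝ) / N ∧ (0 : ℝ) < 1 / N ∧
    (i1 : ℝ) / N + 1 / N ≤ (i2 : ℝ) / N ∧ (j1 : ℝ) / N + 1 / N ≤ (j2 : ℝ) / N ∧
    (i1 : ℝ) / N + 2 * ((i2 : ℝ) / N) + 3 * (1 / N) < 1 ∧
    (j1 : ℝ) / N + 2 * ((j2 : ℝ) / N) + 3 * (1 / N) < 1 ∧
    (3 * (i1 + i2 + 2) + 2 * (j1 + 1) < 2 * N →
      3 / 2 * ((i1 : ℝ) / N + (i2 : ℝ) / N + 2 * (1 / N)) + (j1 : ℝ) / N + 1 / N < 1 ∧
      ((i1 : ℝ) / N + (i2 : ℝ) / N) / 2 + (j1 : ℝ) / N + (j2 : ℝ) / N + 4 * (1 / N) < 1) := by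
  have hN0 : (0 : ℝ) < N := by
    have : 0 < N := by omega
    exact_mod_cast this
  have g1 : (i1 : ℝ) + 1 ≤ i2 := by exact_mod_cast h1
  have g2 : (i1 : ℝ) + 2 * i2 + 3 < N := by exact_mod_cast h2
  have g3 : (j1 : ℝ) + 1 ≤ j2 := by exact_mod_cast h3
  have g4 : (j1 : ℝ) + 2 * j2 + 3 < N := by exact_mod_cast h4
  have g5 : (30 : ℝ) ≤ N := by exact_mod_cast hN
  refine ⟨by positivity, by positivity, by positivity, by positivity, by positivity, ?_, ?_, ?_,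
    ?_, ?_⟩
  · rw [← add_div]
    exact div_le_div_of_nonneg_right g1 hN0.le
  · rw [← add_div]
    exact div_le_div_of_nonneg_right g3 hN0.le
  · have e : (i1 : ℝ) / N + 2 * ((i2 : ℝ) / N) + 3 * (1 / N) = ((i1 : ℝ) + 2 * i2 + 3) / N := by
      ring
    rw [e, div_lt_one hN0]
    exact g2
  · have e : (j1 : ℝ) / N + 2 * ((j2 : ℝ) / N) + 3 * (1 / N) = ((j1 : ℝ) + 2 * j2 + 3) / N := by
      ring
    rw [e, div_lt_one hN0]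
    exact g4
  · intro h5
    have g6 : (3 : ℝ) * (i1 + i2 + 2) + 2 * (j1 + 1) < 2 * N := by exact_mod_cast h5
    constructor
    · have e : 3 / 2 * ((i1 : ℝ) / N + (i2 : ℝ) / N + 2 * (1 / N)) + (j1 : ℝ) / N + 1 / N =
          (3 / 2 * ((i1 : ℝ) + i2 + 2) + j1 + 1) / N := by ring
      rw [e, div_lt_one hN0]
      linarith
    · have e : ((i1 : ℝ) / N + (i2 : ℝ) / N) / 2 + (j1 : ℝ) / N + (j2 : ℝ) / N + 4 * (1 / N) =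
          (((i1 : ℝ) + i2) / 2 + j1 + j2 + 4) / N := by ring
      rw [e, div_lt_one hN0]
      linarith

/-- one good cube -/
theorem F2_cube (hB : st_B4) (hA1 : st_A1) (hA2 : st_A2) {N : ℕ} (hN : 30 ≤ N) {δ : ℝ} (hδ : 0 < δ)
    (g : ℕ × ℕ × ℕ × ℕ) (hg : g ∈ GG N) : ∀ᶠ x : ℝ in Filter.atTop,
    (PP - δ) * (1 / N * log x) ^ 4 * x ≤
      ((TB x ((g.1 : ℝ) / N) ((g.2.1 : ℝ) / N) ((g.2.2.1 : ℝ) / N) ((g.2.2.2 : ℝ) / N)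
        (1 / N)).card : ℝ) := by
  obtain ⟨i1, i2, j1, j2⟩ := g
  unfold GG at hg
  rw [mem_filter] at hg
  obtain ⟨-, h1, h2, h3, h4, h5⟩ := hg
  obtain ⟨a1, a2, a3, a4, a5, a6, a7, a8, a9, a10⟩ := F2_num hN h1 h2 h3 h4
  obtain ⟨b1, b2, b3, b4, b5, b6, b7, b8, b9, b10⟩ := F2_num hN h3 h4 h1 h2
  show ∀ᶠ x : ℝ in Filter.atTop, (PP - δ) * (1 / N * log x) ^ 4 * x ≤
    ((TB x ((i1 : ℝ) / N) ((i2 : ℝ) / N) ((j1 : ℝ) / N) ((j2 : ℝ) / N) (1 / N)).card : ℝ)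
  rcases h5 with h5 | h5
  · obtain ⟨c1, c2⟩ := a10 h5
    obtain ⟨κ, hκ, -, X0, hX0⟩ := hB _ _ _ _ _ a1 a2 a3 a4 a5 c1 c2 δ hδ
    obtain ⟨X1, hX1⟩ := hA1 _ _ _ _ _ κ a1 a3 a5 a6 a7 a8 a9 hκ
    filter_upwards [Filter.eventually_ge_atTop X0, Filter.eventually_ge_atTop X1] with x hx0 hx1
    exact (hX0 x hx0 1 (Or.inl rfl)).trans (Nat.cast_le.2 (hX1 x hx1))
  · obtain ⟨c1, c2⟩ := b10 h5
    obtain ⟨κ, hκ, -, X0, hX0⟩ := hB _ _ _ _ _ b1 b2 b3 b4 b5 c1 c2 δ hδ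
    obtain ⟨X1, hX1⟩ := hA2 _ _ _ _ _ κ a1 a3 a5 a6 a7 a8 a9 hκ
    filter_upwards [Filter.eventually_ge_atTop X0, Filter.eventually_ge_atTop X1] with x hx0 hx1
    exact (hX0 x hx0 (-1) (Or.inr rfl)).trans (Nat.cast_le.2 (hX1 x hx1))

theorem R_F2 (hP : st_P1) (hB : st_B4) (hA1 : st_A1) (hA2 : st_A2) (hS1 : st_S1) (hS2 : st_S2)
    (hG : st_X3) : st_F2 := by
  obtain ⟨hP0, hPm, -⟩ := hP
  refine ⟨hPm, hP0, fun κ hκ => ?_⟩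
  obtain ⟨κ0, hκ0d⟩ : ∃ κ0 : ℝ, κ0 = max κ 0 := ⟨_, rfl⟩
  have hκ0 : 0 ≤ κ0 := by rw [hκ0d]; exact le_max_right _ _
  have hκκ0 : κ ≤ κ0 := by rw [hκ0d]; exact le_max_left _ _
  have hκ0' : κ0 < 547 / 567 := by rw [hκ0d]; exact max_lt hκ (by norm_num)
  obtain ⟨κ1, hκ1d⟩ : ∃ κ1 : ℝ, κ1 = (κ0 + 547 / 567) / 2 := ⟨_, rfl⟩
  have hk01 : κ0 < κ1 := by rw [hκ1d]; linarith
  have hk1 : κ1 < 547 / 567 := by rw [hκ1d]; linarith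
  have hk1pos : 0 < κ1 := by linarith
  obtain ⟨N, hN, hNG⟩ := hG (547 / 567 - κ1) (by linarith)
  have hN0 : (0 : ℝ) < N := by
    have : 0 < N := by omega
    exact_mod_cast this
  obtain ⟨δ, hδd⟩ : ∃ δ : ℝ, δ = PP * (1 - κ0 / κ1) := ⟨_, rfl⟩
  have hδ : 0 < δ := by
    rw [hδd]
    apply mul_pos hP0
    have : κ0 / κ1 < 1 := by rw [div_lt_one hk1pos]; exact hk01
    linarith
  have hPδ : κ1 * (PP - δ) = κ0 * PP := by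
    rw [hδd]
    field_simp
    ring
  have hPδ0 : 0 ≤ PP - δ := by
    rw [hδd]
    have : 0 ≤ PP * (κ0 / κ1) := by positivity
    linarith
  have hall : ∀ᶠ x : ℝ in Filter.atTop, ∀ g ∈ GG N, (PP - δ) * (1 / N * log x) ^ 4 * x ≤
      ((TB x ((g.1 : ℝ) / N) ((g.2.1 : ℝ) / N) ((g.2.2.1 : ℝ) / N) ((g.2.2.2 : ℝ) / N)
        (1 / N)).card : ℝ) :=
    (Filter.eventually_all_finset (GG N)).2 fun g hg => F2_cube hB hA1 hA2 hN hδ g hg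
  obtain ⟨X0, hX0⟩ := Filter.eventually_atTop.1 (hall.and (Filter.eventually_ge_atTop 1))
  refine ⟨X0, fun x hx => ?_⟩
  obtain ⟨h1, hx1⟩ := hX0 x hx
  have h2 : ((GG N).card : ℝ) * ((PP - δ) * (1 / N * log x) ^ 4 * x) ≤
      ((Tset x).card : ℝ) := by
    have h3 : ∑ _g ∈ GG N, (PP - δ) * (1 / N * log x) ^ 4 * x ≤
        ∑ g ∈ GG N, ((TB x ((g.1 : ℝ) / N) ((g.2.1 : ℝ) / N) ((g.2.2.1 : ℝ) / N)
          ((g.2.2.2 : ℝ) / N) (1 / N)).card : ℝ) := sum_le_sum h1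
    rw [sum_const, nsmul_eq_mul] at h3
    refine h3.trans ?_
    have h4 := hS2 N (by omega) (GG N) x hx1
    exact_mod_cast h4
  have h5 := hS1 x hx1
  have hx0 : 0 < x := by linarith
  have hL : 0 ≤ log x ^ 4 := by positivity
  have h6 : κ1 / 4 * (PP - δ) * log x ^ 4 * x ≤ 36 * ((Tset x).card : ℝ) := by
    have h7 : κ1 / 4 ≤ 36 * ((GG N).card : ℝ) / (N : ℝ) ^ 4 := by
      rw [le_div_iff₀ (by positivity)]
      linarith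
    have h8 : 0 ≤ (PP - δ) * log x ^ 4 * x := mul_nonneg (mul_nonneg hPδ0 hL) hx0.le
    have h9 := mul_le_mul_of_nonneg_right h7 h8
    calc κ1 / 4 * (PP - δ) * log x ^ 4 * x =
        κ1 / 4 * ((PP - δ) * log x ^ 4 * x) := by ring
      _ ≤ 36 * ((GG N).card : ℝ) / (N : ℝ) ^ 4 * ((PP - δ) * log x ^ 4 * x) := h9
      _ = 36 * (((GG N).card : ℝ) * ((PP - δ) * (1 / N * log x) ^ 4 * x)) := by
        rw [mul_pow, div_pow, one_pow]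
        ring
      _ ≤ 36 * ((Tset x).card : ℝ) := by linarith
  have h10 : 0 ≤ PP * log x ^ 4 * x := mul_nonneg (mul_nonneg hP0.le hL) hx0.le
  calc κ * ((1 / 4) * PP) * x * (log x) ^ 4 = κ / 4 * (PP * log x ^ 4 * x) := by ring
    _ ≤ κ0 / 4 * (PP * log x ^ 4 * x) := by
      refine mul_le_mul_of_nonneg_right ?_ h10
      linarith
    _ = κ0 * PP / 4 * (log x ^ 4 * x) := by ring
    _ = κ1 * (PP - δ) / 4 * (log x ^ 4 * x) := by rw [hPδ]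
    _ = κ1 / 4 * (PP - δ) * log x ^ 4 * x := by ring
    _ ≤ 36 * ((Tset x).card : ℝ) := h6
    _ ≤ S x := h5

end Pool.Agent.DDD
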