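import Pool.Agent.DDD.Defs

set_option autoImplicit false

namespace Pool.Agent.DDD

open Finset Real

theorem G1_sum (M : ℕ) : ∀ h : ℕ, 3 * h ≤ M →
    2 * ∑ i ∈ range (h + 1), (M - 3 * i) + 3 * h * (h + 1) = 2 * M * (h + 1) := by
  intro h
  induction h with
  | zero =>
    intro _
    simp
  | succ h ih =>
    intro hM
    have h1 := ih (by omega)
    rw [Finset.sum_range_succ]
    obtain ⟨c, hc⟩ : ∃ c, M = 3 * (h + 1) + c := ⟨M - 3 * (h + 1), by omega⟩
    have h2 : M - 3 * (h + 1) = c := by omega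
    rw [h2]
    have h3 : 2 * (∑ i ∈ range (h + 1), (M - 3 * i) + c) + 3 * (h + 1) * (h + 1 + 1) =
        (2 * ∑ i ∈ range (h + 1), (M - 3 * i) + 3 * h * (h + 1)) + 2 * c + 6 * (h + 1) := by ring
    rw [h3, h1]
    have h4 : 2 * M * (h + 1 + 1) = 2 * M * (h + 1) + 2 * M := by ring
    rw [h4]
    omega

theorem R_G1 : st_G1 := by
  intro N hN
  obtain ⟨M, rfl⟩ : ∃ M, N = M + 5 := ⟨N - 5, by omega⟩
  set H := M / 3 with hH
  have hsub : ((range (H + 1)).sigma (fun i => Icc (i + 1) ((M + 1 - i) / 2))).card ≤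
      (Tp (M + 5)).card := by
    refine Finset.card_le_card_of_injOn (fun s => (s.1, s.2)) ?_ ?_
    · intro s hs
      rw [Finset.mem_coe, Finset.mem_sigma, Finset.mem_range, Finset.mem_Icc] at hs
      obtain ⟨h1, h2, h3⟩ := hs
      unfold Tp
      rw [Finset.mem_coe, Finset.mem_filter, Finset.mem_product, Finset.mem_range, Finset.mem_range]
      dsimp only
      refine ⟨⟨?_, ?_⟩, ?_, ?_⟩ <;> omega
    · rintro ⟨a, b⟩ _ ⟨c, d⟩ _ h
      dsimp only at h
      rw [Prod.mk.injEq] at h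
      obtain ⟨rfl, rfl⟩ := h
      rfl
  rw [Finset.card_sigma] at hsub
  have h1 : ∑ i ∈ range (H + 1), (M - 3 * i) ≤
      2 * ∑ i ∈ range (H + 1), (Icc (i + 1) ((M + 1 - i) / 2)).card := by
    rw [Finset.mul_sum]
    refine Finset.sum_le_sum fun i hi => ?_
    rw [Finset.mem_range] at hi
    rw [Nat.card_Icc]
    omega
  have h2 := G1_sum M H (by omega)
  have h3 : (M + 5 - 5) ^ 2 = M ^ 2 := by simp
  rw [h3]
  obtain ⟨r, hr⟩ : ∃ r, M = 3 * H + r := ⟨M - 3 * H, by omega⟩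
  have hr3 : r ≤ 2 := by omega
  generalize ∑ i ∈ range (H + 1), (M - 3 * i) = s at h1 h2
  generalize ∑ i ∈ range (H + 1), (Icc (i + 1) ((M + 1 - i) / 2)).card = c at h1 hsub
  have h4 : 6 * s ≤ 12 * (Tp (M + 5)).card := by omega
  refine le_trans ?_ h4
  have h5 : 6 * s + 9 * H * (H + 1) = 6 * M * (H + 1) := by linarith
  clear_value H
  subst hr
  have h6 : r ^ 2 ≤ 6 * r := by nlinarith
  nlinarith

end Pool.Agent.DDD
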