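import Pool.Agent.DDD.Defs

set_option autoImplicit false

namespace Pool.Agent.DDD

open Finset Real

/-- the possible second coordinates -/
def G2_V (N i j : ℕ) : Finset ℕ :=
  (range N).filter fun k => i + 1 ≤ k ∧ i + 2 * k + 3 < N ∧ 2 * N ≤ 3 * (i + k + 2) + 2 * (j + 1)

theorem G2_V_le (K M i j : ℕ) :
    6 * (G2_V (K * M) i j).card ≤ M * U6 K (i / M) (j / M) := by
  rcases Nat.eq_zero_or_pos M with hM | hM
  · subst hM
    simp [G2_V]
  have hsub : G2_V (K * M) i j ⊆ Icc (max (i + 1) ((2 * (K * M) - 2 * (j + 1) - 3 * i - 4) / 3))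
      ((K * M - i - 4) / 2) := by
    intro k hk
    unfold G2_V at hk
    rw [mem_filter, mem_range] at hk
    rw [mem_Icc, max_le_iff]
    obtain ⟨-, h1, h2, h3⟩ := hk
    refine ⟨⟨h1, ?_⟩, ?_⟩
    · omega
    · omega
  have hc := card_le_card hsub
  rw [Nat.card_Icc] at hc
  set L := max (i + 1) ((2 * (K * M) - 2 * (j + 1) - 3 * i - 4) / 3) with hL
  set H := (K * M - i - 4) / 2 with hH
  by_cases hlt : L ≤ H
  · have hLi : i + 1 ≤ L := le_max_left _ _
    have hLj : (2 * (K * M) - 2 * (j + 1) - 3 * i - 4) / 3 ≤ L := le_max_right _ _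
    have hi1 : M * (i / M) ≤ i := Nat.mul_div_le i M
    have hi2 : i < M * (i / M) + M := by
      have := Nat.lt_mul_div_succ i hM
      rwa [mul_add, mul_one] at this
    have hj1 : M * (j / M) ≤ j := Nat.mul_div_le j M
    have hj2 : j < M * (j / M) + M := by
      have := Nat.lt_mul_div_succ j hM
      rwa [mul_add, mul_one] at this
    generalize i / M = I at hi1 hi2 ⊢
    generalize j / M = J at hj1 hj2 ⊢
    have h1 : 6 * (G2_V (K * M) i j).card ≤ 6 * (H + 1 - L) := Nat.mul_le_mul_left 6 hc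
    refine h1.trans ?_
    have hKM : K * M = M * K := mul_comm _ _
    rw [hKM] at hH hLj
    zify [(by omega : L ≤ H + 1)]
    have hX : (3 * ((K : ℤ) - I) - max (6 * (I : ℤ)) (4 * ((K : ℤ) - J - 1) - 6 * (I + 1)) + 1) ≤
        (U6 K I J : ℤ) := by
      unfold U6
      exact Int.self_le_toNat _
    have hMX := mul_le_mul_of_nonneg_left hX (by positivity : (0 : ℤ) ≤ (M : ℤ))
    refine le_trans ?_ hMX
    have e1 : (6 : ℤ) * ((H : ℤ) + 1 - L) ≤ 3 * ((M * K : ℕ) : ℤ) - 3 * i - 6 - 6 * i - 6 := by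
      omega
    have e2 : (6 : ℤ) * ((H : ℤ) + 1 - L) ≤ 3 * ((M * K : ℕ) : ℤ) - 3 * i - 6 -
        (4 * ((M * K : ℕ) : ℤ) - 4 * j - 16 - 6 * i) := by
      omega
    rcases max_cases (6 * (I : ℤ)) (4 * ((K : ℤ) - J - 1) - 6 * (I + 1)) with ⟨h, -⟩ | ⟨h, -⟩
    · rw [h]
      have : (M : ℤ) * (3 * ((K : ℤ) - I) - 6 * (I : ℤ) + 1) =
          3 * ((M * K : ℕ) : ℤ) - 9 * ((M * I : ℕ) : ℤ) + M := by push_cast; ring
      rw [this]
      omega
    · rw [h]
      have : (M : ℤ) * (3 * ((K : ℤ) - I) - (4 * ((K : ℤ) - J - 1) - 6 * (I + 1)) + 1) =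
          -((M * K : ℕ) : ℤ) + 3 * ((M * I : ℕ) : ℤ) + 4 * ((M * J : ℕ) : ℤ) + 11 * M := by
        push_cast; ring
      rw [this]
      omega
  · have : (G2_V (K * M) i j).card = 0 := by omega
    rw [this]
    exact Nat.zero_le _

theorem G2_sum (n M : ℕ) (F : ℕ → ℕ) (hM : 0 < M) :
    ∑ i ∈ range (n * M), F (i / M) = M * ∑ I ∈ range n, F I := by
  induction n with
  | zero => simp
  | succ n ih =>
    rw [Nat.succ_mul, sum_range_add, ih, sum_range_succ, mul_add]
    congr 1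
    have h : ∀ x ∈ range M, F ((n * M + x) / M) = F n := by
      intro x hx
      rw [mem_range] at hx
      rw [mul_comm n M, Nat.mul_add_div hM, Nat.div_eq_of_lt hx, add_zero]
    rw [sum_congr rfl h, sum_const, card_range, smul_eq_mul]

theorem R_G2 : st_G2 := by
  intro K M hK hM h3
  obtain ⟨k, rfl⟩ := h3
  have hM0 : 0 < M := by omega
  have hk3 : 3 * k / 3 = k := Nat.mul_div_cancel_left k (by norm_num)
  rw [hk3]
  -- fibres
  have hmap : ∀ g ∈ Bad (3 * k * M), (g.1, g.2.2.1) ∈ range (k * M) ×ˢ range (k * M) := by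
    intro g hg
    unfold Bad at hg
    rw [mem_filter] at hg
    obtain ⟨-, h1, h2, h3, h4, -, -⟩ := hg
    rw [mem_product, mem_range, mem_range]
    have e : 3 * k * M = 3 * (k * M) := by ring
    rw [e] at h2 h4
    constructor
    · show g.1 < k * M
      omega
    · show g.2.2.1 < k * M
      omega
  rw [card_eq_sum_card_fiberwise (f := fun g => (g.1, g.2.2.1)) (t := range (k * M) ×ˢ range (k * M))
    (fun g hg => hmap g hg)]
  have hfib : ∀ q ∈ range (k * M) ×ˢ range (k * M),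
      ((Bad (3 * k * M)).filter fun g => (g.1, g.2.2.1) = q).card ≤
        (G2_V (3 * k * M) q.1 q.2).card * (G2_V (3 * k * M) q.2 q.1).card := by
    intro q _
    rw [← card_product]
    refine card_le_card_of_injOn (fun g => (g.2.1, g.2.2.2)) ?_ ?_
    · intro g hg
      rw [mem_coe, mem_filter] at hg
      obtain ⟨hg, rfl⟩ := hg
      unfold Bad at hg
      rw [mem_filter] at hg
      obtain ⟨hr, h1, h2, h3, h4, h5, h6⟩ := hg
      rw [mem_product, mem_product, mem_product] at hr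
      rw [mem_coe, mem_product]
      unfold G2_V
      rw [mem_filter, mem_filter]
      exact ⟨⟨hr.2.1, h1, h2, h5⟩, ⟨hr.2.2.2, h3, h4, h6⟩⟩
    · intro g hg g' hg' h
      rw [mem_coe, mem_filter] at hg hg'
      have e1 : (g.1, g.2.2.1) = (g'.1, g'.2.2.1) := hg.2.trans hg'.2.symm
      have e2 : (g.2.1, g.2.2.2) = (g'.2.1, g'.2.2.2) := h
      rw [Prod.mk.injEq] at e1 e2
      exact Prod.ext e1.1 (Prod.ext e2.1 (Prod.ext e1.2 e2.2))
  calc 36 * ∑ q ∈ range (k * M) ×ˢ range (k * M),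
        ((Bad (3 * k * M)).filter fun g => (g.1, g.2.2.1) = q).card
      ≤ 36 * ∑ q ∈ range (k * M) ×ˢ range (k * M),
        (G2_V (3 * k * M) q.1 q.2).card * (G2_V (3 * k * M) q.2 q.1).card :=
        Nat.mul_le_mul_left _ (sum_le_sum hfib)
    _ = ∑ q ∈ range (k * M) ×ˢ range (k * M),
        (6 * (G2_V (3 * k * M) q.1 q.2).card) * (6 * (G2_V (3 * k * M) q.2 q.1).card) := by
        rw [mul_sum]
        refine sum_congr rfl fun q _ => ?_
        ring
    _ ≤ ∑ q ∈ range (k * M) ×ˢ range (k * M),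
        (M * U6 (3 * k) (q.1 / M) (q.2 / M)) * (M * U6 (3 * k) (q.2 / M) (q.1 / M)) :=
        sum_le_sum fun q _ => Nat.mul_le_mul (G2_V_le _ _ _ _) (G2_V_le _ _ _ _)
    _ = ∑ i ∈ range (k * M), ∑ j ∈ range (k * M),
        M ^ 2 * (U6 (3 * k) (i / M) (j / M) * U6 (3 * k) (j / M) (i / M)) := by
        rw [sum_product]
        refine sum_congr rfl fun i _ => sum_congr rfl fun j _ => ?_
        ring
    _ = ∑ i ∈ range (k * M), (fun I => M ^ 3 * ∑ J ∈ range k,
        (U6 (3 * k) I J * U6 (3 * k) J I)) (i / M) := by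
        refine sum_congr rfl fun i _ => ?_
        have := G2_sum k M (fun J => M ^ 2 * (U6 (3 * k) (i / M) J * U6 (3 * k) J (i / M))) hM0
        rw [this]
        show _ = M ^ 3 * ∑ J ∈ range k, (U6 (3 * k) (i / M) J * U6 (3 * k) J (i / M))
        rw [← mul_sum]
        ring
    _ = M ^ 4 * ∑ I ∈ range k, ∑ J ∈ range k, U6 (3 * k) I J * U6 (3 * k) J I := by
        rw [G2_sum k M (fun I => M ^ 3 * ∑ J ∈ range k,
          (U6 (3 * k) I J * U6 (3 * k) J I)) hM0]
        show M * ∑ I ∈ range k, (M ^ 3 * ∑ J ∈ range k, (U6 (3 * k) I J * U6 (3 * k) J I)) = _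
        rw [← mul_sum]
        ring

end Pool.Agent.DDD
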