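import Pool.Agent.DDD.Defs
import Pool.Agent.KLW.E

set_option autoImplicit false

open Finset Real

namespace Pool.Agent.DDD

theorem K2_kl (p : ℕ) [NeZero p] [Fact p.Prime] (a b : ZMod p) : kq p a b = Pool.Agent.MP_2f88e5_nt.kl p a b := by
  unfold kq Pool.Agent.MP_2f88e5_nt.kl
  rfl

theorem R_K2 : st_K2 := by
  intro p _ hp m n
  have : Fact p.Prime := ⟨hp⟩
  have hp0 : (0 : ℝ) ≤ (p : ℝ) := Nat.cast_nonneg p
  by_cases h : ((m : ZMod p) = 0 ∧ (n : ZMod p) = 0)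
  · have h1 : ‖kq p (m : ZMod p) (n : ZMod p)‖ ≤ (p : ℝ) := by
      unfold kq
      refine (norm_sum_le _ _).trans ?_
      have h2 : ∀ u ∈ (univ : Finset (ZMod p)ˣ),
          ‖(ZMod.stdAddChar ((m : ZMod p) * (u : ZMod p) + (n : ZMod p) * ((u⁻¹ : (ZMod p)ˣ) : ZMod p)) : ℂ)‖ ≤ 1 :=
        fun u _ => (AddChar.norm_apply _ _).le
      refine (sum_le_sum h2).trans ?_
      rw [sum_const, nsmul_eq_mul, mul_one, card_univ, ZMod.card_units_eq_totient]
      exact_mod_cast Nat.totient_le p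
    have h3 : (p : ℤ) ∣ n := (ZMod.intCast_zmod_eq_zero_iff_dvd n p).1 h.2
    have h4 : Int.gcd n p = p := by
      have h4a : Int.gcd n p ∣ p := by exact_mod_cast Int.gcd_dvd_right n (p : ℤ)
      have h4b : (p : ℤ) ∣ (Int.gcd n p : ℤ) := Int.dvd_coe_gcd h3 (dvd_refl _)
      exact Nat.dvd_antisymm h4a (by exact_mod_cast h4b)
    rw [h4, Real.sqrt_mul_self hp0]
    linarith
  · rw [K2_kl]
    refine (KLW.kl_bound p h).trans ?_
    have h5 : 1 ≤ Int.gcd n p := by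
      rw [Nat.one_le_iff_ne_zero]
      intro h0
      have := (Int.gcd_eq_zero_iff.1 h0).2
      have hpp := hp.pos
      omega
    have h6 : (1 : ℝ) ≤ (Int.gcd n p : ℝ) := by exact_mod_cast h5
    refine mul_le_mul_of_nonneg_left (Real.sqrt_le_sqrt ?_) (by norm_num)
    nlinarith

end Pool.Agent.DDD
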