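import Pool.Agent.DDD.Defs

set_option autoImplicit false

namespace Pool.Agent.DDD

open Finset Real

theorem K3_norm_le (s : ℕ) [NeZero s] (a b : ZMod s) : ‖kq s a b‖ ≤ (s : ℝ) := by
  unfold kq
  refine (norm_sum_le _ _).trans ?_
  have h1 : ∀ u : (ZMod s)ˣ, ‖(ZMod.stdAddChar (a * (u : ZMod s) +
      b * ((u⁻¹ : (ZMod s)ˣ) : ZMod s)) : ℂ)‖ = 1 := fun u => AddChar.norm_apply _ _
  rw [sum_congr rfl fun u _ => h1 u, sum_const, card_univ, nsmul_eq_mul, mul_one]
  rw [ZMod.card_units_eq_totient]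
  exact_mod_cast Nat.totient_le s

theorem K3_gcd {n w : ℤ} {r s : ℕ} (h : (r : ℤ) ∣ w * s - 1) :
    Int.gcd (n * w) r = Int.gcd n r := by
  obtain ⟨k, hk⟩ := h
  have hc : IsCoprime w (r : ℤ) := ⟨s, -k, by linear_combination hk⟩
  have hc2 : Nat.Coprime w.natAbs r := by
    have := Int.isCoprime_iff_gcd_eq_one.mp hc
    rw [Int.gcd_eq_natAbs, Int.natAbs_natCast] at this
    exact this
  rw [Int.gcd_eq_natAbs, Int.gcd_eq_natAbs, Int.natAbs_natCast, Int.natAbs_mul]
  exact Nat.Coprime.gcd_mul_right_cancel _ hc2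

theorem R_K3 (h1 : st_K1) (h2 : st_K2) : st_K3 := by
  intro r
  induction r using Nat.strong_induction_on with
  | _ r ih =>
    intro hr0 hsq m n
    by_cases hr1 : r = 1
    · subst hr1
      have e1 := K3_norm_le 1 ((m : ℤ) : ZMod 1) ((n : ℤ) : ZMod 1)
      have e2 : Int.gcd n ((1 : ℕ) : ℤ) = 1 := by simp
      rw [e2]
      simpa using e1
    · have hp := Nat.minFac_prime hr1
      obtain ⟨r', hr'⟩ := Nat.minFac_dvd r
      set p := r.minFac with hpdef
      have hr0' : r ≠ 0 := NeZero.ne r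
      have hr'0 : r' ≠ 0 := by
        intro h
        rw [h, mul_zero] at hr'
        exact hr0' hr'
      haveI : NeZero r' := ⟨hr'0⟩
      haveI : NeZero p := ⟨hp.ne_zero⟩
      have hcop : Nat.Coprime p r' := by
        rw [hr'] at hsq
        exact Nat.coprime_of_squarefree_mul hsq
      have hsq' : Squarefree r' := by
        rw [hr'] at hsq
        exact hsq.of_mul_right
      have hlt : r' < r := by
        rw [hr']
        have := hp.two_le
        have h3 : 0 < r' := Nat.pos_of_ne_zero hr'0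
        nlinarith
      obtain ⟨u, v, huv⟩ := Nat.isCoprime_iff_coprime.mpr hcop
      have hv : (p : ℤ) ∣ v * (r' : ℤ) - 1 := ⟨-u, by linear_combination huv⟩
      have hu : (r' : ℤ) ∣ u * (p : ℤ) - 1 := ⟨-v, by linear_combination huv⟩
      rw [h1 r p r' hr' hcop v u hv hu m n, norm_mul]
      have e1 := h2 p hp (m * v) (n * v)
      have e2 := ih r' hlt hsq' (m * u) (n * u)
      rw [K3_gcd hv] at e1
      rw [K3_gcd hu] at e2
      refine (mul_le_mul e1 e2 (norm_nonneg _) (by positivity)).trans (le_of_eq ?_)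
      have e3 : r.divisors.card = 2 * r'.divisors.card := by
        rw [hr', hcop.card_divisors_mul, hp.divisors, card_pair hp.one_lt.ne]
      have e4 : Int.gcd n (r : ℤ) = Int.gcd n (p : ℤ) * Int.gcd n (r' : ℤ) := by
        rw [Int.gcd_eq_natAbs, Int.gcd_eq_natAbs, Int.gcd_eq_natAbs, Int.natAbs_natCast,
          Int.natAbs_natCast, Int.natAbs_natCast, hr']
        exact Nat.Coprime.gcd_mul _ hcop
      rw [e3, e4]
      have e5 : (r : ℝ) = p * r' := by
        conv_lhs => rw [hr']
        push_cast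
        rfl
      rw [e5]
      push_cast
      have e6 : sqrt ((p : ℝ) * (r' : ℝ) * ((Int.gcd n p : ℝ) * (Int.gcd n r' : ℝ))) =
          sqrt ((p : ℝ) * (Int.gcd n p : ℝ)) * sqrt ((r' : ℝ) * (Int.gcd n r' : ℝ)) := by
        rw [← Real.sqrt_mul (by positivity)]
        congr 1
        ring
      rw [e6]
      ring

end Pool.Agent.DDD
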