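import Pool.Agent.DDD.Defs

set_option autoImplicit false

namespace Pool.Agent.DDD

open Finset Real

theorem K4_norm_le (s : ℕ) [NeZero s] (a b : ZMod s) : ‖kq s a b‖ ≤ (s : ℝ) := by
  unfold kq
  refine (norm_sum_le _ _).trans ?_
  have h1 : ∀ u : (ZMod s)ˣ, ‖(ZMod.stdAddChar (a * (u : ZMod s) +
      b * ((u⁻¹ : (ZMod s)ˣ) : ZMod s)) : ℂ)‖ = 1 := fun u => AddChar.norm_apply _ _
  rw [sum_congr rfl fun u _ => h1 u, sum_const, card_univ, nsmul_eq_mul, mul_one]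
  rw [ZMod.card_units_eq_totient]
  exact_mod_cast Nat.totient_le s

theorem K4_gcd {n w : ℤ} {r s : ℕ} (h : (r : ℤ) ∣ w * s - 1) :
    Int.gcd (n * w) r = Int.gcd n r := by
  obtain ⟨k, hk⟩ := h
  have hc : IsCoprime w (r : ℤ) := ⟨s, -k, by linear_combination hk⟩
  have hc2 : Nat.Coprime w.natAbs r := by
    have := Int.isCoprime_iff_gcd_eq_one.mp hc
    rw [Int.gcd_eq_natAbs, Int.natAbs_natCast] at this
    exact this
  rw [Int.gcd_eq_natAbs, Int.gcd_eq_natAbs, Int.natAbs_natCast, Int.natAbs_mul]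
  exact Nat.Coprime.gcd_mul_right_cancel _ hc2

theorem R_K4 (h1 : st_K1) (h3 : st_K3) : st_K4 := by
  intro q s r hq hqe hcop hsq m n
  subst hqe
  have hsr : s * r ≠ 0 := NeZero.ne _
  haveI : NeZero s := ⟨fun h => hsr (by rw [h, zero_mul])⟩
  haveI : NeZero r := ⟨fun h => hsr (by rw [h, mul_zero])⟩
  obtain ⟨u, v, huv⟩ := Nat.isCoprime_iff_coprime.mpr hcop
  have hv : (s : ℤ) ∣ v * (r : ℤ) - 1 := ⟨-u, by linear_combination huv⟩
  have hu : (r : ℤ) ∣ u * (s : ℤ) - 1 := ⟨-v, by linear_combination huv⟩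
  rw [h1 (s * r) s r rfl hcop v u hv hu m n, norm_mul]
  have e1 := K4_norm_le s ((m * v : ℤ) : ZMod s) ((n * v : ℤ) : ZMod s)
  have e2 := h3 r hsq (m * u) (n * u)
  rw [K4_gcd hu] at e2
  exact mul_le_mul e1 e2 (norm_nonneg _) (by positivity)

end Pool.Agent.DDD
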