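import Pool.Agent.DDD.Defs

set_option autoImplicit false

namespace Pool.Agent.DDD

open Finset Real

theorem K5_char (q : ℕ) [NeZero q] (h : ℕ) :
    (ZMod.stdAddChar (h : ZMod q) : ℂ) = Complex.exp (Complex.I * ((2 * π * h / q : ℝ) : ℂ)) := by
  have h1 := ZMod.stdAddChar_coe (N := q) (h : ℤ)
  rw [Int.cast_natCast] at h1
  rw [h1]
  congr 1
  push_cast
  ring

theorem K5_norm (q : ℕ) [NeZero q] (h : ℕ) (h0 : 0 < h) (hq : h < q) :
    4 * ((min h (q - h) : ℕ) : ℝ) / q ≤ ‖(ZMod.stdAddChar (h : ZMod q) : ℂ) - 1‖ := by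
  have hq0 : (0 : ℝ) < q := by exact_mod_cast (by omega : 0 < q)
  rw [K5_char, Complex.norm_exp_I_mul_ofReal_sub_one, norm_mul, Real.norm_eq_abs, Real.norm_eq_abs,
    abs_of_pos (by norm_num : (0 : ℝ) < 2)]
  have key : ∀ m : ℕ, 2 * m ≤ q → 2 * (m : ℝ) / q ≤ sin (π * m / q) := by
    intro m hm
    have hm' : 2 * (m : ℝ) ≤ q := by exact_mod_cast hm
    have h1 : 0 ≤ π * m / q := by positivity
    have h2 : π * m / q ≤ π / 2 := by
      rw [div_le_div_iff₀ hq0 (by norm_num)]
      nlinarith [pi_pos]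
    have h3 := mul_le_sin h1 h2
    refine le_trans (le_of_eq ?_) h3
    field_simp
  have h5 : sin (2 * π * h / q / 2) = sin (π * h / q) := by
    congr 1
    ring
  rw [h5]
  have h6 : 2 * ((min h (q - h) : ℕ) : ℝ) / q ≤ |sin (π * h / q)| := by
    refine le_trans ?_ (le_abs_self _)
    rcases le_total h (q - h) with hc | hc
    · rw [min_eq_left hc]
      exact key h (by omega)
    · rw [min_eq_right hc]
      have h7 : sin (π * h / q) = sin (π * ((q - h : ℕ) : ℝ) / q) := by
        rw [← sin_pi_sub]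
        congr 1
        rw [Nat.cast_sub hq.le]
        field_simp
      rw [h7]
      exact key (q - h) (by omega)
  calc 4 * ((min h (q - h) : ℕ) : ℝ) / q = 2 * (2 * ((min h (q - h) : ℕ) : ℝ) / q) := by ring
    _ ≤ 2 * |sin (π * h / q)| := by linarith

theorem R_K5 : st_K5 := by
  intro q _ D M h h0 hq
  have hq0 : (0 : ℝ) < q := by exact_mod_cast (by omega : 0 < q)
  have hm : 0 < min h (q - h) := by
    rw [lt_min_iff]
    omega
  have hm0 : (0 : ℝ) < ((min h (q - h) : ℕ) : ℝ) := by exact_mod_cast hm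
  set z : ℂ := (ZMod.stdAddChar (h : ZMod q) : ℂ) with hz
  have hn := K5_norm q h h0 hq
  rw [← hz] at hn
  have hpos : (0 : ℝ) < ‖z - 1‖ := lt_of_lt_of_le (by positivity) hn
  have hz1 : z ≠ 1 := by
    intro hh
    rw [hh, sub_self, norm_zero] at hpos
    exact lt_irrefl _ hpos
  have hzn : ‖z‖ = 1 := by
    rw [hz]
    exact AddChar.norm_apply _ _
  have hsum : lin q D M (h : ZMod q) = z ^ (D + 1) * ∑ i ∈ range M, z ^ i := by
    unfold lin
    have hmap : Ioc D (D + M) = (range M).image (fun i => D + 1 + i) := by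
      ext d
      simp only [mem_Ioc, mem_image, mem_range]
      constructor
      · intro hd
        exact ⟨d - (D + 1), by omega, by omega⟩
      · rintro ⟨i, hi, rfl⟩
        omega
    rw [hmap, sum_image (fun a _ b _ hab => by simpa using hab), mul_sum]
    refine sum_congr rfl fun i _ => ?_
    rw [← pow_add, hz, ← AddChar.map_nsmul_eq_pow]
    congr 1
    rw [nsmul_eq_mul]
    push_cast
    ring
  rw [hsum, norm_mul, norm_pow, hzn, one_pow, one_mul, geom_sum_eq hz1, norm_div]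
  have h8 : ‖z ^ M - 1‖ ≤ 2 := by
    calc ‖z ^ M - 1‖ ≤ ‖z ^ M‖ + ‖(1 : ℂ)‖ := norm_sub_le _ _
      _ = 2 := by
        rw [norm_pow, hzn, one_pow, norm_one]
        norm_num
  rw [div_le_div_iff₀ hpos (by positivity)]
  rw [div_le_iff₀ hq0] at hn
  nlinarith

end Pool.Agent.DDD
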