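import Pool.Agent.DDD.Defs

set_option autoImplicit false

namespace Pool.Agent.DDD

open Finset Real

theorem K6_one (q g : ℕ) (hg : 1 ≤ g) :
    ∑ h ∈ (Ioo 0 q).filter (fun h => g ∣ h), (1 : ℝ) / h ≤ (1 / g) * (1 + log q) := by
  have h1 : (Ioo 0 q).filter (fun h => g ∣ h) ⊆ (range q).image (fun k => g * (k + 1)) := by
    intro h hh
    rw [mem_filter, mem_Ioo] at hh
    obtain ⟨⟨ha, hb⟩, k, rfl⟩ := hh
    rw [mem_image]
    have hk : 0 < k := Nat.pos_of_mul_pos_left ha |> fun _ => Nat.pos_of_ne_zero (by rintro rfl; simp at ha)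
    refine ⟨k - 1, ?_, ?_⟩
    · rw [mem_range]
      have : k ≤ g * k := Nat.le_mul_of_pos_left k hg
      omega
    · congr 1
      omega
  have hg0 : (0 : ℝ) < g := by exact_mod_cast hg
  calc ∑ h ∈ (Ioo 0 q).filter (fun h => g ∣ h), (1 : ℝ) / h
      ≤ ∑ h ∈ (range q).image (fun k => g * (k + 1)), (1 : ℝ) / h :=
        sum_le_sum_of_subset_of_nonneg h1 (fun _ _ _ => by positivity)
    _ = ∑ k ∈ range q, (1 : ℝ) / ((g * (k + 1) : ℕ) : ℝ) := by
        rw [sum_image]
        intro a _ b _ hab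
        have := Nat.eq_of_mul_eq_mul_left (by omega : 0 < g) hab
        omega
    _ = (1 / g) * ((harmonic q : ℚ) : ℝ) := by
        unfold harmonic
        rw [mul_comm]
        push_cast
        rw [sum_mul]
        refine sum_congr rfl fun k _ => ?_
        field_simp
    _ ≤ (1 / g) * (1 + log q) :=
        mul_le_mul_of_nonneg_left (harmonic_le_one_add_log q) (by positivity)

theorem K6_gcd (h r : ℕ) (hr : 1 ≤ r) :
    sqrt (Nat.gcd h r : ℝ) ≤ ∑ g ∈ r.divisors, if g ∣ h then sqrt (g : ℝ) else 0 := by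
  have hm : Nat.gcd h r ∈ r.divisors := Nat.mem_divisors.2 ⟨Nat.gcd_dvd_right h r, by omega⟩
  have h1 := single_le_sum (f := fun g : ℕ => if g ∣ h then sqrt (g : ℝ) else 0) (s := r.divisors)
    (fun g _ => by
      split_ifs
      · exact sqrt_nonneg _
      · exact le_rfl) hm

  rw [if_pos (Nat.gcd_dvd_left h r)] at h1
  exact h1

theorem K6_half (q r : ℕ) (hq : 1 ≤ q) (hr : 1 ≤ r) :
    ∑ h ∈ Ioo 0 q, sqrt (Nat.gcd h r : ℝ) / h ≤ (r.divisors.card : ℝ) * (1 + log q) := by
  have hlog : 0 ≤ log (q : ℝ) := log_nonneg (by exact_mod_cast hq)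
  calc ∑ h ∈ Ioo 0 q, sqrt (Nat.gcd h r : ℝ) / h
      ≤ ∑ h ∈ Ioo 0 q, ∑ g ∈ r.divisors, (if g ∣ h then sqrt (g : ℝ) else 0) / h := by
        refine sum_le_sum fun h _ => ?_
        rw [← sum_div]
        exact div_le_div_of_nonneg_right (K6_gcd h r hr) (by positivity)
    _ = ∑ g ∈ r.divisors, ∑ h ∈ Ioo 0 q, (if g ∣ h then sqrt (g : ℝ) else 0) / h := sum_comm
    _ ≤ ∑ g ∈ r.divisors, (1 + log q) := by
        refine sum_le_sum fun g hg => ?_
        have hg1 : 1 ≤ g := Nat.pos_of_mem_divisors hg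
        have hg0 : (1 : ℝ) ≤ g := by exact_mod_cast hg1
        have h2 : ∑ h ∈ Ioo 0 q, (if g ∣ h then sqrt (g : ℝ) else 0) / h =
            sqrt (g : ℝ) * ∑ h ∈ (Ioo 0 q).filter (fun h => g ∣ h), (1 : ℝ) / h := by
          rw [mul_sum, sum_filter]
          refine sum_congr rfl fun h _ => ?_
          by_cases hd : g ∣ h
          · rw [if_pos hd, if_pos hd]
            ring
          · rw [if_neg hd, if_neg hd, zero_div]
        rw [h2]
        have h3 : sqrt (g : ℝ) ≤ g := by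
          rw [sqrt_le_left (by linarith)]
          nlinarith
        calc sqrt (g : ℝ) * ∑ h ∈ (Ioo 0 q).filter (fun h => g ∣ h), (1 : ℝ) / h
            ≤ sqrt (g : ℝ) * ((1 / g) * (1 + log q)) :=
              mul_le_mul_of_nonneg_left (K6_one q g hg1) (sqrt_nonneg _)
          _ ≤ g * ((1 / g) * (1 + log q)) :=
              mul_le_mul_of_nonneg_right h3 (by positivity)
          _ = 1 + log q := by
              field_simp
    _ = (r.divisors.card : ℝ) * (1 + log q) := by
        rw [sum_const, nsmul_eq_mul]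

theorem R_K6 : st_K6 := by
  intro q r hq hrq
  have hr : 1 ≤ r := Nat.pos_of_dvd_of_pos hrq hq
  have hsym : ∑ h ∈ Ioo 0 q, sqrt (Nat.gcd h r : ℝ) / ((q - h : ℕ) : ℝ) =
      ∑ h ∈ Ioo 0 q, sqrt (Nat.gcd h r : ℝ) / h := by
    refine sum_nbij' (fun h => q - h) (fun h => q - h) ?_ ?_ ?_ ?_ ?_
    · intro h hh
      rw [mem_Ioo] at hh ⊢
      omega
    · intro h hh
      rw [mem_Ioo] at hh ⊢
      omega
    · intro h hh
      rw [mem_Ioo] at hh
      omega
    · intro h hh
      rw [mem_Ioo] at hh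
      omega
    · intro h hh
      rw [mem_Ioo] at hh
      have hgcd : Nat.gcd (q - h) r = Nat.gcd h r := by
        obtain ⟨k, rfl⟩ := hrq
        apply Nat.dvd_antisymm
        · apply Nat.dvd_gcd _ (Nat.gcd_dvd_right _ _)
          have e : h = r * k - (r * k - h) := by omega
          rw [e]
          apply Nat.dvd_sub
          · exact (Nat.gcd_dvd_right _ _).mul_right k
          · have : r * k - (r * k - (r * k - h)) = r * k - h := by omega
            rw [this]
            exact Nat.gcd_dvd_left _ _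
        · apply Nat.dvd_gcd _ (Nat.gcd_dvd_right _ _)
          apply Nat.dvd_sub
          · exact (Nat.gcd_dvd_right _ _).mul_right k
          · exact Nat.gcd_dvd_left _ _
      rw [hgcd]
  have hK := K6_half q r hq hr
  have hq0 : (0 : ℝ) ≤ q := by positivity
  calc ∑ h ∈ Ioo 0 q, (q : ℝ) / (2 * (min h (q - h) : ℕ)) * sqrt (Nat.gcd h r : ℝ)
      ≤ ∑ h ∈ Ioo 0 q, (q / 2 * (sqrt (Nat.gcd h r : ℝ) / h) +
          q / 2 * (sqrt (Nat.gcd h r : ℝ) / ((q - h : ℕ) : ℝ))) := by
        refine sum_le_sum fun h hh => ?_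
        rw [mem_Ioo] at hh
        have ha : (0 : ℝ) < h := by exact_mod_cast hh.1
        have hb : (0 : ℝ) < ((q - h : ℕ) : ℝ) := by exact_mod_cast (by omega : 0 < q - h)
        have hs : 0 ≤ sqrt (Nat.gcd h r : ℝ) := sqrt_nonneg _
        rcases le_total h (q - h) with hc | hc
        · rw [min_eq_left hc]
          have : (q : ℝ) / (2 * (h : ℝ)) * sqrt (Nat.gcd h r : ℝ) =
            q / 2 * (sqrt (Nat.gcd h r : ℝ) / h) := by
            field_simp
          rw [this]
          have h9 : 0 ≤ q / 2 * (sqrt (Nat.gcd h r : ℝ) / ((q - h : ℕ) : ℝ)) := by positivity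
          linarith
        · rw [min_eq_right hc]
          have : (q : ℝ) / (2 * ((q - h : ℕ) : ℝ)) * sqrt (Nat.gcd h r : ℝ) =
            q / 2 * (sqrt (Nat.gcd h r : ℝ) / ((q - h : ℕ) : ℝ)) := by
            field_simp
          rw [this]
          have h9 : 0 ≤ q / 2 * (sqrt (Nat.gcd h r : ℝ) / (h : ℝ)) := by positivity
          linarith
    _ = q / 2 * ∑ h ∈ Ioo 0 q, sqrt (Nat.gcd h r : ℝ) / h +
        q / 2 * ∑ h ∈ Ioo 0 q, sqrt (Nat.gcd h r : ℝ) / ((q - h : ℕ) : ℝ) := by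
        rw [sum_add_distrib, mul_sum, mul_sum]
    _ = q * ∑ h ∈ Ioo 0 q, sqrt (Nat.gcd h r : ℝ) / h := by
        rw [hsym]
        ring
    _ ≤ q * ((r.divisors.card : ℝ) * (1 + log q)) := mul_le_mul_of_nonneg_left hK hq0
    _ = (q : ℝ) * (r.divisors.card : ℝ) * (1 + log q) := by ring

end Pool.Agent.DDD
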