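import Pool.Agent.DDD.Defs

set_option autoImplicit false

namespace Pool.Agent.DDD

open Finset Real

theorem K7_char (q : ℕ) [NeZero q] (a : ZMod q) :
    ∑ k : ZMod q, (ZMod.stdAddChar (k * a) : ℂ) = if a = 0 then (q : ℂ) else 0 := by
  have h := AddChar.sum_mulShift a (ZMod.isPrimitive_stdAddChar q)
  rw [h, ZMod.card]
  split_ifs with h0
  · rfl
  · exact Nat.cast_zero

theorem K7_zero (q : ℕ) [NeZero q] (D M : ℕ) : lin q D M 0 = M := by
  unfold lin
  simp only [zero_mul, AddChar.map_zero_eq_one, sum_const, Nat.card_Ioc, nsmul_eq_mul, mul_one]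
  congr 1
  omega

/-- completion -/
theorem K7_id (q : ℕ) [NeZero q] (n : ℤ) (D M : ℕ) :
    (q : ℂ) * ∑ d ∈ (Ioc D (D + M)).filter (fun d => Nat.Coprime d q),
      (ZMod.stdAddChar ((n : ZMod q) * (d : ZMod q)⁻¹) : ℂ) =
    ∑ k : ZMod q, lin q D M k * kq q (-k) (n : ZMod q) := by
  have h1 : ∀ k : ZMod q, lin q D M k * kq q (-k) (n : ZMod q) =
      ∑ d ∈ Ioc D (D + M), ∑ x : (ZMod q)ˣ, (ZMod.stdAddChar (k * ((d : ZMod q) - (x : ZMod q))) : ℂ) *
        ZMod.stdAddChar ((n : ZMod q) * ((x⁻¹ : (ZMod q)ˣ) : ZMod q)) := by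
    intro k
    rw [lin, kq, sum_mul_sum]
    refine sum_congr rfl fun i _ => sum_congr rfl fun x _ => ?_
    rw [← AddChar.map_add_eq_mul, ← AddChar.map_add_eq_mul]
    congr 1
    ring
  simp_rw [h1]
  rw [sum_comm, mul_sum, sum_filter]
  refine sum_congr rfl fun d _ => ?_
  rw [sum_comm]
  have h2 : ∀ x : (ZMod q)ˣ, ∑ k : ZMod q, (ZMod.stdAddChar (k * ((d : ZMod q) - (x : ZMod q))) : ℂ) *
        ZMod.stdAddChar ((n : ZMod q) * ((x⁻¹ : (ZMod q)ˣ) : ZMod q)) =
      if (d : ZMod q) = x then (q : ℂ) *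
        ZMod.stdAddChar ((n : ZMod q) * ((x⁻¹ : (ZMod q)ˣ) : ZMod q)) else 0 := by
    intro x
    rw [← sum_mul, K7_char]
    by_cases hx : (d : ZMod q) = x
    · rw [if_pos hx, if_pos (sub_eq_zero.mpr hx)]
    · rw [if_neg hx, if_neg (fun h => hx (sub_eq_zero.mp h)), zero_mul]
  rw [sum_congr rfl fun x _ => h2 x]
  by_cases h0 : Nat.Coprime d q
  · rw [if_pos h0, sum_eq_single (ZMod.unitOfCoprime d h0)]
    · rw [if_pos (ZMod.coe_unitOfCoprime d h0).symm]
      have e : (d : ZMod q) * ((ZMod.unitOfCoprime d h0)⁻¹ : (ZMod q)ˣ) = 1 := by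
        have := (ZMod.unitOfCoprime d h0).mul_inv
        rwa [ZMod.coe_unitOfCoprime] at this
      have e2 : (d : ZMod q) * (d : ZMod q)⁻¹ = 1 := ZMod.coe_mul_inv_eq_one d h0
      have e3 : (d : ZMod q)⁻¹ = ((ZMod.unitOfCoprime d h0)⁻¹ : (ZMod q)ˣ) := by
        calc (d : ZMod q)⁻¹ =
              (d : ZMod q)⁻¹ * ((d : ZMod q) * ((ZMod.unitOfCoprime d h0)⁻¹ : (ZMod q)ˣ)) := by
              rw [e, mul_one]
          _ = ((d : ZMod q) * (d : ZMod q)⁻¹) * ((ZMod.unitOfCoprime d h0)⁻¹ : (ZMod q)ˣ) := by ring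
          _ = ((ZMod.unitOfCoprime d h0)⁻¹ : (ZMod q)ˣ) := by rw [e2, one_mul]
      rw [e3]
    · intro x _ hx
      rw [if_neg]
      intro h
      apply hx
      apply Units.ext
      rw [ZMod.coe_unitOfCoprime]
      exact h.symm
    · intro h
      exact absurd (mem_univ _) h
  · rw [if_neg h0]
    symm
    apply sum_eq_zero
    intro x _
    rw [if_neg]
    intro h
    apply h0
    rw [← ZMod.isUnit_iff_coprime, h]
    exact x.isUnit

theorem R_K7 (h4 : st_K4) (h5 : st_K5) (h6 : st_K6) : st_K7 := by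
  intro q s r _ hq hcop hsq n D M
  have hq1 : 0 < q := Nat.pos_of_ne_zero (NeZero.ne q)
  have hq0 : (0 : ℝ) < q := by exact_mod_cast hq1
  set B : ℝ := (s : ℝ) * ((r.divisors.card : ℝ) * sqrt ((r : ℝ) * (Int.gcd n r : ℝ))) with hB
  have hB0 : 0 ≤ B := by positivity
  have hb : ∀ k : ZMod q, ‖kq q (-k) (n : ZMod q)‖ ≤ B := by
    intro k
    have := h4 q s r hq hcop hsq (-(k.val : ℤ)) n
    rw [Int.cast_neg, Int.cast_natCast, ZMod.natCast_zmod_val] at this
    exact this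
  have hs : ∑ k : ZMod q, ‖lin q D M k‖ ≤ M + q * (1 + log q) := by
    rw [← Finset.sum_erase_add univ _ (mem_univ (0 : ZMod q)), K7_zero, Complex.norm_natCast, add_comm]
    apply add_le_add le_rfl
    have h61 := h6 q 1 hq1 (one_dvd q)
    have h62 : ∑ k ∈ univ.erase (0 : ZMod q), ‖lin q D M k‖ ≤
        ∑ h ∈ Ioo 0 q, (q : ℝ) / (2 * (min h (q - h) : ℕ)) * sqrt (Nat.gcd h 1 : ℝ) := by
      have e : ∑ k ∈ univ.erase (0 : ZMod q), ‖lin q D M k‖ =
          ∑ h ∈ Ioo 0 q, ‖lin q D M (h : ZMod q)‖ := by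
        refine sum_nbij' (fun k => k.val) (fun h => (h : ZMod q)) ?_ ?_ ?_ ?_ ?_
        · intro k hk
          rw [mem_Ioo]
          refine ⟨?_, ZMod.val_lt k⟩
          rw [mem_erase] at hk
          exact Nat.pos_of_ne_zero (fun h => hk.1 ((ZMod.val_eq_zero k).1 h))
        · intro h hh
          rw [mem_Ioo] at hh
          rw [mem_erase]
          refine ⟨?_, mem_univ _⟩
          intro h0
          rw [ZMod.natCast_eq_zero_iff] at h0
          exact absurd (Nat.le_of_dvd hh.1 h0) (by omega)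
        · intro k _
          exact ZMod.natCast_zmod_val k
        · intro h hh
          rw [mem_Ioo] at hh
          exact ZMod.val_natCast_of_lt hh.2
        · intro k _
          rw [ZMod.natCast_zmod_val]
      rw [e]
      refine sum_le_sum fun h hh => ?_
      rw [mem_Ioo] at hh
      rw [Nat.gcd_one_right, Nat.cast_one, sqrt_one, mul_one]
      exact h5 q D M h hh.1 hh.2
    refine h62.trans (h61.trans (le_of_eq ?_))
    rw [Nat.divisors_one, card_singleton, Nat.cast_one, mul_one]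
  have hw : (q : ℝ) * ‖∑ d ∈ (Ioc D (D + M)).filter (fun d => Nat.Coprime d q),
      (ZMod.stdAddChar ((n : ZMod q) * (d : ZMod q)⁻¹) : ℂ)‖ ≤
      (q : ℝ) * (B * (M / q + 1 + log q)) := by
    have e1 : (q : ℝ) * ‖∑ d ∈ (Ioc D (D + M)).filter (fun d => Nat.Coprime d q),
      (ZMod.stdAddChar ((n : ZMod q) * (d : ZMod q)⁻¹) : ℂ)‖ =
      ‖∑ k : ZMod q, lin q D M k * kq q (-k) (n : ZMod q)‖ := by
      rw [← K7_id, norm_mul, Complex.norm_natCast]
    rw [e1]
    calc ‖∑ k : ZMod q, lin q D M k * kq q (-k) (n : ZMod q)‖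
        ≤ ∑ k : ZMod q, ‖lin q D M k‖ * B := by
          refine (norm_sum_le _ _).trans (sum_le_sum fun k _ => ?_)
          rw [norm_mul]
          exact mul_le_mul_of_nonneg_left (hb k) (norm_nonneg _)
      _ = (∑ k : ZMod q, ‖lin q D M k‖) * B := by rw [sum_mul]
      _ ≤ (M + q * (1 + log q)) * B := mul_le_mul_of_nonneg_right hs hB0
      _ = (q : ℝ) * (B * (M / q + 1 + log q)) := by
          field_simp
          ring
  exact le_of_mul_le_mul_left hw hq0

end Pool.Agent.DDD
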