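import Pool.Agent.DDD.Defs

/-!
[DDD-K8] points on the modular hyperbola `f d e = u` modulo `q`, general modulus.
-/

set_option autoImplicit false

namespace Pool.Agent.DDD

open Finset Real

theorem K8_sum_zmod (q : ℕ) [NeZero q] (F : ZMod q → ℂ) :
    ∑ h : ZMod q, F h = ∑ h ∈ range q, F (h : ZMod q) := by
  refine Finset.sum_nbij' (fun h => h.val) (fun h => (h : ZMod q)) ?_ ?_ ?_ ?_ ?_
  · intro h _
    exact Finset.mem_range.2 (ZMod.val_lt h)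
  · intro h _
    exact Finset.mem_univ _
  · intro h _
    exact ZMod.natCast_zmod_val h
  · intro h hh
    exact ZMod.val_cast_of_lt (Finset.mem_range.1 hh)
  · intro h _
    simp only [ZMod.natCast_zmod_val]

theorem K8_orth (q : ℕ) [NeZero q] (x : ZMod q) :
    ∑ h : ZMod q, (ZMod.stdAddChar (h * x) : ℂ) = if x = 0 then (q : ℂ) else 0 := by
  have h := AddChar.sum_mulShift x (ZMod.isPrimitive_stdAddChar q)
  rw [h]
  simp [ZMod.card]

/-- the condition on the pair `(d, e)` -/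
theorem K8_cond (q : ℕ) [NeZero q] (f : ℕ) (u : ℤ) (hf : Nat.Coprime f q) (hu : u = 1 ∨ u = -1)
    (d e : ℕ) : ((q : ℕ) : ℤ) ∣ ((f * d * e : ℕ) : ℤ) - u ↔
    Nat.Coprime d q ∧ (e : ZMod q) - ((u : ZMod q) * (f : ZMod q)⁻¹) * (d : ZMod q)⁻¹ = 0 := by
  have hff : (f : ZMod q) * (f : ZMod q)⁻¹ = 1 := ZMod.coe_mul_inv_eq_one f hf
  have huu : (u : ZMod q) * (u : ZMod q) = 1 := by
    rcases hu with rfl | rfl <;> simp
  have h0 : ((q : ℕ) : ℤ) ∣ ((f * d * e : ℕ) : ℤ) - u ↔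
      (f : ZMod q) * (d : ZMod q) * (e : ZMod q) = (u : ZMod q) := by
    rw [← ZMod.intCast_zmod_eq_zero_iff_dvd]
    push_cast
    exact sub_eq_zero
  rw [h0]
  constructor
  · intro h
    have hd : Nat.Coprime d q := by
      rw [← ZMod.isUnit_iff_coprime]
      refine IsUnit.of_mul_eq_one ((f : ZMod q) * (e : ZMod q) * (u : ZMod q)) ?_
      calc (d : ZMod q) * ((f : ZMod q) * (e : ZMod q) * (u : ZMod q))
          = ((f : ZMod q) * (d : ZMod q) * (e : ZMod q)) * (u : ZMod q) := by ring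
        _ = 1 := by rw [h, huu]
    have hdd : (d : ZMod q) * (d : ZMod q)⁻¹ = 1 := ZMod.coe_mul_inv_eq_one d hd
    refine ⟨hd, ?_⟩
    rw [← h]
    calc (e : ZMod q) - ((f : ZMod q) * (d : ZMod q) * (e : ZMod q) * (f : ZMod q)⁻¹) * (d : ZMod q)⁻¹
        = (e : ZMod q) - (e : ZMod q) * ((f : ZMod q) * (f : ZMod q)⁻¹) * ((d : ZMod q) * (d : ZMod q)⁻¹) := by
          ring
      _ = 0 := by rw [hff, hdd]; ring
  · rintro ⟨hd, h⟩
    have hdd : (d : ZMod q) * (d : ZMod q)⁻¹ = 1 := ZMod.coe_mul_inv_eq_one d hd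
    have he : (e : ZMod q) = ((u : ZMod q) * (f : ZMod q)⁻¹) * (d : ZMod q)⁻¹ := sub_eq_zero.1 h
    rw [he]
    calc (f : ZMod q) * (d : ZMod q) * (((u : ZMod q) * (f : ZMod q)⁻¹) * (d : ZMod q)⁻¹)
        = (u : ZMod q) * ((f : ZMod q) * (f : ZMod q)⁻¹) * ((d : ZMod q) * (d : ZMod q)⁻¹) := by ring
      _ = (u : ZMod q) := by rw [hff, hdd]; ring

/-- the Fourier expansion of the count -/
theorem K8_fourier (q : ℕ) [NeZero q] (f : ℕ) (u : ℤ) (hf : Nat.Coprime f q) (hu : u = 1 ∨ u = -1)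
    (D M E N : ℕ) :
    (q : ℂ) * ((((Ioc D (D + M)) ×ˢ (Ioc E (E + N))).filter fun t =>
      ((q : ℕ) : ℤ) ∣ ((f * t.1 * t.2 : ℕ) : ℤ) - u).card : ℂ) =
    ∑ h : ZMod q, lin q E N h * ∑ d ∈ (Ioc D (D + M)).filter (fun d => Nat.Coprime d q),
      (ZMod.stdAddChar (-(h * ((u : ZMod q) * (f : ZMod q)⁻¹)) * (d : ZMod q)⁻¹) : ℂ) := by
  classical
  have h1 : ((((Ioc D (D + M)) ×ˢ (Ioc E (E + N))).filter fun t =>
      ((q : ℕ) : ℤ) ∣ ((f * t.1 * t.2 : ℕ) : ℤ) - u).card : ℂ) =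
      ∑ d ∈ (Ioc D (D + M)).filter (fun d => Nat.Coprime d q), ∑ e ∈ Ioc E (E + N),
        if (e : ZMod q) - ((u : ZMod q) * (f : ZMod q)⁻¹) * (d : ZMod q)⁻¹ = 0 then (1 : ℂ) else 0 := by
    rw [Finset.card_filter, Finset.sum_product, Finset.sum_filter]
    push_cast
    refine Finset.sum_congr rfl fun d _ => ?_
    by_cases hd : Nat.Coprime d q
    · rw [if_pos hd]
      refine Finset.sum_congr rfl fun e _ => ?_
      have := K8_cond q f u hf hu d e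
      push_cast at this
      by_cases hc : (e : ZMod q) - ((u : ZMod q) * (f : ZMod q)⁻¹) * (d : ZMod q)⁻¹ = 0
      · rw [if_pos (this.2 ⟨hd, hc⟩), if_pos hc]
      · rw [if_neg (fun h => hc (this.1 h).2), if_neg hc]
    · rw [if_neg hd]
      refine Finset.sum_eq_zero fun e _ => ?_
      have := K8_cond q f u hf hu d e
      push_cast at this
      rw [if_neg (fun h => hd (this.1 h).1)]
  rw [h1, Finset.mul_sum]
  have h2 : ∀ d e : ℕ, (q : ℂ) * (if (e : ZMod q) - ((u : ZMod q) * (f : ZMod q)⁻¹) * (d : ZMod q)⁻¹ = 0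
      then (1 : ℂ) else 0) = ∑ h : ZMod q, (ZMod.stdAddChar (h * (e : ZMod q)) : ℂ) *
        (ZMod.stdAddChar (-(h * ((u : ZMod q) * (f : ZMod q)⁻¹)) * (d : ZMod q)⁻¹) : ℂ) := by
    intro d e
    have h3 := K8_orth q ((e : ZMod q) - ((u : ZMod q) * (f : ZMod q)⁻¹) * (d : ZMod q)⁻¹)
    rw [mul_ite, mul_one, mul_zero, ← h3]
    refine Finset.sum_congr rfl fun h _ => ?_
    rw [← AddChar.map_add_eq_mul]
    congr 1
    ring
  calc ∑ d ∈ (Ioc D (D + M)).filter (fun d => Nat.Coprime d q), (q : ℂ) * ∑ e ∈ Ioc E (E + N),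
        (if (e : ZMod q) - ((u : ZMod q) * (f : ZMod q)⁻¹) * (d : ZMod q)⁻¹ = 0 then (1 : ℂ) else 0)
      = ∑ d ∈ (Ioc D (D + M)).filter (fun d => Nat.Coprime d q), ∑ e ∈ Ioc E (E + N),
        ∑ h : ZMod q, (ZMod.stdAddChar (h * (e : ZMod q)) : ℂ) *
        (ZMod.stdAddChar (-(h * ((u : ZMod q) * (f : ZMod q)⁻¹)) * (d : ZMod q)⁻¹) : ℂ) := by
        refine Finset.sum_congr rfl fun d _ => ?_
        rw [Finset.mul_sum]
        exact Finset.sum_congr rfl fun e _ => h2 d e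
    _ = ∑ d ∈ (Ioc D (D + M)).filter (fun d => Nat.Coprime d q), ∑ h : ZMod q, ∑ e ∈ Ioc E (E + N),
        (ZMod.stdAddChar (h * (e : ZMod q)) : ℂ) *
        (ZMod.stdAddChar (-(h * ((u : ZMod q) * (f : ZMod q)⁻¹)) * (d : ZMod q)⁻¹) : ℂ) := by
        refine Finset.sum_congr rfl fun d _ => ?_
        exact Finset.sum_comm
    _ = ∑ h : ZMod q, ∑ d ∈ (Ioc D (D + M)).filter (fun d => Nat.Coprime d q), ∑ e ∈ Ioc E (E + N),
        (ZMod.stdAddChar (h * (e : ZMod q)) : ℂ) *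
        (ZMod.stdAddChar (-(h * ((u : ZMod q) * (f : ZMod q)⁻¹)) * (d : ZMod q)⁻¹) : ℂ) :=
        Finset.sum_comm
    _ = _ := by
        refine Finset.sum_congr rfl fun h _ => ?_
        rw [Finset.mul_sum]
        refine Finset.sum_congr rfl fun d _ => ?_
        rw [← Finset.sum_mul]
        rfl

theorem K8_lin_zero (q : ℕ) [NeZero q] (E N : ℕ) : lin q E N 0 = (N : ℂ) := by
  unfold lin
  simp

/-- gcd of the frequency -/
theorem K8_gcd (q r : ℕ) [NeZero q] (f : ℕ) (u : ℤ) (hf : Nat.Coprime f q) (hu : u = 1 ∨ u = -1)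
    (hrq : r ∣ q) (h : ℕ) :
    Int.gcd (-((h : ℤ) * u * (((f : ZMod q)⁻¹).val : ℤ))) (r : ℤ) = Nat.gcd h r := by
  have hff : (f : ZMod q) * (f : ZMod q)⁻¹ = 1 := ZMod.coe_mul_inv_eq_one f hf
  have hg : Nat.Coprime ((f : ZMod q)⁻¹).val q := by
    rw [← ZMod.isUnit_iff_coprime, ZMod.natCast_zmod_val]
    exact IsUnit.of_mul_eq_one (f : ZMod q) (by rw [mul_comm]; exact hff)
  have hg' : Nat.Coprime ((f : ZMod q)⁻¹).val r := Nat.Coprime.coprime_dvd_right hrq hg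
  have hun : u.natAbs = 1 := by rcases hu with rfl | rfl <;> rfl
  rw [Int.gcd, Int.natAbs_neg, Int.natAbs_mul, Int.natAbs_mul, hun, mul_one, Int.natAbs_natCast,
    Int.natAbs_natCast, Int.natAbs_natCast]
  exact Nat.Coprime.gcd_mul_right_cancel h hg'

theorem R_K8 (h5 : st_K5) (h6 : st_K6) (h7 : st_K7) : st_K8 := by
  intro q s r hq1 hqsr hsr hr f u hf hu D M E N
  have : NeZero q := ⟨by omega⟩
  have hq0 : (0 : ℝ) < q := by exact_mod_cast hq1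
  obtain ⟨I', hI'⟩ : ∃ I', I' = (Ioc D (D + M)).filter (fun d => Nat.Coprime d q) := ⟨_, rfl⟩
  obtain ⟨C, hC⟩ : ∃ C : ℕ, C = (((Ioc D (D + M)) ×ˢ (Ioc E (E + N))).filter fun t =>
      ((q : ℕ) : ℤ) ∣ ((f * t.1 * t.2 : ℕ) : ℤ) - u).card := ⟨_, rfl⟩
  have hrq : r ∣ q := ⟨s, by rw [hqsr, mul_comm]⟩
  have hF := K8_fourier q f u hf hu D M E N
  rw [← hI', ← hC] at hF
  rw [← hI', ← hC]
  rw [K8_sum_zmod, Finset.range_eq_Ico, ← Finset.sum_Ioo_add_eq_sum_Ico (by omega : 0 < q)] at hF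
  have hz : lin q E N ((0 : ℕ) : ZMod q) * ∑ d ∈ I', (ZMod.stdAddChar (-(((0 : ℕ) : ZMod q) *
      ((u : ZMod q) * (f : ZMod q)⁻¹)) * (d : ZMod q)⁻¹) : ℂ) = (N : ℂ) * (I'.card : ℂ) := by
    rw [Nat.cast_zero, K8_lin_zero]
    congr 1
    simp
  rw [hz] at hF
  obtain ⟨B, hB⟩ : ∃ B : ℝ, B = (M : ℝ) / q + 1 + log q := ⟨_, rfl⟩
  have hlog : 0 ≤ log (q : ℝ) := log_nonneg (by exact_mod_cast hq1)
  have hB0 : 0 ≤ B := by
    rw [hB]
    positivity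
  -- each frequency
  have key : ∀ h ∈ Ioo 0 q, ‖lin q E N (h : ZMod q) * ∑ d ∈ I', (ZMod.stdAddChar (-((h : ZMod q) *
      ((u : ZMod q) * (f : ZMod q)⁻¹)) * (d : ZMod q)⁻¹) : ℂ)‖ ≤
      ((s : ℝ) * (r.divisors.card : ℝ) * sqrt (r : ℝ) * B) *
        ((q : ℝ) / (2 * (min h (q - h) : ℕ)) * sqrt (Nat.gcd h r : ℝ)) := by
    intro h hh
    rw [Finset.mem_Ioo] at hh
    rw [norm_mul]
    have e1 := h5 q E N h hh.1 hh.2
    have e2 := h7 q s r hqsr hsr hr (-((h : ℤ) * u * (((f : ZMod q)⁻¹).val : ℤ))) D M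
    rw [← hI', ← hB, K8_gcd q r f u hf hu hrq h] at e2
    have e3 : ((-((h : ℤ) * u * (((f : ZMod q)⁻¹).val : ℤ)) : ℤ) : ZMod q) =
        -((h : ZMod q) * ((u : ZMod q) * (f : ZMod q)⁻¹)) := by
      push_cast
      rw [ZMod.natCast_zmod_val]
      ring
    rw [e3] at e2
    have e4 : sqrt ((r : ℝ) * (Nat.gcd h r : ℝ)) = sqrt (r : ℝ) * sqrt (Nat.gcd h r : ℝ) :=
      sqrt_mul (by positivity) _
    rw [e4] at e2
    calc _ ≤ ((q : ℝ) / (2 * (min h (q - h) : ℕ))) * ((s : ℝ) * ((r.divisors.card : ℝ) *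
          (sqrt (r : ℝ) * sqrt (Nat.gcd h r : ℝ))) * B) :=
          mul_le_mul e1 e2 (norm_nonneg _) (by positivity)
      _ = _ := by ring
  have hsum : ‖∑ h ∈ Ioo 0 q, lin q E N (h : ZMod q) * ∑ d ∈ I', (ZMod.stdAddChar (-((h : ZMod q) *
      ((u : ZMod q) * (f : ZMod q)⁻¹)) * (d : ZMod q)⁻¹) : ℂ)‖ ≤
      ((s : ℝ) * (r.divisors.card : ℝ) * sqrt (r : ℝ) * B) *
        ((q : ℝ) * (r.divisors.card : ℝ) * (1 + log q)) := by
    refine (norm_sum_le _ _).trans ((Finset.sum_le_sum key).trans ?_)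
    rw [← Finset.mul_sum]
    exact mul_le_mul_of_nonneg_left (h6 q r hq1 hrq) (by positivity)
  have hdiff : (((q : ℝ) * ((C : ℝ) - (N : ℝ) / q * (I'.card : ℝ)) : ℝ) : ℂ) =
      ∑ h ∈ Ioo 0 q, lin q E N (h : ZMod q) * ∑ d ∈ I', (ZMod.stdAddChar (-((h : ZMod q) *
      ((u : ZMod q) * (f : ZMod q)⁻¹)) * (d : ZMod q)⁻¹) : ℂ) := by
    have e5 : (q : ℝ) * ((C : ℝ) - (N : ℝ) / q * (I'.card : ℝ)) = (q : ℝ) * C - N * (I'.card : ℝ) := by
      field_simp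
    rw [e5]
    push_cast
    rw [hF]
    ring
  have hn : ‖(((q : ℝ) * ((C : ℝ) - (N : ℝ) / q * (I'.card : ℝ)) : ℝ) : ℂ)‖ =
      (q : ℝ) * |(C : ℝ) - (N : ℝ) / q * (I'.card : ℝ)| := by
    rw [Complex.norm_real, Real.norm_eq_abs, abs_mul, abs_of_pos hq0]
  rw [← hdiff, hn] at hsum
  have hfin : (q : ℝ) * |(C : ℝ) - (N : ℝ) / q * (I'.card : ℝ)| ≤
      (q : ℝ) * ((s : ℝ) * (r.divisors.card : ℝ) ^ 2 * sqrt (r : ℝ) * (1 + log q) * B) :=
    hsum.trans (le_of_eq (by ring))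
  rw [← hB]
  exact le_of_mul_le_mul_left hfin hq0

end Pool.Agent.DDD
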