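import Pool.Agent.DDD.Defs

/-!
# [DDD] row M1: the harmonic sum over a progression
-/

set_option autoImplicit false

namespace Pool.Agent.DDD

open Finset Real

theorem M1_log {t w : ℝ} (ht : 0 < t) (hw : 0 < w) :
    1 / (t + w) ≤ 1 / w * (log (t + w) - log t) ∧ 1 / w * (log (t + w) - log t) ≤ 1 / t := by
  have htw : 0 < t + w := by linarith
  have h1 : log (t + w) - log t = log ((t + w) / t) := (log_div htw.ne' ht.ne').symm
  have h2 : 0 < (t + w) / t := by positivity
  rw [h1]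
  constructor
  · have h3 := one_sub_inv_le_log_of_pos h2
    have h4 : 1 - ((t + w) / t)⁻¹ = w / (t + w) := by
      field_simp
      ring
    rw [h4] at h3
    calc 1 / (t + w) = 1 / w * (w / (t + w)) := by field_simp
      _ ≤ 1 / w * log ((t + w) / t) := mul_le_mul_of_nonneg_left h3 (by positivity)
  · have h3 := log_le_sub_one_of_pos h2
    have h4 : (t + w) / t - 1 = w / t := by
      field_simp
      ring
    rw [h4] at h3
    calc 1 / w * log ((t + w) / t) ≤ 1 / w * (w / t) :=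
          mul_le_mul_of_nonneg_left h3 (by positivity)
      _ = 1 / t := by field_simp

theorem M1_next {W r : ℕ} (hW : 1 ≤ W) (hr : r < W) (A : ℕ) :
    ∃ t : ℕ, A < t ∧ t ≤ A + W ∧ t % W = r := by
  induction A with
  | zero =>
    by_cases h : r = 0
    · exact ⟨W, by omega, by omega, by rw [Nat.mod_self, h]⟩
    · exact ⟨r, by omega, by omega, Nat.mod_eq_of_lt hr⟩
  | succ A ih =>
    obtain ⟨t, h1, h2, h3⟩ := ih
    by_cases h : t = A + 1
    · exact ⟨t + W, by omega, by omega, by rw [Nat.add_mod_right, h3]⟩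
    · exact ⟨t, by omega, by omega, h3⟩

theorem M1_uniq {W r : ℕ} {B t : ℕ} (h1 : B < t) (h2 : t ≤ B + W) (h3 : t % W = r)
    (h4 : (B + 1) % W = r) : t = B + 1 := by
  have h5 : W ∣ t - (B + 1) := by
    apply Nat.dvd_of_mod_eq_zero
    exact Nat.sub_mod_eq_zero_of_mod_eq (h3.trans h4.symm)
  have h6 : t - (B + 1) = 0 := Nat.eq_zero_of_dvd_of_lt h5 (by omega)
  omega

theorem M1_sum {W r : ℕ} (hW : 1 ≤ W) {A t0 : ℕ} (h1 : A < t0) (h2 : t0 ≤ A + W)
    (h3 : t0 % W = r) (n : ℕ) : ∃ t : ℕ, A + n < t ∧ t ≤ A + n + W ∧ t % W = r ∧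
    1 / (W : ℝ) * (log t - log t0) ≤ ∑ a ∈ (Ioc A (A + n)).filter (fun a => a % W = r), (1 : ℝ) / a ∧
    ∑ a ∈ (Ioc A (A + n)).filter (fun a => a % W = r), (1 : ℝ) / a ≤
      1 / (W : ℝ) * (log t - log t0) + 1 / t0 - 1 / t := by
  have hW0 : (0 : ℝ) < W := by exact_mod_cast hW
  induction n with
  | zero =>
    refine ⟨t0, by omega, by omega, h3, ?_, ?_⟩
    · simp
    · simp
  | succ n ih =>
    obtain ⟨t, g1, g2, g3, g4, g5⟩ := ih
    have hI : Ioc A (A + (n + 1)) = insert (A + n + 1) (Ioc A (A + n)) := by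
      ext a
      simp only [mem_Ioc, mem_insert]
      omega
    have hnot : A + n + 1 ∉ (Ioc A (A + n)).filter (fun a => a % W = r) := by
      simp
    rw [hI, filter_insert]
    by_cases h : (A + n + 1) % W = r
    · have ht : t = A + n + 1 := M1_uniq g1 g2 g3 h
      rw [if_pos h, sum_insert hnot, ← ht]
      have ht0 : (0 : ℝ) < t := by
        have : 0 < t := by omega
        exact_mod_cast this
      obtain ⟨k1, k2⟩ := M1_log ht0 hW0
      refine ⟨t + W, by omega, by omega, by rw [Nat.add_mod_right, g3], ?_, ?_⟩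
      · push_cast
        have e : 1 / (W : ℝ) * (log (t + W) - log t0) = 1 / (W : ℝ) * (log (t + W) - log t) +
          1 / (W : ℝ) * (log t - log t0) := by ring
        rw [e]
        linarith
      · push_cast
        have e : 1 / (W : ℝ) * (log (t + W) - log t0) = 1 / (W : ℝ) * (log (t + W) - log t) +
          1 / (W : ℝ) * (log t - log t0) := by ring
        rw [e]
        linarith
    · rw [if_neg h]
      have ht : t ≠ A + n + 1 := by
        rintro rfl
        exact h g3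
      exact ⟨t, by omega, by omega, g3, g4, g5⟩

theorem R_M1 : st_M1 := by
  intro W hW r hr x α η hx hα hη
  have hW0 : (0 : ℝ) < W := by exact_mod_cast hW
  have hx0 : 0 < x := by linarith
  have hL : 0 ≤ log x := log_nonneg hx
  have hA1 : (1 : ℝ) ≤ x ^ α := one_le_rpow hx hα
  have hA2 : x ^ α ≤ x ^ (α + η) := rpow_le_rpow_of_exponent_le hx (by linarith)
  have hlog : log (x ^ (α + η)) - log (x ^ α) = η * log x := by
    rw [log_rpow hx0, log_rpow hx0]
    ring
  unfold Iv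
  generalize x ^ (α + η) = A2 at hA2 hlog
  generalize x ^ α = A1 at hA1 hA2 hlog
  rw [← hlog]
  have hA10 : 0 < A1 := by linarith
  have hA20 : 0 < A2 := by linarith
  have f1 : ((⌊A1⌋₊ : ℕ) : ℝ) ≤ A1 := Nat.floor_le hA10.le
  have f2 : A1 < (⌊A1⌋₊ : ℕ) + 1 := Nat.lt_floor_add_one A1
  have f3 : ((⌊A2⌋₊ : ℕ) : ℝ) ≤ A2 := Nat.floor_le hA20.le
  have f4 : A2 < (⌊A2⌋₊ : ℕ) + 1 := Nat.lt_floor_add_one A2
  have f5 : 1 ≤ ⌊A1⌋₊ := (Nat.one_le_floor_iff A1).2 hA1
  have f6 : ⌊A1⌋₊ ≤ ⌊A2⌋₊ := Nat.floor_le_floor hA2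
  generalize ⌊A1⌋₊ = A at f1 f2 f5 f6
  generalize ⌊A2⌋₊ = B at f3 f4 f6
  obtain ⟨n, rfl⟩ := Nat.exists_eq_add_of_le f6
  obtain ⟨t0, h1, h2, h3⟩ := M1_next hW hr A
  obtain ⟨t, g1, g2, g3, g4, g5⟩ := M1_sum hW h1 h2 h3 n
  generalize ∑ a ∈ (Ioc A (A + n)).filter (fun a => a % W = r), (1 : ℝ) / a = S at g4 g5
  have t1 : ((A + n : ℕ) : ℝ) + 1 ≤ t := by exact_mod_cast g1
  have t2 : (t : ℝ) ≤ (A + n : ℕ) + W := by exact_mod_cast g2
  have t3 : (A : ℝ) + 1 ≤ t0 := by exact_mod_cast h1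
  have t4 : (t0 : ℝ) ≤ A + W := by exact_mod_cast h2
  have hA0 : (1 : ℝ) ≤ A := by exact_mod_cast f5
  have hB0 : (1 : ℝ) ≤ (A + n : ℕ) := by
    have : 1 ≤ A + n := by omega
    exact_mod_cast this
  generalize ((A + n : ℕ) : ℝ) = B at f3 f4 t1 t2 hB0
  have ht0 : (0 : ℝ) < t0 := by linarith
  have ht : (0 : ℝ) < t := by linarith
  have e0 : 1 / (W : ℝ) * W = 1 := by field_simp
  rw [abs_le]
  constructor
  · -- lower bound
    have l1 : log A2 ≤ log t := log_le_log hA20 (by linarith)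
    have l2 : log t0 ≤ log (A1 + W) := log_le_log ht0 (by linarith)
    obtain ⟨-, k2⟩ := M1_log hA10 hW0
    have k3 : 1 / A1 ≤ 1 := by
      rw [div_le_one hA10]
      exact hA1
    have l3 : 1 / (W : ℝ) * (log A2 - log (A1 + W)) ≤ 1 / (W : ℝ) * (log t - log t0) :=
      mul_le_mul_of_nonneg_left (by linarith) (by positivity)
    have e : (log A2 - log A1) / (W : ℝ) = 1 / (W : ℝ) * (log A2 - log (A1 + W)) +
        1 / (W : ℝ) * (log (A1 + W) - log A1) := by ring
    rw [e]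
    linarith
  · -- upper bound
    have l1 : log t ≤ log (A2 + W) := log_le_log ht (by linarith)
    have l2 : log A1 ≤ log t0 := log_le_log hA10 (by linarith)
    obtain ⟨-, k2⟩ := M1_log hA20 hW0
    have k3 : 1 / A2 ≤ 1 := by
      rw [div_le_one hA20]
      linarith
    have k4 : 1 / (t0 : ℝ) ≤ 1 := by
      rw [div_le_one ht0]
      linarith
    have k5 : 0 ≤ 1 / (t : ℝ) := by positivity
    have l3 : 1 / (W : ℝ) * (log t - log t0) ≤ 1 / (W : ℝ) * (log (A2 + W) - log A1) :=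
      mul_le_mul_of_nonneg_left (by linarith) (by positivity)
    have e : (log A2 - log A1) / (W : ℝ) = 1 / (W : ℝ) * (log (A2 + W) - log A1) -
        1 / (W : ℝ) * (log (A2 + W) - log A2) := by ring
    rw [e]
    linarith

end Pool.Agent.DDD
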