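import Pool.Agent.DDD.Defs

set_option autoImplicit false

open Finset Real

namespace Pool.Agent.DDD

theorem M2_harm (m : ℕ) (n : ℕ) (h : m + 1 ≤ n) :
    ∑ a ∈ Ioc m n, (1 : ℝ) / a ≤ 1 + (log n - log ((m : ℝ) + 1)) := by
  induction n, h using Nat.le_induction with
  | base =>
    have h1 : Ioc m (m + 1) = {m + 1} := by
      ext a
      rw [mem_Ioc, mem_singleton]
      omega
    rw [h1, sum_singleton]
    push_cast
    have h2 : (1 : ℝ) ≤ (m : ℝ) + 1 := by
      have := Nat.cast_nonneg (α := ℝ) m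
      linarith
    rw [sub_self, add_zero, div_le_one (by linarith)]
    exact h2
  | succ n hn ih =>
    rw [← Finset.insert_Ioc_right_eq_Ioc_add_one (by omega : m ≤ n), sum_insert (by simp)]
    have hn0 : (0 : ℝ) < n := by
      have : 0 < n := by omega
      exact_mod_cast this
    have h3 : 1 - (((n : ℝ) + 1) / n)⁻¹ ≤ log (((n : ℝ) + 1) / n) :=
      Real.one_sub_inv_le_log_of_pos (by positivity)
    rw [log_div (by positivity) hn0.ne', inv_div] at h3
    have h4 : (1 : ℝ) - n / ((n : ℝ) + 1) = 1 / ((n : ℝ) + 1) := by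
      field_simp
      ring
    rw [h4] at h3
    push_cast
    linarith

theorem R_M2 : st_M2 := by
  intro p hp x α η hx hα hη
  have hx0 : 0 < x := by linarith
  have hlog : 0 ≤ log x := log_nonneg hx
  have hp0 : (0 : ℝ) < p := by exact_mod_cast hp
  have hA1 : 0 < x ^ α := rpow_pos_of_pos hx0 _
  have hA2 : 0 < x ^ (α + η) := rpow_pos_of_pos hx0 _
  set m := ⌊x ^ α⌋₊ / p with hm
  set n := ⌊x ^ (α + η)⌋₊ / p with hn
  have h1 : ∑ a ∈ (Iv x α η).filter (fun a => p ∣ a), (1 : ℝ) / a =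
      ∑ a ∈ Ioc m n, (1 : ℝ) / ((p * a : ℕ) : ℝ) := by
    symm
    refine sum_bij (fun a _ => p * a) ?_ ?_ ?_ ?_
    · intro a ha
      rw [mem_Ioc] at ha
      rw [mem_filter]
      refine ⟨?_, dvd_mul_right _ _⟩
      unfold Iv
      rw [mem_Ioc]
      refine ⟨?_, ?_⟩
      · have := (Nat.div_lt_iff_lt_mul hp).1 ha.1
        rwa [mul_comm] at this
      · have := (Nat.le_div_iff_mul_le hp).1 ha.2
        rwa [mul_comm] at this
    · intro a _ b _ hab
      exact Nat.eq_of_mul_eq_mul_left hp hab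
    · intro b hb
      rw [mem_filter] at hb
      obtain ⟨hb1, a, rfl⟩ := hb
      unfold Iv at hb1
      rw [mem_Ioc] at hb1
      refine ⟨a, ?_, rfl⟩
      rw [mem_Ioc]
      refine ⟨(Nat.div_lt_iff_lt_mul hp).2 ?_, (Nat.le_div_iff_mul_le hp).2 ?_⟩
      · rw [mul_comm]; exact hb1.1
      · rw [mul_comm]; exact hb1.2
    · intro a _
      rfl
  rw [h1]
  have h2 : ∑ a ∈ Ioc m n, (1 : ℝ) / ((p * a : ℕ) : ℝ) = (∑ a ∈ Ioc m n, (1 : ℝ) / a) / p := by
    rw [sum_div]
    refine sum_congr rfl fun a _ => ?_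
    push_cast
    rw [div_div, mul_comm]
  rw [h2]
  refine div_le_div_of_nonneg_right ?_ hp0.le
  by_cases hmn : m + 1 ≤ n
  · refine (M2_harm m n hmn).trans ?_
    have h3 : (n : ℝ) * p ≤ x ^ (α + η) := by
      refine le_trans ?_ (Nat.floor_le hA2.le)
      exact_mod_cast Nat.div_mul_le_self _ _
    have h4 : x ^ α < ((m : ℝ) + 1) * p := by
      refine lt_of_lt_of_le (Nat.lt_floor_add_one _) ?_
      have h5 : ⌊x ^ α⌋₊ < (m + 1) * p := by
        rw [hm, mul_comm]
        exact Nat.lt_mul_div_succ _ hp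
      exact_mod_cast h5
    have hn0 : (0 : ℝ) < n := by
      have : 0 < n := lt_of_lt_of_le (Nat.succ_pos m) hmn
      exact_mod_cast this
    have h6 : log ((n : ℝ) * p) ≤ log (x ^ (α + η)) := log_le_log (by positivity) h3
    have h7 : log (x ^ α) ≤ log (((m : ℝ) + 1) * p) := log_le_log hA1 h4.le
    rw [log_mul hn0.ne' hp0.ne', log_rpow hx0] at h6
    rw [log_mul (by positivity) hp0.ne', log_rpow hx0] at h7
    linarith
  · have h3 : Ioc m n = ∅ := Ioc_eq_empty (by omega)
    rw [h3, sum_empty]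
    positivity

end Pool.Agent.DDD
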