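import Pool.Agent.DDD.Defs

set_option autoImplicit false

namespace Pool.Agent.DDD

open Finset Real

theorem M3_gcd (W a b f d : ℕ) :
    Nat.gcd (Nat.gcd (a % W * (b % W)) (f % W * (d % W))) W =
      Nat.gcd (Nat.gcd (a * b) (f * d)) W := by
  have h1 : a % W * (b % W) ≡ a * b [MOD W] := (Nat.mod_modEq a W).mul (Nat.mod_modEq b W)
  have h2 : f % W * (d % W) ≡ f * d [MOD W] := (Nat.mod_modEq f W).mul (Nat.mod_modEq d W)
  refine Nat.dvd_antisymm ?_ ?_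
  · have hW : Nat.gcd (Nat.gcd (a % W * (b % W)) (f % W * (d % W))) W ∣ W := Nat.gcd_dvd_right _ _
    refine Nat.dvd_gcd (Nat.dvd_gcd ?_ ?_) hW
    · exact (h1.dvd_iff hW).1 ((Nat.gcd_dvd_left _ _).trans (Nat.gcd_dvd_left _ _))
    · exact (h2.dvd_iff hW).1 ((Nat.gcd_dvd_left _ _).trans (Nat.gcd_dvd_right _ _))
  · have hW : Nat.gcd (Nat.gcd (a * b) (f * d)) W ∣ W := Nat.gcd_dvd_right _ _
    refine Nat.dvd_gcd (Nat.dvd_gcd ?_ ?_) hW
    · exact (h1.dvd_iff hW).2 ((Nat.gcd_dvd_left _ _).trans (Nat.gcd_dvd_left _ _))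
    · exact (h2.dvd_iff hW).2 ((Nat.gcd_dvd_left _ _).trans (Nat.gcd_dvd_right _ _))

theorem M3_class (W : ℕ) (A B C D : Finset ℕ) (r : ℕ × ℕ × ℕ × ℕ) :
    ∑ t ∈ (A ×ˢ B ×ˢ C ×ˢ D).filter
      (fun t => (t.1 % W, t.2.1 % W, t.2.2.1 % W, t.2.2.2 % W) = r), wt t =
    (∑ a ∈ A.filter (fun a => a % W = r.1), (1 : ℝ) / a) *
      (∑ b ∈ B.filter (fun a => a % W = r.2.1), (1 : ℝ) / b) *
      (∑ f ∈ C.filter (fun a => a % W = r.2.2.1), (1 : ℝ) / f) *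
      (∑ d ∈ D.filter (fun a => a % W = r.2.2.2), (1 : ℝ) / d) := by
  rw [← sum_wt_product]
  refine sum_congr ?_ fun _ _ => rfl
  obtain ⟨r1, r2, r3, r4⟩ := r
  ext ⟨a, b, f, d⟩
  simp only [mem_filter, mem_product, Prod.mk.injEq]
  tauto

theorem M3_main (h1 : st_M1) (W : ℕ) (hW : 1 ≤ W) (α1 α2 β1 β2 η : ℝ) (hα1 : 0 ≤ α1)
    (hα2 : 0 ≤ α2) (hβ1 : 0 ≤ β1) (hβ2 : 0 ≤ β2) (hη : 0 < η) (x : ℝ) (hx : 1 ≤ x)
    (hL : 2 * W ≤ η * log x) :
    rho W * (η * log x - 2 * W) ^ 4 ≤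
      ∑ t ∈ (Bx x α1 α2 β1 β2 η).filter
        (fun t => Nat.gcd (Nat.gcd (t.1 * t.2.1) (t.2.2.1 * t.2.2.2)) W = 1), wt t := by
  classical
  have hW0 : (0 : ℝ) < W := by exact_mod_cast hW
  set R := (range W ×ˢ range W ×ˢ range W ×ˢ range W).filter fun r : ℕ × ℕ × ℕ × ℕ =>
    Nat.gcd (Nat.gcd (r.1 * r.2.1) (r.2.2.1 * r.2.2.2)) W = 1 with hR
  set T := (Bx x α1 α2 β1 β2 η).filter
        (fun t => Nat.gcd (Nat.gcd (t.1 * t.2.1) (t.2.2.1 * t.2.2.2)) W = 1) with hT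
  let pr : ℕ × ℕ × ℕ × ℕ → ℕ × ℕ × ℕ × ℕ := fun t =>
    (t.1 % W, t.2.1 % W, t.2.2.1 % W, t.2.2.2 % W)
  have hmaps : ∀ t ∈ T, pr t ∈ R := by
    intro t ht
    rw [hT, mem_filter] at ht
    rw [hR, mem_filter]
    refine ⟨?_, ?_⟩
    · simp only [mem_product, mem_range, pr]
      exact ⟨Nat.mod_lt _ hW, Nat.mod_lt _ hW, Nat.mod_lt _ hW, Nat.mod_lt _ hW⟩
    · show Nat.gcd (Nat.gcd (t.1 % W * (t.2.1 % W)) (t.2.2.1 % W * (t.2.2.2 % W))) W = 1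
      rw [M3_gcd]
      exact ht.2
  have hfib : ∀ r ∈ R, (η * log x / W - 2) ^ 4 ≤ ∑ t ∈ T.filter (fun t => pr t = r), wt t := by
    intro r hr
    rw [hR, mem_filter] at hr
    obtain ⟨hr1, hr2⟩ := hr
    simp only [mem_product, mem_range] at hr1
    have he : T.filter (fun t => pr t = r) =
        ((Iv x α1 η ×ˢ Iv x α2 η ×ˢ Iv x β1 η ×ˢ Iv x β2 η)).filter (fun t => pr t = r) := by
      ext t
      rw [mem_filter, mem_filter, mem_filter]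
      constructor
      · rintro ⟨⟨h1, -⟩, h3⟩
        exact ⟨h1, h3⟩
      · rintro ⟨h1, h3⟩
        refine ⟨⟨h1, ?_⟩, h3⟩
        rw [← M3_gcd]
        rw [← h3] at hr2
        exact hr2
    rw [he, M3_class]
    have hc0 : 0 ≤ η * log x / W - 2 := by
      rw [sub_nonneg, le_div_iff₀ hW0]
      exact hL
    have hcl : ∀ (s : ℕ), s < W → ∀ α : ℝ, 0 ≤ α → η * log x / W - 2 ≤
        ∑ a ∈ (Iv x α η).filter (fun a => a % W = s), (1 : ℝ) / a := by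
      intro s hs α hα
      have := (abs_le.1 (h1 W hW s hs x α η hx hα hη.le)).1
      linarith
    have e1 := hcl r.1 hr1.1 α1 hα1
    have e2 := hcl r.2.1 hr1.2.1 α2 hα2
    have e3 := hcl r.2.2.1 hr1.2.2.1 β1 hβ1
    have e4 := hcl r.2.2.2 hr1.2.2.2 β2 hβ2
    set c := η * log x / W - 2
    calc c ^ 4 = c * c * c * c := by ring
      _ ≤ _ := by
        refine mul_le_mul (mul_le_mul (mul_le_mul e1 e2 hc0 (hc0.trans e1)) e3 hc0 ?_) e4 hc0 ?_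
        · exact mul_nonneg (hc0.trans e1) (hc0.trans e2)
        · exact mul_nonneg (mul_nonneg (hc0.trans e1) (hc0.trans e2)) (hc0.trans e3)
  have hsum : ∑ t ∈ T, wt t = ∑ r ∈ R, ∑ t ∈ T.filter (fun t => pr t = r), wt t :=
    (sum_fiberwise_of_maps_to hmaps wt).symm
  rw [hsum]
  calc rho W * (η * log x - 2 * W) ^ 4
      = (R.card : ℝ) * (η * log x / W - 2) ^ 4 := by
        have : η * log x - 2 * W = W * (η * log x / W - 2) := by
          field_simp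
        rw [this, mul_pow]
        unfold rho
        rw [← hR]
        field_simp
    _ = ∑ r ∈ R, (η * log x / W - 2) ^ 4 := by
        rw [sum_const, nsmul_eq_mul]
    _ ≤ _ := sum_le_sum hfib

theorem M3_rho_le (W : ℕ) (hW : 1 ≤ W) : rho W ≤ 1 := by
  have hW0 : (0 : ℝ) < W := by exact_mod_cast hW
  unfold rho
  rw [div_le_one (by positivity)]
  have h : ((range W ×ˢ range W ×ˢ range W ×ˢ range W).filter fun r : ℕ × ℕ × ℕ × ℕ =>
    Nat.gcd (Nat.gcd (r.1 * r.2.1) (r.2.2.1 * r.2.2.2)) W = 1).card ≤ W ^ 4 := by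
    refine (card_filter_le _ _).trans (le_of_eq ?_)
    rw [card_product, card_product, card_product, card_range]
    ring
  exact_mod_cast h

theorem M3_rho_nonneg (W : ℕ) : 0 ≤ rho W := by
  unfold rho
  positivity

theorem R_M3 (h1 : st_M1) : st_M3 := by
  intro W hW α1 α2 β1 β2 η hα1 hα2 hβ1 hβ2 hη δ hδ
  have hW0 : (0 : ℝ) < W := by exact_mod_cast hW
  refine ⟨exp ((2 * W + 8 * W / δ) / η), fun x hx => ?_⟩
  have hexp0 : 0 ≤ (2 * W + 8 * W / δ) / η := by positivity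
  have hx1 : 1 ≤ x := (one_le_exp hexp0).trans hx
  have hlog : (2 * W + 8 * W / δ) / η ≤ log x := by
    rw [le_log_iff_exp_le (by linarith)]
    exact hx
  have hL : 2 * W + 8 * W / δ ≤ η * log x := by
    rw [div_le_iff₀ hη] at hlog
    linarith
  have h8 : 0 < 8 * (W : ℝ) / δ := by positivity
  have hL1 : 2 * (W : ℝ) ≤ η * log x := by linarith
  have hL2 : 8 * (W : ℝ) ≤ δ * (η * log x) := by
    have : 8 * (W : ℝ) / δ ≤ η * log x := by linarith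
    rw [div_le_iff₀ hδ] at this
    linarith
  refine le_trans ?_ (M3_main h1 W hW α1 α2 β1 β2 η hα1 hα2 hβ1 hβ2 hη x hx1 hL1)
  set L := η * log x
  have hL0 : 0 < L := by linarith
  have hρ := M3_rho_le W hW
  have hρ0 := M3_rho_nonneg W
  have hb : L ^ 4 - 8 * W * L ^ 3 ≤ (L - 2 * W) ^ 4 := by
    have h3 : 0 ≤ L ^ 2 * (W : ℝ) ^ 2 := by positivity
    have h4 : 0 ≤ (L - 2 * W) := by linarith
    have : (L - 2 * W) ^ 4 - (L ^ 4 - 8 * W * L ^ 3) =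
        24 * L ^ 2 * W ^ 2 - 32 * L * W ^ 3 + 16 * W ^ 4 := by ring
    have h5 : 0 ≤ 24 * L ^ 2 * (W : ℝ) ^ 2 - 32 * L * W ^ 3 + 16 * W ^ 4 := by
      have h6 : 0 ≤ L * (W : ℝ) ^ 2 * (L - 2 * W) := by positivity
      have h7 : 0 ≤ (W : ℝ) ^ 4 := by positivity
      nlinarith
    linarith
  have hc : 8 * (W : ℝ) * L ^ 3 ≤ δ * L ^ 4 := by
    have : 8 * (W : ℝ) * L ^ 3 ≤ (δ * L) * L ^ 3 :=
      mul_le_mul_of_nonneg_right hL2 (by positivity)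
    calc 8 * (W : ℝ) * L ^ 3 ≤ (δ * L) * L ^ 3 := this
      _ = δ * L ^ 4 := by ring
  calc (rho W - δ) * L ^ 4 = rho W * L ^ 4 - δ * L ^ 4 := by ring
    _ ≤ rho W * L ^ 4 - rho W * (δ * L ^ 4) := by
      have : rho W * (δ * L ^ 4) ≤ 1 * (δ * L ^ 4) :=
        mul_le_mul_of_nonneg_right hρ (by positivity)
      linarith
    _ = rho W * (L ^ 4 - δ * L ^ 4) := by ring
    _ ≤ rho W * (L - 2 * W) ^ 4 := by
      refine mul_le_mul_of_nonneg_left ?_ hρ0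
      linarith

end Pool.Agent.DDD
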