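import Pool.Agent.DDD.Defs

set_option autoImplicit false

open Finset Real

namespace Pool.Agent.DDD

/-- the counted set -/
def M4_N (W : ℕ) : Finset (ℕ × ℕ × ℕ × ℕ) := (range W ×ˢ range W ×ˢ range W ×ˢ range W).filter fun r =>
    Nat.gcd (Nat.gcd (r.1 * r.2.1) (r.2.2.1 * r.2.2.2)) W = 1

theorem M4_gcd (A m n m' n' : ℕ) (h1 : m ≡ m' [MOD A]) (h2 : n ≡ n' [MOD A]) :
    Nat.gcd (Nat.gcd m n) A = Nat.gcd (Nat.gcd m' n') A := by
  have e1 : Nat.gcd m A = Nat.gcd m' A := h1.gcd_eq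
  have e2 : Nat.gcd n A = Nat.gcd n' A := h2.gcd_eq
  rw [Nat.gcd_assoc, e2, Nat.gcd_left_comm, e1, Nat.gcd_left_comm, ← Nat.gcd_assoc]

theorem M4_gcd_mod (A : ℕ) (a b c d : ℕ) :
    Nat.gcd (Nat.gcd ((a % A) * (b % A)) ((c % A) * (d % A))) A = Nat.gcd (Nat.gcd (a * b) (c * d)) A :=
  M4_gcd A _ _ _ _ ((Nat.mod_modEq a A).mul (Nat.mod_modEq b A)) ((Nat.mod_modEq c A).mul (Nat.mod_modEq d A))

theorem M4_mem (W : ℕ) (r : ℕ × ℕ × ℕ × ℕ) : r ∈ M4_N W ↔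
    (r.1 < W ∧ r.2.1 < W ∧ r.2.2.1 < W ∧ r.2.2.2 < W) ∧
      Nat.gcd (Nat.gcd (r.1 * r.2.1) (r.2.2.1 * r.2.2.2)) W = 1 := by
  unfold M4_N
  rw [Finset.mem_filter, Finset.mem_product, Finset.mem_product, Finset.mem_product, Finset.mem_range,
    Finset.mem_range, Finset.mem_range, Finset.mem_range]

theorem M4_inj1 (A B a b : ℕ) (hc : Nat.Coprime A B) (ha : a < A * B) (hb : b < A * B)
    (h1 : a % A = b % A) (h2 : a % B = b % B) : a = b :=
  Nat.ModEq.eq_of_lt_of_lt ((Nat.modEq_and_modEq_iff_modEq_mul hc).1 ⟨h1, h2⟩) ha hb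

theorem M4_card_mul (A B : ℕ) (hA : 0 < A) (hB : 0 < B) (hc : Nat.Coprime A B) :
    (M4_N (A * B)).card = (M4_N A).card * (M4_N B).card := by
  rw [← Finset.card_product]
  refine Finset.card_bij (fun r _ => ((r.1 % A, r.2.1 % A, r.2.2.1 % A, r.2.2.2 % A),
    (r.1 % B, r.2.1 % B, r.2.2.1 % B, r.2.2.2 % B))) ?_ ?_ ?_
  · intro r hr
    rw [M4_mem] at hr
    rw [Finset.mem_product, M4_mem, M4_mem]
    have h := (Nat.coprime_mul_iff_right.1 hr.2)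
    exact ⟨⟨⟨Nat.mod_lt _ hA, Nat.mod_lt _ hA, Nat.mod_lt _ hA, Nat.mod_lt _ hA⟩, (M4_gcd_mod A _ _ _ _).trans h.1⟩,
      ⟨⟨Nat.mod_lt _ hB, Nat.mod_lt _ hB, Nat.mod_lt _ hB, Nat.mod_lt _ hB⟩, (M4_gcd_mod B _ _ _ _).trans h.2⟩⟩
  · rintro ⟨a, b, c, d⟩ hr ⟨a', b', c', d'⟩ hr' h
    rw [M4_mem] at hr hr'
    simp only [Prod.mk.injEq] at h
    obtain ⟨⟨h1, h2, h3, h4⟩, k1, k2, k3, k4⟩ := h
    rw [M4_inj1 A B a a' hc hr.1.1 hr'.1.1 h1 k1, M4_inj1 A B b b' hc hr.1.2.1 hr'.1.2.1 h2 k2,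
      M4_inj1 A B c c' hc hr.1.2.2.1 hr'.1.2.2.1 h3 k3, M4_inj1 A B d d' hc hr.1.2.2.2 hr'.1.2.2.2 h4 k4]
  · rintro ⟨⟨a, b, c, d⟩, ⟨a', b', c', d'⟩⟩ hr
    rw [Finset.mem_product, M4_mem, M4_mem] at hr
    obtain ⟨⟨⟨h1, h2, h3, h4⟩, hg⟩, ⟨k1, k2, k3, k4⟩, kg⟩ := hr
    simp only at h1 h2 h3 h4 hg k1 k2 k3 k4 kg
    have key : ∀ u v : ℕ, u < A → v < B → ∃ w, w < A * B ∧ w % A = u ∧ w % B = v := by
      intro u v hu hv
      refine ⟨(Nat.chineseRemainder hc u v : ℕ), Nat.chineseRemainder_lt_mul hc u v hA.ne' hB.ne', ?_, ?_⟩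
      · have := (Nat.chineseRemainder hc u v).2.1
        unfold Nat.ModEq at this
        rw [this, Nat.mod_eq_of_lt hu]
      · have := (Nat.chineseRemainder hc u v).2.2
        unfold Nat.ModEq at this
        rw [this, Nat.mod_eq_of_lt hv]
    obtain ⟨wa, la, ma, na⟩ := key a a' h1 k1
    obtain ⟨wb, lb, mb, nb⟩ := key b b' h2 k2
    obtain ⟨wc, lc, mc, nc⟩ := key c c' h3 k3
    obtain ⟨wd, ld, md, nd⟩ := key d d' h4 k4
    refine ⟨(wa, wb, wc, wd), ?_, ?_⟩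
    · rw [M4_mem]
      refine ⟨⟨la, lb, lc, ld⟩, ?_⟩
      refine Nat.coprime_mul_iff_right.2 ⟨?_, ?_⟩
      · have := M4_gcd_mod A wa wb wc wd
        rw [ma, mb, mc, md, hg] at this
        exact this.symm
      · have := M4_gcd_mod B wa wb wc wd
        rw [na, nb, nc, nd, kg] at this
        exact this.symm
    · simp only [ma, mb, mc, md, na, nb, nc, nd]

theorem M4_rho_eq (W : ℕ) : rho W = ((M4_N W).card : ℝ) / (W : ℝ) ^ 4 := rfl

theorem M4_rho_mul (A B : ℕ) (hA : 0 < A) (hB : 0 < B) (hc : Nat.Coprime A B) :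
    rho (A * B) = rho A * rho B := by
  rw [M4_rho_eq, M4_rho_eq, M4_rho_eq, M4_card_mul A B hA hB hc, div_mul_div_comm]
  push_cast
  rw [mul_pow]

/-- pairs with product divisible by `p` -/
def M4_Z (p : ℕ) : Finset (ℕ × ℕ) := (range p ×ˢ range p).filter fun t => p ∣ t.1 * t.2

theorem M4_Z_card (p : ℕ) (hp : p.Prime) : (M4_Z p).card + (p - 1) ^ 2 = p ^ 2 := by
  have h0 : ((range p ×ˢ range p).filter fun t : ℕ × ℕ => ¬ p ∣ t.1 * t.2) = Ico 1 p ×ˢ Ico 1 p := by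
    ext ⟨a, b⟩
    rw [Finset.mem_filter, Finset.mem_product, Finset.mem_product, Finset.mem_range, Finset.mem_range,
      Finset.mem_Ico, Finset.mem_Ico, hp.dvd_mul]
    simp only
    constructor
    · rintro ⟨⟨h1, h2⟩, h3⟩
      push Not at h3
      refine ⟨⟨?_, h1⟩, ?_, h2⟩
      · rcases Nat.eq_zero_or_pos a with h | h
        · exact absurd (h ▸ dvd_zero p) h3.1
        · exact h
      · rcases Nat.eq_zero_or_pos b with h | h
        · exact absurd (h ▸ dvd_zero p) h3.2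
        · exact h
    · rintro ⟨⟨h1, h2⟩, h3, h4⟩
      refine ⟨⟨h2, h4⟩, ?_⟩
      rintro (h | h)
      · exact absurd (Nat.le_of_dvd h1 h) (by omega)
      · exact absurd (Nat.le_of_dvd h3 h) (by omega)
  have h1 := Finset.card_filter_add_card_filter_not (s := range p ×ˢ range p) (fun t : ℕ × ℕ => p ∣ t.1 * t.2)
  rw [h0, Finset.card_product, Finset.card_product, Nat.card_Ico, Finset.card_range] at h1
  unfold M4_Z
  rw [sq, sq]
  exact h1

theorem M4_bad_card (p : ℕ) : ((range p ×ˢ range p ×ˢ range p ×ˢ range p).filter fun r : ℕ × ℕ × ℕ × ℕ =>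
    (p ∣ r.1 * r.2.1) ∧ p ∣ r.2.2.1 * r.2.2.2).card = (M4_Z p).card * (M4_Z p).card := by
  rw [← Finset.card_product]
  refine Finset.card_bij (fun r _ => ((r.1, r.2.1), (r.2.2.1, r.2.2.2))) ?_ ?_ ?_
  · rintro ⟨a, b, c, d⟩ hr
    rw [Finset.mem_filter, Finset.mem_product, Finset.mem_product, Finset.mem_product] at hr
    unfold M4_Z
    rw [Finset.mem_product, Finset.mem_filter, Finset.mem_filter, Finset.mem_product, Finset.mem_product]
    exact ⟨⟨⟨hr.1.1, hr.1.2.1⟩, hr.2.1⟩, ⟨⟨hr.1.2.2.1, hr.1.2.2.2⟩, hr.2.2⟩⟩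
  · rintro ⟨a, b, c, d⟩ hr ⟨a', b', c', d'⟩ hr' h
    simp only [Prod.mk.injEq] at h
    obtain ⟨⟨h1, h2⟩, k1, k2⟩ := h
    rw [h1, h2, k1, k2]
  · rintro ⟨⟨a, b⟩, ⟨c, d⟩⟩ hr
    unfold M4_Z at hr
    rw [Finset.mem_product, Finset.mem_filter, Finset.mem_filter, Finset.mem_product, Finset.mem_product] at hr
    refine ⟨(a, b, c, d), ?_, rfl⟩
    rw [Finset.mem_filter, Finset.mem_product, Finset.mem_product, Finset.mem_product]
    exact ⟨⟨hr.1.1.1, hr.1.1.2, hr.2.1.1, hr.2.1.2⟩, hr.1.2, hr.2.2⟩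

theorem M4_N_prime (p : ℕ) (hp : p.Prime) : (M4_Z p).card * (M4_Z p).card + (M4_N p).card = p ^ 4 := by
  have h1 := Finset.card_filter_add_card_filter_not (s := range p ×ˢ range p ×ˢ range p ×ˢ range p)
    (fun r : ℕ × ℕ × ℕ × ℕ => (p ∣ r.1 * r.2.1) ∧ p ∣ r.2.2.1 * r.2.2.2)
  rw [M4_bad_card, Finset.card_product, Finset.card_product, Finset.card_product, Finset.card_range] at h1
  have h2 : ((range p ×ˢ range p ×ˢ range p ×ˢ range p).filter fun r : ℕ × ℕ × ℕ × ℕ =>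
      ¬ ((p ∣ r.1 * r.2.1) ∧ p ∣ r.2.2.1 * r.2.2.2)) = M4_N p := by
    unfold M4_N
    refine Finset.filter_congr fun r _ => ?_
    rw [← Nat.dvd_gcd_iff, ← hp.coprime_iff_not_dvd, Nat.coprime_comm]
  rw [h2] at h1
  rw [h1]
  ring

theorem M4_rho_prime (p : ℕ) (hp : p.Prime) : rho p = fac p := by
  have h1 := M4_Z_card p hp
  have h2 := M4_N_prime p hp
  have hp1 : 1 ≤ p := hp.one_lt.le
  have hp0 : (p : ℝ) ≠ 0 := by
    have : 0 < p := hp1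
    exact_mod_cast this.ne'
  have e1 : ((M4_Z p).card : ℝ) + ((p : ℝ) - 1) ^ 2 = (p : ℝ) ^ 2 := by
    have : (((M4_Z p).card + (p - 1) ^ 2 : ℕ) : ℝ) = ((p ^ 2 : ℕ) : ℝ) := by rw [h1]
    push_cast [Nat.cast_sub hp1] at this
    exact this
  have e2 : ((M4_Z p).card : ℝ) * ((M4_Z p).card : ℝ) + ((M4_N p).card : ℝ) = (p : ℝ) ^ 4 := by
    exact_mod_cast h2
  have e3 : ((M4_Z p).card : ℝ) = 2 * (p : ℝ) - 1 := by linarith [e1, sq_nonneg (p : ℝ), (by ring : ((p : ℝ) - 1) ^ 2 = (p : ℝ) ^ 2 - 2 * (p : ℝ) + 1)]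
  rw [e3] at e2
  have e4 : ((M4_N p).card : ℝ) = (p : ℝ) ^ 4 - (2 * (p : ℝ) - 1) * (2 * (p : ℝ) - 1) := by linarith
  rw [M4_rho_eq, e4, fac]
  field_simp

theorem M4_rho_one : rho 1 = 1 := by
  rw [M4_rho_eq]
  have : M4_N 1 = {(0, 0, 0, 0)} := by decide
  rw [this]
  norm_num

theorem R_M4 : st_M4 := by
  intro y
  induction y with
  | zero =>
    rw [Nat.primesBelow_zero, Finset.prod_empty, Finset.prod_empty, M4_rho_one]
  | succ n ih =>
    by_cases hn : n.Prime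
    · rw [Nat.primesBelow_succ, if_pos hn]
      have hnot : n ∉ Nat.primesBelow n := Nat.notMem_primesBelow n
      rw [Finset.prod_insert hnot, Finset.prod_insert hnot, M4_rho_mul, ih, M4_rho_prime n hn]
      · exact hn.pos
      · exact Finset.prod_pos fun p hp => (Nat.prime_of_mem_primesBelow hp).pos
      · refine Nat.Coprime.prod_right fun p hp => ?_
        exact (Nat.coprime_primes hn (Nat.prime_of_mem_primesBelow hp)).2 (fun h => hnot (h ▸ hp))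
    · rw [Nat.primesBelow_succ, if_neg hn]
      exact ih

end Pool.Agent.DDD
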