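import Pool.Agent.DDD.Defs

set_option autoImplicit false

open Finset Real

namespace Pool.Agent.DDD

/-- union bound -/
theorem M5a_union {ι κ : Type*} (B : Finset ι) (I : Finset κ) (P : κ → ι → Prop)
    [DecidablePred fun t => ∃ p ∈ I, P p t] [∀ p, DecidablePred (P p)] (w : ι → ℝ)
    (hw : ∀ t ∈ B, 0 ≤ w t) :
    ∑ t ∈ B.filter (fun t => ∃ p ∈ I, P p t), w t ≤ ∑ p ∈ I, ∑ t ∈ B.filter (fun t => P p t), w t := by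
  have h1 : ∑ p ∈ I, ∑ t ∈ B.filter (fun t => P p t), w t =
      ∑ t ∈ B, ∑ p ∈ I, if P p t then w t else 0 := by
    rw [Finset.sum_comm]
    exact sum_congr rfl fun p _ => by rw [Finset.sum_filter]
  rw [h1, Finset.sum_filter]
  refine sum_le_sum fun t ht => ?_
  by_cases h : ∃ p ∈ I, P p t
  · rw [if_pos h]
    obtain ⟨p, hp, hpt⟩ := h
    have h2 := Finset.single_le_sum (f := fun p => if P p t then w t else 0) (s := I) (fun q _ => by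
      show 0 ≤ if P q t then w t else 0
      split_ifs
      · exact hw t ht
      · exact le_refl _) hp
    simp only [if_pos hpt] at h2
    exact h2
  · rw [if_neg h]
    refine sum_nonneg fun q _ => ?_
    split_ifs
    · exact hw t ht
    · exact le_refl _

theorem M5a_pos {x α η : ℝ} (hx : 1 ≤ x) (hα : 0 ≤ α) {a : ℕ} (h : a ∈ Iv x α η) : 0 < a := by
  have := one_lt_of_mem_Iv hx hα h
  omega

theorem M5a_sum_nonneg (A : Finset ℕ) : 0 ≤ ∑ a ∈ A, (1 : ℝ) / a := sum_nonneg fun a _ => by positivity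

theorem M5a_full (h2 : st_M2) {x α η : ℝ} (hx : 1 ≤ x) (hα : 0 ≤ α) (hη : 0 ≤ η) :
    ∑ a ∈ Iv x α η, (1 : ℝ) / a ≤ η * log x + 1 := by
  have h := h2 1 (le_refl 1) x α η hx hα hη
  rw [Finset.filter_true_of_mem (fun a _ => one_dvd a), Nat.cast_one, div_one] at h
  exact h

/-- product of four bounded sums -/
theorem M5a_prod4 (A B C D : Finset ℕ) (a b c d : ℝ) (hA : ∑ n ∈ A, (1 : ℝ) / n ≤ a)
    (hB : ∑ n ∈ B, (1 : ℝ) / n ≤ b) (hC : ∑ n ∈ C, (1 : ℝ) / n ≤ c) (hD : ∑ n ∈ D, (1 : ℝ) / n ≤ d) :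
    ∑ t ∈ A ×ˢ B ×ˢ C ×ˢ D, wt t ≤ a * b * c * d := by
  rw [sum_wt_product]
  have a0 := M5a_sum_nonneg A
  have b0 := M5a_sum_nonneg B
  have c0 := M5a_sum_nonneg C
  have d0 := M5a_sum_nonneg D
  have h1 := mul_le_mul hA hB b0 (a0.trans hA)
  have h2 := mul_le_mul h1 hC c0 (mul_nonneg (a0.trans hA) (b0.trans hB))
  exact mul_le_mul h2 hD d0 (mul_nonneg (mul_nonneg (a0.trans hA) (b0.trans hB)) (c0.trans hC))

theorem M5a_one (h2 : st_M2) (p : ℕ) (hp : p.Prime) (x α1 α2 β1 β2 η : ℝ) (hx : 1 ≤ x) (h1 : 0 ≤ α1)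
    (h2' : 0 ≤ α2) (h3 : 0 ≤ β1) (h4 : 0 ≤ β2) (hη : 0 ≤ η) :
    ∑ t ∈ (Bx x α1 α2 β1 β2 η).filter (fun t => p ∣ t.1 * t.2.1 ∧ p ∣ t.2.2.1 * t.2.2.2), wt t ≤
      4 * (η * log x + 1) ^ 4 * ((p : ℝ) ^ 2)⁻¹ := by
  have hp1 : 1 ≤ p := hp.one_lt.le
  have e1 := h2 p hp1 x α1 η hx h1 hη
  have e2 := h2 p hp1 x α2 η hx h2' hη
  have e3 := h2 p hp1 x β1 η hx h3 hη
  have e4 := h2 p hp1 x β2 η hx h4 hη
  have f1 := M5a_full h2 hx h1 hη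
  have f2 := M5a_full h2 hx h2' hη
  have f3 := M5a_full h2 hx h3 hη
  have f4 := M5a_full h2 hx h4 hη
  have g1 := M5a_prod4 _ _ _ _ _ _ _ _ e1 f2 e3 f4
  have g2 := M5a_prod4 _ _ _ _ _ _ _ _ e1 f2 f3 e4
  have g3 := M5a_prod4 _ _ _ _ _ _ _ _ f1 e2 e3 f4
  have g4 := M5a_prod4 _ _ _ _ _ _ _ _ f1 e2 f3 e4
  set E := η * log x + 1 with hE
  set T1 := (Iv x α1 η).filter (fun a => p ∣ a) ×ˢ Iv x α2 η ×ˢ (Iv x β1 η).filter (fun a => p ∣ a) ×ˢ Iv x β2 η with hT1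
  set T2 := (Iv x α1 η).filter (fun a => p ∣ a) ×ˢ Iv x α2 η ×ˢ Iv x β1 η ×ˢ (Iv x β2 η).filter (fun a => p ∣ a) with hT2
  set T3 := Iv x α1 η ×ˢ (Iv x α2 η).filter (fun a => p ∣ a) ×ˢ (Iv x β1 η).filter (fun a => p ∣ a) ×ˢ Iv x β2 η with hT3
  set T4 := Iv x α1 η ×ˢ (Iv x α2 η).filter (fun a => p ∣ a) ×ˢ Iv x β1 η ×ˢ (Iv x β2 η).filter (fun a => p ∣ a) with hT4
  have hsub : (Bx x α1 α2 β1 β2 η).filter (fun t => p ∣ t.1 * t.2.1 ∧ p ∣ t.2.2.1 * t.2.2.2) ⊆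
      (T1 ∪ T2) ∪ (T3 ∪ T4) := by
    rintro ⟨a, b, f, d⟩ ht
    rw [Finset.mem_filter, mem_Bx] at ht
    obtain ⟨⟨ha, hb, hf, hd⟩, hab, hfd⟩ := ht
    simp only at ha hb hf hd hab hfd
    simp only [hT1, hT2, hT3, hT4, Finset.mem_union, Finset.mem_product, Finset.mem_filter]
    rcases hp.dvd_mul.1 hab with h | h
    · rcases hp.dvd_mul.1 hfd with h' | h'
      · exact Or.inl (Or.inl ⟨⟨ha, h⟩, hb, ⟨hf, h'⟩, hd⟩)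
      · exact Or.inl (Or.inr ⟨⟨ha, h⟩, hb, hf, hd, h'⟩)
    · rcases hp.dvd_mul.1 hfd with h' | h'
      · exact Or.inr (Or.inl ⟨ha, ⟨hb, h⟩, ⟨hf, h'⟩, hd⟩)
      · exact Or.inr (Or.inr ⟨ha, ⟨hb, h⟩, hf, hd, h'⟩)
  have hun : ∀ U V : Finset (ℕ × ℕ × ℕ × ℕ), ∑ t ∈ U ∪ V, wt t ≤ ∑ t ∈ U, wt t + ∑ t ∈ V, wt t := by
    intro U V
    have h := Finset.sum_union_inter (s₁ := U) (s₂ := V) (f := wt)
    have h' : 0 ≤ ∑ t ∈ U ∩ V, wt t := sum_nonneg fun t _ => wt_nonneg t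
    linarith
  have k1 := Finset.sum_le_sum_of_subset_of_nonneg hsub (fun t _ _ => wt_nonneg t)
  have k2 := hun (T1 ∪ T2) (T3 ∪ T4)
  have k3 := hun T1 T2
  have k4 := hun T3 T4
  have hp0 : (p : ℝ) ≠ 0 := by
    have : 0 < p := hp1
    exact_mod_cast this.ne'
  have hfin : E / p * E * (E / p) * E + E / p * E * E * (E / p) + (E * (E / p) * (E / p) * E +
      E * (E / p) * E * (E / p)) = 4 * E ^ 4 * ((p : ℝ) ^ 2)⁻¹ := by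
    field_simp
    ring
  rw [← hfin]
  linarith

theorem M5a_tail (y M : ℕ) (hy : 1 ≤ y) : ∑ p ∈ Ico y M, ((p : ℝ) ^ 2)⁻¹ ≤ 2 / y := by
  have h := sum_Ioo_inv_sq_le (α := ℝ) (y - 1) M
  have e : Ioo (y - 1) M = Ico y M := by
    ext n
    rw [Finset.mem_Ioo, Finset.mem_Ico]
    omega
  rw [e, Nat.cast_sub hy, Nat.cast_one, sub_add_cancel] at h
  exact h

theorem M5a_mem (y : ℕ) (x α1 α2 β1 β2 η : ℝ) (hx : 1 ≤ x) (h1 : 0 ≤ α1)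
    (h2' : 0 ≤ α2) (t : ℕ × ℕ × ℕ × ℕ) (hB : t ∈ Bx x α1 α2 β1 β2 η) (p : ℕ) (hyp : y ≤ p)
    (hd1 : p ∣ t.1 * t.2.1) :
    p ∈ Ico y ((Bx x α1 α2 β1 β2 η).sup (fun t => t.1 * t.2.1) + 1) := by
  rw [Finset.mem_Ico]
  have hB' := mem_Bx.1 hB
  have hpos : 0 < t.1 * t.2.1 := Nat.mul_pos (M5a_pos hx h1 hB'.1) (M5a_pos hx h2' hB'.2.1)
  have hle := Nat.le_of_dvd hpos hd1
  have hsup : t.1 * t.2.1 ≤ (Bx x α1 α2 β1 β2 η).sup (fun t => t.1 * t.2.1) :=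
    Finset.le_sup (f := fun t : ℕ × ℕ × ℕ × ℕ => t.1 * t.2.1) hB
  exact ⟨hyp, Nat.lt_succ_of_le (hle.trans hsup)⟩

theorem M5a_sum2 (y M : ℕ) (hy : 1 ≤ y) (E : ℝ) : ∑ p ∈ Ico y M, 4 * E ^ 4 * ((p : ℝ) ^ 2)⁻¹ ≤ 8 / y * E ^ 4 := by
  rw [← mul_sum]
  have := mul_le_mul_of_nonneg_left (M5a_tail y M hy) (by positivity : 0 ≤ 4 * E ^ 4)
  refine this.trans (le_of_eq ?_)
  ring

theorem R_M5a (h2 : st_M2) : st_M5a := by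
  classical
  intro y hy x α1 α2 β1 β2 η hx h1 h2' h3 h4 hη
  have hmem := M5a_mem y x α1 α2 β1 β2 η hx h1 h2'
  generalize (Bx x α1 α2 β1 β2 η).sup (fun t => t.1 * t.2.1) + 1 = M at hmem
  have hs : ∑ t ∈ (Bx x α1 α2 β1 β2 η).filter
      (fun t => ∃ p : ℕ, p.Prime ∧ y ≤ p ∧ p ∣ t.1 * t.2.1 ∧ p ∣ t.2.2.1 * t.2.2.2), wt t ≤
      ∑ t ∈ (Bx x α1 α2 β1 β2 η).filter
      (fun t => ∃ p ∈ (Ico y M).filter Nat.Prime, p ∣ t.1 * t.2.1 ∧ p ∣ t.2.2.1 * t.2.2.2), wt t := by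
    refine Finset.sum_le_sum_of_subset_of_nonneg ?_ (fun t _ _ => wt_nonneg t)
    intro t ht
    rw [Finset.mem_filter] at ht ⊢
    obtain ⟨hB, p, hp, hyp, hd1, hd2⟩ := ht
    exact ⟨hB, p, Finset.mem_filter.2 ⟨hmem t hB p hyp hd1, hp⟩, hd1, hd2⟩
  have hu := M5a_union (Bx x α1 α2 β1 β2 η) ((Ico y M).filter Nat.Prime)
    (fun p (t : ℕ × ℕ × ℕ × ℕ) => p ∣ t.1 * t.2.1 ∧ p ∣ t.2.2.1 * t.2.2.2) wt (fun t _ => wt_nonneg t)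
  have hb2 : ∑ p ∈ (Ico y M).filter Nat.Prime, ∑ t ∈ (Bx x α1 α2 β1 β2 η).filter (fun t => p ∣ t.1 * t.2.1 ∧ p ∣ t.2.2.1 * t.2.2.2), wt t ≤
      ∑ p ∈ (Ico y M).filter Nat.Prime, 4 * (η * log x + 1) ^ 4 * ((p : ℝ) ^ 2)⁻¹ := by
    refine sum_le_sum fun p hp => ?_
    exact M5a_one h2 p (Finset.mem_filter.1 hp).2 x α1 α2 β1 β2 η hx h1 h2' h3 h4 hη
  have hb3 : ∑ p ∈ (Ico y M).filter Nat.Prime, 4 * (η * log x + 1) ^ 4 * ((p : ℝ) ^ 2)⁻¹ ≤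
      ∑ p ∈ Ico y M, 4 * (η * log x + 1) ^ 4 * ((p : ℝ) ^ 2)⁻¹ := by
    refine Finset.sum_le_sum_of_subset_of_nonneg (Finset.filter_subset _ _) (fun p _ _ => by positivity)
  have hb5 := M5a_sum2 y M (by omega) (η * log x + 1)
  exact (hs.trans hu).trans (hb2.trans (hb3.trans hb5))

end Pool.Agent.DDD
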