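import Pool.Agent.DDD.Defs

set_option autoImplicit false

namespace Pool.Agent.DDD

open Finset Real

theorem M5c_union {ι κ : Type} (B : Finset ι) (P : Finset κ) (w : ι → ℝ) (hw : ∀ t, 0 ≤ w t)
    (Q : ι → Prop) [DecidablePred Q] (R : κ → ι → Prop) [∀ p, DecidablePred (R p)]
    (h : ∀ t ∈ B, Q t → ∃ p ∈ P, R p t) :
    ∑ t ∈ B.filter Q, w t ≤ ∑ p ∈ P, ∑ t ∈ B.filter (R p), w t := by
  simp_rw [Finset.sum_filter]
  rw [Finset.sum_comm]
  refine Finset.sum_le_sum fun t ht => ?_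
  by_cases hQ : Q t
  · rw [if_pos hQ]
    obtain ⟨p, hp, hR⟩ := h t ht hQ
    calc w t = (fun p => if R p t then w t else 0) p := by
          simp only
          rw [if_pos hR]
      _ ≤ ∑ p ∈ P, (fun p => if R p t then w t else 0) p := by
          refine Finset.single_le_sum (f := fun p => if R p t then w t else 0)
            (fun q _ => ?_) hp
          split_ifs
          · exact hw t
          · exact le_rfl
  · rw [if_neg hQ]
    refine Finset.sum_nonneg fun p _ => ?_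
    split_ifs
    · exact hw t
    · exact le_rfl

/-- the weighted sum over the box with two divisibility conditions -/
theorem M5c_box (h2 : st_M2) {u v : ℕ} (hu : 1 ≤ u) (hv : 1 ≤ v) {x α1 α2 β1 β2 η : ℝ}
    (hx : 1 ≤ x) (h1 : 0 ≤ α1) (h3 : 0 ≤ α2) (h4 : 0 ≤ β1) (h5 : 0 ≤ β2) (h6 : 0 ≤ η) :
    ∑ t ∈ (Bx x α1 α2 β1 β2 η).filter (fun t => u ∣ t.1 ∧ v ∣ t.2.1), wt t ≤
      (η * log x + 1) ^ 4 / (u * v) := by
  have hL : 0 ≤ η * log x := mul_nonneg h6 (log_nonneg hx)
  have hH : 0 ≤ η * log x + 1 := by linarith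
  have hu' : (0 : ℝ) < u := by exact_mod_cast hu
  have hv' : (0 : ℝ) < v := by exact_mod_cast hv
  have hset : (Bx x α1 α2 β1 β2 η).filter (fun t => u ∣ t.1 ∧ v ∣ t.2.1) =
      ((Iv x α1 η).filter (fun a => u ∣ a)) ×ˢ ((Iv x α2 η).filter (fun b => v ∣ b)) ×ˢ
        Iv x β1 η ×ˢ Iv x β2 η := by
    ext t
    rw [Finset.mem_filter, mem_Bx, Finset.mem_product, Finset.mem_product, Finset.mem_product,
      Finset.mem_filter, Finset.mem_filter]
    tauto
  rw [hset, sum_wt_product]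
  have all : ∀ β : ℝ, 0 ≤ β → ∑ a ∈ Iv x β η, (1 : ℝ) / a ≤ η * log x + 1 := by
    intro β hβ
    have := h2 1 le_rfl x β η hx hβ h6
    rw [Finset.filter_true_of_mem (fun a _ => one_dvd a)] at this
    simpa using this
  have nn : ∀ A : Finset ℕ, 0 ≤ ∑ a ∈ A, (1 : ℝ) / a :=
    fun A => Finset.sum_nonneg fun a _ => by positivity
  have e1 := h2 u hu x α1 η hx h1 h6
  have e2 := h2 v hv x α2 η hx h3 h6
  have e3 := all β1 h4
  have e4 := all β2 h5
  calc (∑ a ∈ (Iv x α1 η).filter (fun a => u ∣ a), (1 : ℝ) / a) *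
        (∑ b ∈ (Iv x α2 η).filter (fun b => v ∣ b), (1 : ℝ) / b) *
        (∑ f ∈ Iv x β1 η, (1 : ℝ) / f) * (∑ d ∈ Iv x β2 η, (1 : ℝ) / d)
      ≤ ((η * log x + 1) / u) * ((η * log x + 1) / v) * (η * log x + 1) * (η * log x + 1) := by
        refine mul_le_mul (mul_le_mul (mul_le_mul e1 e2 (nn _) (by positivity)) e3 (nn _)
          (by positivity)) e4 (nn _) (by positivity)
    _ = (η * log x + 1) ^ 4 / (u * v) := by
        field_simp

theorem R_M5c (h2 : st_M2) : st_M5c := by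
  classical
  intro y k hk x α1 α2 β1 β2 η hx h1 h3 h4 h5 h6
  have hL : 0 ≤ η * log x := mul_nonneg h6 (log_nonneg hx)
  have hH : 0 ≤ η * log x + 1 := by linarith
  have hu := M5c_union (Bx x α1 α2 β1 β2 η) (range y) wt wt_nonneg
    (fun t => ∃ p : ℕ, p.Prime ∧ p < y ∧ p ^ k ∣ t.1 * t.2.1)
    (fun p t => p.Prime ∧ p ^ k ∣ t.1 * t.2.1) (by
      rintro t ht ⟨p, hp, hyp, hd⟩
      exact ⟨p, Finset.mem_range.2 hyp, hp, hd⟩)
  have hp : ∀ p ∈ range y,
      ∑ t ∈ (Bx x α1 α2 β1 β2 η).filter (fun t => p.Prime ∧ p ^ k ∣ t.1 * t.2.1), wt t ≤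
        (k + 1) / 2 ^ k * (η * log x + 1) ^ 4 := by
    intro p hpI
    by_cases hpr : p.Prime
    · have hp1 : 1 ≤ p := hpr.one_lt.le
      have hp0 : (0 : ℝ) < p := by exact_mod_cast hp1
      have hp2 : (2 : ℝ) ≤ p := by exact_mod_cast hpr.two_le
      have hu2 := M5c_union (Bx x α1 α2 β1 β2 η) (range (k + 1)) wt wt_nonneg
        (fun t => p.Prime ∧ p ^ k ∣ t.1 * t.2.1)
        (fun i t => p ^ i ∣ t.1 ∧ p ^ (k - i) ∣ t.2.1) (by
          rintro t ht ⟨hpr, hd⟩
          obtain ⟨u, v, hu, hv, huv⟩ := (Nat.dvd_mul).1 hd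
          have hup : u ∣ p ^ k := ⟨v, huv.symm⟩
          obtain ⟨i, hi, rfl⟩ := (Nat.dvd_prime_pow hpr).1 hup
          have hv' : v = p ^ (k - i) := by
            have h1 : p ^ i * v = p ^ i * p ^ (k - i) := by
              rw [huv, ← pow_add]
              congr 1
              omega
            exact Nat.eq_of_mul_eq_mul_left (pow_pos hpr.pos _) h1
          subst hv'
          exact ⟨i, Finset.mem_range.2 (by omega), hu, hv⟩)
      refine hu2.trans ?_
      have hb : ∀ i ∈ range (k + 1),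
          ∑ t ∈ (Bx x α1 α2 β1 β2 η).filter (fun t => p ^ i ∣ t.1 ∧ p ^ (k - i) ∣ t.2.1), wt t ≤
            (η * log x + 1) ^ 4 * (1 / 2 ^ k) := by
        intro i hi
        rw [Finset.mem_range] at hi
        refine (M5c_box h2 (u := p ^ i) (v := p ^ (k - i)) (Nat.one_le_pow _ _ hp1)
          (Nat.one_le_pow _ _ hp1) hx h1 h3 h4 h5 h6).trans ?_
        have e : ((p ^ i : ℕ) : ℝ) * ((p ^ (k - i) : ℕ) : ℝ) = (p : ℝ) ^ k := by
          push_cast
          rw [← pow_add]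
          congr 1
          omega
        rw [e, div_eq_mul_one_div]
        refine mul_le_mul_of_nonneg_left ?_ (by positivity)
        exact one_div_le_one_div_of_le (by positivity) (pow_le_pow_left₀ (by norm_num) hp2 k)
      refine (Finset.sum_le_card_nsmul _ _ _ hb).trans (le_of_eq ?_)
      rw [nsmul_eq_mul, Finset.card_range]
      push_cast
      ring
    · rw [Finset.filter_false_of_mem (fun t _ h => hpr h.1), Finset.sum_empty]
      positivity
  have hs : ∑ p ∈ range y,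
      ∑ t ∈ (Bx x α1 α2 β1 β2 η).filter (fun t => p.Prime ∧ p ^ k ∣ t.1 * t.2.1), wt t ≤
        y * (k + 1) / 2 ^ k * (η * log x + 1) ^ 4 := by
    refine (Finset.sum_le_card_nsmul _ _ _ hp).trans (le_of_eq ?_)
    rw [nsmul_eq_mul, Finset.card_range]
    ring
  refine le_trans (le_of_eq ?_) (hu.trans hs)
  refine Finset.sum_congr ?_ fun _ _ => rfl
  ext t
  simp only [Finset.mem_filter]

end Pool.Agent.DDD
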