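import Pool.Agent.DDD.Defs

set_option autoImplicit false

namespace Pool.Agent.DDD

open Finset Real

theorem R_M5d : st_M5d := by
  intro y k q hy hq h1 h2
  have hq0 : q ≠ 0 := by omega
  refine ⟨∏ p ∈ q.primeFactors.filter (fun p => p < y), p ^ q.factorization p,
    ∏ p ∈ q.primeFactors.filter (fun p => ¬ p < y), p ^ q.factorization p, ?_, ?_, ?_, ?_⟩
  · rw [Finset.prod_filter_mul_prod_filter_not]
    exact (Nat.prod_factorization_pow_eq_self hq0).symm
  · refine Nat.Coprime.prod_left ?_
    intro p hp
    refine Nat.Coprime.prod_right ?_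
    intro p' hp'
    rw [Finset.mem_filter, Nat.mem_primeFactors] at hp hp'
    refine Nat.Coprime.pow _ _ ?_
    refine (Nat.coprime_primes hp.1.1 hp'.1.1).2 ?_
    rintro rfl
    exact hp'.2 hp.2
  · rw [Nat.squarefree_iff_prime_squarefree]
    intro p hp hpp
    have hpr : p ∣ ∏ p ∈ q.primeFactors.filter (fun p => ¬ p < y), p ^ q.factorization p :=
      dvd_trans (dvd_mul_right p p) hpp
    rw [Prime.dvd_finsetProd_iff hp.prime] at hpr
    obtain ⟨l, hl, hl2⟩ := hpr
    rw [Finset.mem_filter, Nat.mem_primeFactors] at hl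
    have hpl : p = l := (Nat.prime_dvd_prime_iff_eq hp hl.1.1).1 (hp.dvd_of_dvd_pow hl2)
    subst hpl
    have hyp : y ≤ p := by omega
    refine h1 p hp hyp ?_
    rw [pow_two]
    refine dvd_trans hpp ?_
    have h3 : (∏ p ∈ q.primeFactors.filter (fun p => p < y), p ^ q.factorization p) *
        (∏ p ∈ q.primeFactors.filter (fun p => ¬ p < y), p ^ q.factorization p) = q := by
      rw [Finset.prod_filter_mul_prod_filter_not]
      exact Nat.prod_factorization_pow_eq_self hq0
    exact Dvd.intro_left _ h3
  · have h4 : ∀ p ∈ q.primeFactors.filter (fun p => p < y), p ^ q.factorization p ≤ y ^ k := by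
      intro p hp
      rw [Finset.mem_filter, Nat.mem_primeFactors] at hp
      have h5 : q.factorization p < k := by
        by_contra hc
        have hc' : k ≤ q.factorization p := by omega
        exact h2 p hp.1.1 hp.2 ((hp.1.1.pow_dvd_iff_le_factorization hq0).2 hc')
      calc p ^ q.factorization p ≤ p ^ k := Nat.pow_le_pow_right hp.1.1.pos h5.le
        _ ≤ y ^ k := Nat.pow_le_pow_left hp.2.le k
    have h6 : (q.primeFactors.filter (fun p => p < y)).card ≤ y := by
      calc (q.primeFactors.filter (fun p => p < y)).card ≤ (Finset.range y).card := by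
            refine Finset.card_le_card ?_
            intro p hp
            rw [Finset.mem_filter] at hp
            exact Finset.mem_range.2 hp.2
        _ = y := Finset.card_range y
    have hyk : 1 ≤ y ^ k := Nat.one_le_pow _ _ hy
    calc ∏ p ∈ q.primeFactors.filter (fun p => p < y), p ^ q.factorization p
        ≤ ∏ _p ∈ q.primeFactors.filter (fun p => p < y), y ^ k := Finset.prod_le_prod' h4
      _ = (y ^ k) ^ (q.primeFactors.filter (fun p => p < y)).card := by rw [Finset.prod_const]
      _ ≤ (y ^ k) ^ y := Nat.pow_le_pow_right hyk h6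
      _ = y ^ (y * k) := by rw [← pow_mul, mul_comm]

end Pool.Agent.DDD
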