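import Pool.Agent.DDD.Defs

set_option autoImplicit false

open Finset Real

namespace Pool.Agent.DDD

theorem M6_split {ι : Type*} (s : Finset ι) (w : ι → ℝ) (hw : ∀ i, 0 ≤ w i)
    (p q a b c : ι → Prop) [DecidablePred p] [DecidablePred q] [DecidablePred a] [DecidablePred b]
    [DecidablePred c] (h : ∀ t ∈ s, p t → q t ∨ a t ∨ b t ∨ c t) :
    ∑ t ∈ s.filter p, w t ≤ ∑ t ∈ s.filter q, w t + ∑ t ∈ s.filter a, w t + ∑ t ∈ s.filter b, w t +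
      ∑ t ∈ s.filter c, w t := by
  rw [sum_filter, sum_filter, sum_filter, sum_filter, sum_filter, ← sum_add_distrib,
    ← sum_add_distrib, ← sum_add_distrib]
  refine sum_le_sum fun t ht => ?_
  have h0 := hw t
  have h1 := h t ht
  by_cases hp : p t
  · rw [if_pos hp]
    have hq' : (0 : ℝ) ≤ if q t then w t else 0 := by split_ifs <;> simp [h0]
    have ha' : (0 : ℝ) ≤ if a t then w t else 0 := by split_ifs <;> simp [h0]
    have hb' : (0 : ℝ) ≤ if b t then w t else 0 := by split_ifs <;> simp [h0]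
    have hc' : (0 : ℝ) ≤ if c t then w t else 0 := by split_ifs <;> simp [h0]
    rcases h1 hp with h2 | h2 | h2 | h2
    · rw [if_pos h2]; linarith
    · rw [if_pos h2]; linarith
    · rw [if_pos h2]; linarith
    · rw [if_pos h2]; linarith
  · rw [if_neg hp]
    have hq' : (0 : ℝ) ≤ if q t then w t else 0 := by split_ifs <;> simp [h0]
    have ha' : (0 : ℝ) ≤ if a t then w t else 0 := by split_ifs <;> simp [h0]
    have hb' : (0 : ℝ) ≤ if b t then w t else 0 := by split_ifs <;> simp [h0]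
    have hc' : (0 : ℝ) ≤ if c t then w t else 0 := by split_ifs <;> simp [h0]
    linarith

/-- choice of `k` -/
theorem M6_exists_k (y : ℕ) (ε : ℝ) (hε : 0 < ε) :
    ∃ k : ℕ, 1 ≤ k ∧ (y : ℝ) * ((k : ℝ) + 1) / 2 ^ k ≤ ε := by
  have h1 : Filter.Tendsto (fun n : ℕ => (n : ℝ) ^ 1 * (1 / 2 : ℝ) ^ n) Filter.atTop (nhds 0) :=
    tendsto_pow_const_mul_const_pow_of_abs_lt_one 1 (by rw [abs_of_pos] <;> norm_num)
  have h2 : Filter.Tendsto (fun n : ℕ => (1 / 2 : ℝ) ^ n) Filter.atTop (nhds 0) :=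
    tendsto_pow_atTop_nhds_zero_of_lt_one (by norm_num) (by norm_num)
  have h3 : Filter.Tendsto (fun n : ℕ => (y : ℝ) * ((n : ℝ) ^ 1 * (1 / 2 : ℝ) ^ n + (1 / 2 : ℝ) ^ n))
      Filter.atTop (nhds ((y : ℝ) * (0 + 0))) := (h1.add h2).const_mul _
  rw [add_zero, mul_zero] at h3
  have h4 := (h3.eventually (gt_mem_nhds hε)).and (Filter.eventually_ge_atTop 1)
  obtain ⟨k, hk, hk1⟩ := h4.exists
  refine ⟨k, hk1, ?_⟩
  have h5 : (y : ℝ) * ((k : ℝ) + 1) / 2 ^ k =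
      (y : ℝ) * ((k : ℝ) ^ 1 * (1 / 2 : ℝ) ^ k + (1 / 2 : ℝ) ^ k) := by
    rw [pow_one, one_div, inv_pow, div_eq_mul_inv]
    ring
  rw [h5]
  exact hk.le

theorem M6_pow_bound {T : ℝ} (hT : 6 ≤ T) : (T + 1) ^ 4 ≤ 2 * T ^ 4 := by
  have h1 : T + 1 ≤ 7 / 6 * T := by linarith
  have h2 : (T + 1) ^ 4 ≤ (7 / 6 * T) ^ 4 := pow_le_pow_left₀ (by linarith) h1 4
  have h3 : (7 / 6 * T) ^ 4 = 2401 / 1296 * T ^ 4 := by ring
  have h4 : 0 ≤ T ^ 4 := by positivity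
  rw [h3] at h2
  linarith

theorem R_M6 (hP : st_P1) (h3 : st_M3) (h4 : st_M4) (h5a : st_M5a) (h5b : st_M5b) (h5c : st_M5c)
    (h5d : st_M5d) : st_M6 := by
  classical
  intro α1 α2 β1 β2 η hα1 hα2 hβ1 hβ2 hη δ hδ
  obtain ⟨y0, hy0⟩ := exists_nat_gt (14 * 16 / δ)
  set y : ℕ := y0 + 2 with hy
  have hy2 : 2 ≤ y := by omega
  have hyR : (0 : ℝ) < (y : ℝ) := by
    have : 0 < y := by omega
    exact_mod_cast this
  have hy14 : 14 / (y : ℝ) ≤ δ / 16 := by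
    rw [div_le_div_iff₀ hyR (by norm_num)]
    have h1 : 14 * 16 / δ < (y : ℝ) := by
      have : (y0 : ℝ) ≤ (y : ℝ) := by
        have : y0 ≤ y := by omega
        exact_mod_cast this
      linarith
    rw [div_lt_iff₀ hδ] at h1
    linarith
  obtain ⟨k, hk1, hk⟩ := M6_exists_k y (δ / 16) (by positivity)
  set W : ℕ := ∏ p ∈ Nat.primesBelow y, p with hW
  have hW1 : 1 ≤ W := by
    rw [hW]
    exact Nat.succ_le_of_lt (Finset.prod_pos fun p hp => (Nat.prime_of_mem_primesBelow hp).pos)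
  obtain ⟨X1, hX1⟩ := h3 W hW1 α1 α2 β1 β2 η hα1 hα2 hβ1 hβ2 hη (δ / 4) (by positivity)
  refine ⟨y ^ (y * k), Nat.one_le_pow _ _ (by omega), max X1 (max 1 (exp (6 / η))), fun x hx => ?_⟩
  have hxX1 : X1 ≤ x := (le_max_left _ _).trans hx
  have hx1 : 1 ≤ x := (le_max_left _ _).trans ((le_max_right _ _).trans hx)
  have hxe : exp (6 / η) ≤ x := (le_max_right _ _).trans ((le_max_right _ _).trans hx)
  have hL : 6 / η ≤ log x := by
    rw [Real.le_log_iff_exp_le (by linarith)]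
    exact hxe
  have hT : 6 ≤ η * log x := by
    rw [div_le_iff₀ hη] at hL
    linarith
  have hT4 := M6_pow_bound hT
  have hTp : 0 ≤ (η * log x) ^ 4 := by positivity
  have hTp1 : 0 ≤ (η * log x + 1) ^ 4 := by positivity
  have e3 := hX1 x hxX1
  have ea := h5a y hy2 x α1 α2 β1 β2 η hx1 hα1 hα2 hβ1 hβ2 hη.le
  have eb := h5b y hy2 x α1 α2 β1 β2 η hx1 hα1 hα2 hβ1 hβ2 hη.le
  have ec := h5c y k hk1 x α1 α2 β1 β2 η hx1 hα1 hα2 hβ1 hβ2 hη.le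
  have hrho : PP ≤ rho W := by
    rw [hW, h4 y]
    exact hP.2.2 y
  have hsplit := M6_split (Bx x α1 α2 β1 β2 η) wt wt_nonneg
    (fun t => Nat.gcd (Nat.gcd (t.1 * t.2.1) (t.2.2.1 * t.2.2.2)) W = 1)
    (fun t => Nat.Coprime (t.1 * t.2.1) (t.2.2.1 * t.2.2.2) ∧ Gd (y ^ (y * k)) (t.1 * t.2.1))
    (fun t => ∃ p : ℕ, p.Prime ∧ y ≤ p ∧ p ∣ t.1 * t.2.1 ∧ p ∣ t.2.2.1 * t.2.2.2)
    (fun t => ∃ p : ℕ, p.Prime ∧ y ≤ p ∧ p ^ 2 ∣ t.1 * t.2.1)
    (fun t => ∃ p : ℕ, p.Prime ∧ p < y ∧ p ^ k ∣ t.1 * t.2.1) (by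
      intro t ht hp
      rw [mem_Bx] at ht
      obtain ⟨ht1, ht2, -, -⟩ := ht
      by_cases ha : ∃ p : ℕ, p.Prime ∧ y ≤ p ∧ p ∣ t.1 * t.2.1 ∧ p ∣ t.2.2.1 * t.2.2.2
      · exact Or.inr (Or.inl ha)
      by_cases hb : ∃ p : ℕ, p.Prime ∧ y ≤ p ∧ p ^ 2 ∣ t.1 * t.2.1
      · exact Or.inr (Or.inr (Or.inl hb))
      by_cases hc : ∃ p : ℕ, p.Prime ∧ p < y ∧ p ^ k ∣ t.1 * t.2.1
      · exact Or.inr (Or.inr (Or.inr hc))
      refine Or.inl ⟨?_, ?_⟩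
      · refine Nat.coprime_of_dvd fun p hpp h1 h2 => ?_
        by_cases hpy : y ≤ p
        · exact ha ⟨p, hpp, hpy, h1, h2⟩
        · have hpW : p ∣ W := by
            rw [hW]
            exact Finset.dvd_prod_of_mem (fun p => p)
              (Nat.mem_primesBelow.2 ⟨not_le.1 hpy, hpp⟩)
          have h6 : p ∣ Nat.gcd (Nat.gcd (t.1 * t.2.1) (t.2.2.1 * t.2.2.2)) W :=
            Nat.dvd_gcd (Nat.dvd_gcd h1 h2) hpW
          rw [hp] at h6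
          exact hpp.one_lt.ne' (Nat.dvd_one.1 h6)
      · have h7 := one_lt_of_mem_Iv hx1 hα1 ht1
        have h8 := one_lt_of_mem_Iv hx1 hα2 ht2
        refine h5d y k (t.1 * t.2.1) (by omega) (Nat.succ_le_of_lt (by positivity)) ?_ ?_
        · intro p hpp hpy hd
          exact hb ⟨p, hpp, hpy, hd⟩
        · intro p hpp hpy hd
          exact hc ⟨p, hpp, hpy, hd⟩)
  have e1 : 8 / (y : ℝ) * (η * log x + 1) ^ 4 + 6 / (y : ℝ) * (η * log x + 1) ^ 4 ≤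
      δ / 16 * (2 * (η * log x) ^ 4) := by
    have h9 : 8 / (y : ℝ) * (η * log x + 1) ^ 4 + 6 / (y : ℝ) * (η * log x + 1) ^ 4 =
        14 / (y : ℝ) * (η * log x + 1) ^ 4 := by ring
    rw [h9]
    exact mul_le_mul hy14 hT4 hTp1 (by positivity)
  have e2 : (y : ℝ) * ((k : ℝ) + 1) / 2 ^ k * (η * log x + 1) ^ 4 ≤
      δ / 16 * (2 * (η * log x) ^ 4) := mul_le_mul hk hT4 hTp1 (by positivity)
  have e4 : (PP - δ / 4) * (η * log x) ^ 4 ≤ (rho W - δ / 4) * (η * log x) ^ 4 :=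
    mul_le_mul_of_nonneg_right (by linarith) hTp
  have e5 : 0 ≤ δ * (η * log x) ^ 4 := by positivity
  nlinarith [hsplit, e1, e2, e3, e4, e5, ea, eb, ec]

end Pool.Agent.DDD
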