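import Pool.Agent.DDD.Defs

/-!
# [DDD-P1] the Euler product
-/

set_option autoImplicit false

namespace Pool.Agent.DDD

open Finset Real

theorem P1_fac_bounds (p : ℕ) (hp : 2 ≤ p) : 7 / 16 ≤ fac p ∧ fac p ≤ 1 ∧ 1 - fac p ≤ 4 / (p : ℝ) ^ 2 := by
  have h2 : (2 : ℝ) ≤ (p : ℝ) := by exact_mod_cast hp
  have hp0 : (0 : ℝ) < (p : ℝ) := by linarith
  set u : ℝ := 1 / (p : ℝ) with hu
  have hu0 : 0 < u := by positivity
  have hu1 : u ≤ 1 / 2 := one_div_le_one_div_of_le (by norm_num) h2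
  have e : fac p = 1 - (2 * u - u ^ 2) ^ 2 := by
    unfold fac
    rw [hu]
    ring
  have e2 : (4 : ℝ) / (p : ℝ) ^ 2 = 4 * u ^ 2 := by
    rw [hu]
    ring
  have a0 : 0 ≤ 2 * u - u ^ 2 := by nlinarith
  have a1 : 2 * u - u ^ 2 ≤ 3 / 4 := by nlinarith [sq_nonneg (u - 1 / 2)]
  have a2 : 2 * u - u ^ 2 ≤ 2 * u := by nlinarith
  refine ⟨?_, ?_, ?_⟩
  · rw [e]
    nlinarith
  · rw [e]
    nlinarith [sq_nonneg (2 * u - u ^ 2)]
  · rw [e, e2]
    nlinarith

theorem P1_summable_log : Summable fun p : Nat.Primes => log (fac (p : ℕ)) := by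
  have h1 : Summable fun p : Nat.Primes => (4 : ℝ) / ((p : ℕ) : ℝ) ^ 2 := by
    have h0 : Summable fun n : ℕ => (4 : ℝ) / (n : ℝ) ^ 2 := by
      have := (Real.summable_one_div_nat_pow.2 (by norm_num : 1 < 2)).mul_left 4
      refine this.congr fun n => ?_
      ring
    exact h0.comp_injective (f := fun n : ℕ => (4 : ℝ) / (n : ℝ) ^ 2) (i := fun p : Nat.Primes => (p : ℕ)) Nat.Primes.coe_nat_injective
  have h2 : Summable fun p : Nat.Primes => (fac (p : ℕ) - 1) := by
    refine Summable.of_norm_bounded h1 fun p => ?_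
    obtain ⟨b1, b2, b3⟩ := P1_fac_bounds p p.2.two_le
    rw [Real.norm_eq_abs, abs_le]
    constructor <;> linarith
  have h3 := Real.summable_log_one_add_of_summable h2
  refine h3.congr fun p => ?_
  rw [add_sub_cancel]

theorem R_P1 : st_P1 := by
  have hpos : ∀ p : Nat.Primes, 0 < fac (p : ℕ) := fun p => by
    obtain ⟨b1, b2, b3⟩ := P1_fac_bounds p p.2.two_le
    linarith
  have hs := P1_summable_log
  have hm : Multipliable fun p : Nat.Primes => fac (p : ℕ) := Real.multipliable_of_summable_log hpos hs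
  have he : rexp (∑' p : Nat.Primes, log (fac (p : ℕ))) = PP := Real.rexp_tsum_eq_tprod hpos hs
  refine ⟨?_, hm, ?_⟩
  · rw [← he]
    exact exp_pos _
  · intro y
    classical
    have hinj : Set.InjOn (fun p : Nat.Primes => (p : ℕ)) (Set.univ) := fun a _ b _ h => Nat.Primes.coe_nat_injective h
    set s : Finset Nat.Primes := (Nat.primesBelow y).attach.image
      (fun q => (⟨q.1, Nat.prime_of_mem_primesBelow q.2⟩ : Nat.Primes)) with hsdef
    have e1 : ∏ p ∈ Nat.primesBelow y, fac p = ∏ p ∈ s, fac (p : ℕ) := by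
      rw [hsdef, Finset.prod_image]
      · rw [← Finset.prod_attach]
      · intro a _ b _ h
        have h' : a.1 = b.1 := congrArg (fun q : Nat.Primes => (q : ℕ)) h
        exact Subtype.ext h'
    rw [e1, ← he]
    have e2 : ∏ p ∈ s, fac (p : ℕ) = rexp (∑ p ∈ s, log (fac (p : ℕ))) := by
      rw [Real.exp_sum]
      exact prod_congr rfl fun p _ => (exp_log (hpos p)).symm
    rw [e2]
    refine exp_le_exp.2 ?_
    have h4 := hs.neg.sum_le_tsum s (fun p _ => by
      obtain ⟨b1, b2, b3⟩ := P1_fac_bounds p p.2.two_le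
      have := log_nonpos (by linarith) b2
      linarith)
    rw [tsum_neg, sum_neg_distrib] at h4
    linarith

end Pool.Agent.DDD
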