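import Pool.Agent.DDD.Defs

set_option autoImplicit false

namespace Pool.Agent.DDD

open Finset Real

/-- the triples with product `n` -/
def S1_D (n : ℕ) : Finset (ℕ × ℕ × ℕ) :=
  (n.divisors ×ˢ n.divisors ×ˢ n.divisors).filter fun t => t.1 * t.2.1 * t.2.2 = n

theorem S1_mem {n : ℕ} {t : ℕ × ℕ × ℕ} : t ∈ S1_D n ↔ n ≠ 0 ∧ t.1 * t.2.1 * t.2.2 = n := by
  unfold S1_D
  rw [Finset.mem_filter, Finset.mem_product, Finset.mem_product, Nat.mem_divisors,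
    Nat.mem_divisors, Nat.mem_divisors]
  constructor
  · rintro ⟨⟨⟨_, h⟩, _⟩, h'⟩
    exact ⟨h, h'⟩
  · rintro ⟨h, h'⟩
    refine ⟨⟨⟨?_, h⟩, ⟨?_, h⟩, ⟨?_, h⟩⟩, h'⟩
    · exact ⟨t.2.1 * t.2.2, by rw [← h']; ring⟩
    · exact ⟨t.1 * t.2.2, by rw [← h']; ring⟩
    · exact ⟨t.1 * t.2.1, by rw [← h']; ring⟩

theorem S1_card (n : ℕ) : d3 n = (S1_D n).card := rfl

/-- the increasing triples with product `n` -/
def S1_O (n : ℕ) : Finset (ℕ × ℕ × ℕ) := (S1_D n).filter fun t => t.1 < t.2.1 ∧ t.2.1 < t.2.2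

theorem S1_perm (n : ℕ) (P : ℕ × ℕ × ℕ → Prop) [DecidablePred P]
    (φ ψ : ℕ × ℕ × ℕ → ℕ × ℕ × ℕ) (hφ : ∀ t, ψ (φ t) = t) (hψ : ∀ t, φ (ψ t) = t)
    (hP : ∀ t, (t.1 < t.2.1 ∧ t.2.1 < t.2.2) ↔ P (φ t))
    (hm : ∀ t, (φ t).1 * (φ t).2.1 * (φ t).2.2 = t.1 * t.2.1 * t.2.2) :
    (S1_O n).card = ((S1_D n).filter P).card := by
  refine Finset.card_nbij' φ ψ ?_ ?_ ?_ ?_
  · intro t ht
    have h := Finset.mem_coe.1 ht
    unfold S1_O at h
    rw [Finset.mem_filter, S1_mem] at h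
    refine Finset.mem_coe.2 (Finset.mem_filter.2 ⟨S1_mem.2 ⟨h.1.1, ?_⟩, (hP t).1 h.2⟩)
    rw [hm]
    exact h.1.2
  · intro t ht
    have h := Finset.mem_coe.1 ht
    rw [Finset.mem_filter, S1_mem] at h
    unfold S1_O
    refine Finset.mem_coe.2 (Finset.mem_filter.2 ⟨S1_mem.2 ⟨h.1.1, ?_⟩, ?_⟩)
    · rw [← hm, hψ]
      exact h.1.2
    · rw [hP, hψ]
      exact h.2
  · intro t _
    exact hφ t
  · intro t _
    exact hψ t

theorem S1_six (n : ℕ) : 6 * (S1_O n).card ≤ d3 n := by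
  rw [S1_card]
  have h1 := S1_perm n (fun t => t.1 < t.2.2 ∧ t.2.2 < t.2.1) (fun t => (t.1, t.2.2, t.2.1))
    (fun t => (t.1, t.2.2, t.2.1)) (fun t => rfl) (fun t => rfl) (fun t => Iff.rfl)
    (fun t => by ring)
  have h2 := S1_perm n (fun t => t.2.1 < t.1 ∧ t.1 < t.2.2) (fun t => (t.2.1, t.1, t.2.2))
    (fun t => (t.2.1, t.1, t.2.2)) (fun t => rfl) (fun t => rfl) (fun t => Iff.rfl)
    (fun t => by ring)
  have h3 := S1_perm n (fun t => t.2.2 < t.2.1 ∧ t.2.1 < t.1) (fun t => (t.2.2, t.2.1, t.1))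
    (fun t => (t.2.2, t.2.1, t.1)) (fun t => rfl) (fun t => rfl) (fun t => Iff.rfl)
    (fun t => by ring)
  have h4 := S1_perm n (fun t => t.2.1 < t.2.2 ∧ t.2.2 < t.1) (fun t => (t.2.2, t.1, t.2.1))
    (fun t => (t.2.1, t.2.2, t.1)) (fun t => rfl) (fun t => rfl) (fun t => Iff.rfl)
    (fun t => by ring)
  have h5 := S1_perm n (fun t => t.2.2 < t.1 ∧ t.1 < t.2.1) (fun t => (t.2.1, t.2.2, t.1))
    (fun t => (t.2.2, t.1, t.2.1)) (fun t => rfl) (fun t => rfl) (fun t => Iff.rfl)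
    (fun t => by ring)
  have h0 : (S1_O n).card = ((S1_D n).filter fun t => t.1 < t.2.1 ∧ t.2.1 < t.2.2).card := rfl
  have key : ((S1_D n).filter fun t => t.1 < t.2.1 ∧ t.2.1 < t.2.2).card +
      ((S1_D n).filter fun t => t.1 < t.2.2 ∧ t.2.2 < t.2.1).card +
      ((S1_D n).filter fun t => t.2.1 < t.1 ∧ t.1 < t.2.2).card +
      ((S1_D n).filter fun t => t.2.2 < t.2.1 ∧ t.2.1 < t.1).card +
      ((S1_D n).filter fun t => t.2.1 < t.2.2 ∧ t.2.2 < t.1).card +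
      ((S1_D n).filter fun t => t.2.2 < t.1 ∧ t.1 < t.2.1).card ≤ (S1_D n).card := by
    simp only [Finset.card_filter]
    rw [← Finset.sum_add_distrib, ← Finset.sum_add_distrib, ← Finset.sum_add_distrib,
      ← Finset.sum_add_distrib, ← Finset.sum_add_distrib, Finset.card_eq_sum_ones]
    refine Finset.sum_le_sum fun t _ => ?_
    split_ifs <;> omega
  rw [← h1, ← h2, ← h3, ← h4, ← h5, ← h0] at key
  omega

theorem R_S1 : st_S1 := by
  intro x hx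
  have h1 : (Tset x).card ≤ ∑ n ∈ Icc 1 ⌊x⌋₊, (S1_O n).card * (S1_O (n + 1)).card := by
    have hmaps : ∀ t ∈ Tset x, t.1 * t.2.1 * t.2.2.1 ∈ Icc 1 ⌊x⌋₊ := by
      intro t ht
      unfold Tset at ht
      rw [Finset.mem_filter] at ht
      obtain ⟨_, g1, g2, g3, _, _, _, _, g4⟩ := ht
      rw [Finset.mem_Icc]
      refine ⟨?_, g4⟩
      have : 0 < t.1 * t.2.1 * t.2.2.1 :=
        Nat.mul_pos (Nat.mul_pos g1 (lt_trans g1 g2)) (lt_trans (lt_trans g1 g2) g3)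
      omega
    rw [Finset.card_eq_sum_card_fiberwise (f := fun t : ℕ × ℕ × ℕ × ℕ × ℕ × ℕ =>
      t.1 * t.2.1 * t.2.2.1) (t := Icc 1 ⌊x⌋₊) (fun t ht => Finset.mem_coe.2 (hmaps t (Finset.mem_coe.1 ht)))]
    refine Finset.sum_le_sum fun n hn => ?_
    rw [← Finset.card_product]
    refine Finset.card_le_card_of_injOn (fun t => ((t.1, t.2.1, t.2.2.1), (t.2.2.2.1, t.2.2.2.2.1,
      t.2.2.2.2.2))) ?_ ?_
    · intro t ht
      have ht' := Finset.mem_coe.1 ht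
      rw [Finset.mem_filter] at ht'
      obtain ⟨ht1, ht2⟩ := ht'
      unfold Tset at ht1
      rw [Finset.mem_filter] at ht1
      obtain ⟨_, g1, g2, g3, g5, g6, g7, g8, g4⟩ := ht1
      have hn0 : n ≠ 0 := by
        have := (Finset.mem_Icc.1 hn).1
        omega
      refine Finset.mem_coe.2 (Finset.mem_product.2 ⟨?_, ?_⟩)
      · unfold S1_O
        exact Finset.mem_filter.2 ⟨S1_mem.2 ⟨hn0, ht2⟩, g2, g3⟩
      · unfold S1_O
        refine Finset.mem_filter.2 ⟨S1_mem.2 ⟨by omega, ?_⟩, g6, g7⟩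
        rw [← ht2]
        exact g8.symm
    · intro t _ t' _ h
      simp only [Prod.mk.injEq] at h
      obtain ⟨⟨a1, a2, a3⟩, a4, a5, a6⟩ := h
      exact Prod.ext a1 (Prod.ext a2 (Prod.ext a3 (Prod.ext a4 (Prod.ext a5 a6))))
  have h2 : 36 * (Tset x).card ≤ ∑ n ∈ Icc 1 ⌊x⌋₊, d3 n * d3 (n + 1) := by
    calc 36 * (Tset x).card ≤ 36 * ∑ n ∈ Icc 1 ⌊x⌋₊, (S1_O n).card * (S1_O (n + 1)).card :=
          Nat.mul_le_mul_left _ h1
      _ = ∑ n ∈ Icc 1 ⌊x⌋₊, (6 * (S1_O n).card) * (6 * (S1_O (n + 1)).card) := by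
          rw [Finset.mul_sum]
          refine Finset.sum_congr rfl fun n _ => ?_
          ring
      _ ≤ _ := Finset.sum_le_sum fun n _ => Nat.mul_le_mul (S1_six n) (S1_six (n + 1))
  unfold S
  exact_mod_cast h2

end Pool.Agent.DDD
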