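import Pool.Agent.DDD.Defs

set_option autoImplicit false

namespace Pool.Agent.DDD

open Finset Real

theorem S2_index {x : ℝ} (hx : 1 ≤ x) {N i j a : ℕ} (hN : 1 ≤ N)
    (hi : a ∈ Iv x ((i : ℝ) / N) (1 / N)) (hj : a ∈ Iv x ((j : ℝ) / N) (1 / N)) : i ≤ j := by
  by_contra hij
  push Not at hij
  have h0 : (0 : ℝ) ≤ x := by linarith
  have hN' : (0 : ℝ) < (N : ℝ) := by exact_mod_cast hN
  have h1 := ((mem_Iv h0).1 hi).1
  have h2 := ((mem_Iv h0).1 hj).2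
  have h3 : (j : ℝ) / N + 1 / N ≤ (i : ℝ) / N := by
    rw [← add_div]
    exact div_le_div_of_nonneg_right (by exact_mod_cast hij) hN'.le
  have h4 : x ^ ((j : ℝ) / N + 1 / N) ≤ x ^ ((i : ℝ) / N) := rpow_le_rpow_of_exponent_le hx h3
  linarith

theorem R_S2 : st_S2 := by
  intro N hN G x hx
  have hdisj : ∀ g ∈ G, ∀ g' ∈ G, g ≠ g' →
      Disjoint (TB x ((g.1 : ℝ) / N) ((g.2.1 : ℝ) / N) ((g.2.2.1 : ℝ) / N) ((g.2.2.2 : ℝ) / N) (1 / N))
        (TB x ((g'.1 : ℝ) / N) ((g'.2.1 : ℝ) / N) ((g'.2.2.1 : ℝ) / N) ((g'.2.2.2 : ℝ) / N) (1 / N)) := by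
    intro g _ g' _ hne
    rw [Finset.disjoint_left]
    intro t ht ht'
    unfold TB at ht ht'
    rw [Finset.mem_filter] at ht ht'
    obtain ⟨_, h1, h2, h3, h4⟩ := ht
    obtain ⟨_, h1', h2', h3', h4'⟩ := ht'
    apply hne
    refine Prod.ext ?_ (Prod.ext ?_ (Prod.ext ?_ ?_))
    · exact le_antisymm (S2_index hx hN h1 h1') (S2_index hx hN h1' h1)
    · exact le_antisymm (S2_index hx hN h2 h2') (S2_index hx hN h2' h2)
    · exact le_antisymm (S2_index hx hN h3 h3') (S2_index hx hN h3' h3)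
    · exact le_antisymm (S2_index hx hN h4 h4') (S2_index hx hN h4' h4)
  rw [← Finset.card_biUnion hdisj]
  refine Finset.card_le_card ?_
  intro t ht
  rw [Finset.mem_biUnion] at ht
  obtain ⟨g, _, hg⟩ := ht
  unfold TB at hg
  exact (Finset.mem_filter.1 hg).1

end Pool.Agent.DDD
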