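import Pool.Agent.DDD.Defs
import Pool.Agent.Lib.helper69.DivisorBound

set_option autoImplicit false

namespace Pool.Agent.DDD

open Finset Real

theorem R_T1 : st_T1 := by
  intro ε hε
  obtain ⟨C, hC, h⟩ := Pool.Agent.Lib.helper69.card_divisors_le_rpow ε hε
  exact ⟨C, by linarith, h⟩

end Pool.Agent.DDD
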