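import Pool.Agent.DDD.Defs2

/-!
# [DDD] row X1: the double integral
-/

set_option autoImplicit false

namespace Pool.Agent.DDD

open Finset Real

theorem X1_le {f : ℝ → ℝ} (hf : Continuous f) {u v : ℝ} (c0 c1 c2 c3 : ℝ) (huv : u ≤ v)
    (h : ∀ s, u ≤ s → s ≤ v → f s ≤ c0 + c1 * s + c2 * s ^ 2 + c3 * s ^ 3) :
    ∫ s in u..v, f s ≤ c0 * (v - u) + c1 * (v ^ 2 - u ^ 2) / 2 + c2 * (v ^ 3 - u ^ 3) / 3 +
      c3 * (v ^ 4 - u ^ 4) / 4 := by
  have hg : Continuous fun s : ℝ => c0 + c1 * s + c2 * s ^ 2 + c3 * s ^ 3 := by fun_prop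
  have h1 : ∫ s in u..v, (c0 + c1 * s + c2 * s ^ 2 + c3 * s ^ 3) =
      c0 * (v - u) + c1 * (v ^ 2 - u ^ 2) / 2 + c2 * (v ^ 3 - u ^ 3) / 3 +
      c3 * (v ^ 4 - u ^ 4) / 4 := by
    have h2 : ∀ s ∈ Set.uIcc u v, HasDerivAt
        (fun s : ℝ => c0 * s + c1 * s ^ 2 / 2 + c2 * s ^ 3 / 3 + c3 * s ^ 4 / 4)
        (c0 + c1 * s + c2 * s ^ 2 + c3 * s ^ 3) s := by
      intro s _
      have a0 := (hasDerivAt_id' s).const_mul c0
      have a1 := ((hasDerivAt_pow 2 s).const_mul c1).div_const 2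
      have a2 := ((hasDerivAt_pow 3 s).const_mul c2).div_const 3
      have a3 := ((hasDerivAt_pow 4 s).const_mul c3).div_const 4
      refine HasDerivAt.congr_deriv (((a0.add a1).add a2).add a3) ?_
      push_cast
      ring
    rw [intervalIntegral.integral_eq_sub_of_hasDerivAt h2 (hg.intervalIntegrable _ _)]
    ring
  rw [← h1]
  exact intervalIntegral.integral_mono_on huv (hf.intervalIntegrable _ _)
    (hg.intervalIntegrable _ _) (fun s hs => h s hs.1 hs.2)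

theorem X1_add {f : ℝ → ℝ} (hf : Continuous f) (a b c : ℝ) :
    ∫ s in a..c, f s = (∫ s in a..b, f s) + ∫ s in b..c, f s :=
  (intervalIntegral.integral_add_adjacent_intervals (hf.intervalIntegrable _ _)
    (hf.intervalIntegrable _ _)).symm

theorem X1_nn (s t : ℝ) : 0 ≤ el s t := le_max_left _ _

theorem X1_M {s t : ℝ} (hs : s ≤ 1 / 3) : el s t ≤ 3 - 9 * s := by
  unfold el
  refine max_le (by linarith) ?_
  have := le_max_left (6 * s) (4 - 4 * t - 6 * s)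
  linarith

theorem X1_L {s t : ℝ} (h : 0 ≤ -1 + 4 * t + 3 * s) : el s t ≤ -1 + 4 * t + 3 * s := by
  unfold el
  refine max_le h ?_
  have := le_max_right (6 * s) (4 - 4 * t - 6 * s)
  linarith

theorem X1_Z {s t : ℝ} (h : -1 + 4 * t + 3 * s ≤ 0) : el s t = 0 := by
  refine le_antisymm ?_ (X1_nn s t)
  unfold el
  refine max_le le_rfl ?_
  have := le_max_right (6 * s) (4 - 4 * t - 6 * s)
  linarith

theorem X1_mul {s t P R : ℝ} (h1 : el s t ≤ P) (h2 : el t s ≤ R) : el s t * el t s ≤ P * R :=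
  mul_le_mul h1 h2 (X1_nn t s) ((X1_nn s t).trans h1)

theorem X1_cont : Continuous (fun z : ℝ × ℝ => el z.2 z.1 * el z.1 z.2) := by
  unfold el
  fun_prop

theorem X1_cont1 (t : ℝ) : Continuous (fun s : ℝ => el s t * el t s) := by
  unfold el
  fun_prop

/-- `t ≤ 1/7` -/
theorem X1_c1 {t : ℝ} (h0 : 0 ≤ t) (h1 : t ≤ 1 / 7) :
    ∫ s in (0 : ℝ)..(1 / 3), el s t * el t s ≤ 0 + 0 * t + 2 / 3 * t ^ 2 + 14 / 9 * t ^ 3 := by
  have hc := X1_cont1 t
  have e0 := X1_le hc (u := 0) (v := 1 / 3 - 4 / 3 * t) 0 0 0 0 (by linarith) (by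
    intro s hs hs'
    rw [X1_Z (s := s) (t := t) (by linarith)]
    linarith)
  have e1 := X1_le hc (u := 1 / 3 - 4 / 3 * t) (v := 1 / 3 - 1 / 3 * t)
    ((-1 + 4 * t) * (-1 + 3 * t)) (-7 + 25 * t) 12 0 (by linarith) (by
    intro s hs hs'
    refine (X1_mul (X1_L (by linarith)) (X1_L (by linarith))).trans (le_of_eq ?_)
    ring)
  have e2 := X1_le hc (u := 1 / 3 - 1 / 3 * t) (v := 1 / 3)
    (3 * (-1 + 3 * t)) (21 - 27 * t) (-36) 0 (by linarith) (by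
    intro s hs hs'
    refine (X1_mul (X1_M (by linarith)) (X1_L (by linarith))).trans (le_of_eq ?_)
    ring)
  rw [X1_add hc 0 (1 / 3 - 4 / 3 * t) (1 / 3),
    X1_add hc (1 / 3 - 4 / 3 * t) (1 / 3 - 1 / 3 * t) (1 / 3)]
  refine (add_le_add e0 (add_le_add e1 e2)).trans (le_of_eq ?_)
  ring

/-- `1/7 ≤ t ≤ 2/9` -/
theorem X1_c2 {t : ℝ} (h0 : 1 / 7 ≤ t) (h1 : t ≤ 2 / 9) :
    ∫ s in (0 : ℝ)..(1 / 3), el s t * el t s ≤
      -1 / 864 + 7 / 288 * t + 143 / 288 * t ^ 2 + 1687 / 864 * t ^ 3 := by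
  have hc := X1_cont1 t
  have e0 := X1_le hc (u := 0) (v := 1 / 4 - 3 / 4 * t) 0 0 0 0 (by linarith) (by
    intro s hs hs'
    rw [X1_Z (s := t) (t := s) (by linarith)]
    linarith)
  have e1 := X1_le hc (u := 1 / 4 - 3 / 4 * t) (v := 1 / 3 - 1 / 3 * t)
    ((-1 + 4 * t) * (-1 + 3 * t)) (-7 + 25 * t) 12 0 (by linarith) (by
    intro s hs hs'
    refine (X1_mul (X1_L (by linarith)) (X1_L (by linarith))).trans (le_of_eq ?_)
    ring)
  have e2 := X1_le hc (u := 1 / 3 - 1 / 3 * t) (v := 1 / 3)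
    (3 * (-1 + 3 * t)) (21 - 27 * t) (-36) 0 (by linarith) (by
    intro s hs hs'
    refine (X1_mul (X1_M (by linarith)) (X1_L (by linarith))).trans (le_of_eq ?_)
    ring)
  rw [X1_add hc 0 (1 / 4 - 3 / 4 * t) (1 / 3),
    X1_add hc (1 / 4 - 3 / 4 * t) (1 / 3 - 1 / 3 * t) (1 / 3)]
  refine (add_le_add e0 (add_le_add e1 e2)).trans (le_of_eq ?_)
  ring

/-- `2/9 ≤ t ≤ 1/4` -/
theorem X1_c3 {t : ℝ} (h0 : 2 / 9 ≤ t) (h1 : t ≤ 1 / 4) :
    ∫ s in (0 : ℝ)..(1 / 3), el s t * el t s ≤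
      1535 / 864 + (-6905 / 288) * t + 31247 / 288 * t ^ 2 + (-138281 / 864) * t ^ 3 := by
  have hc := X1_cont1 t
  have e0 := X1_le hc (u := 0) (v := 1 / 4 - 3 / 4 * t) 0 0 0 0 (by linarith) (by
    intro s hs hs'
    rw [X1_Z (s := t) (t := s) (by linarith)]
    linarith)
  have e1 := X1_le hc (u := 1 / 4 - 3 / 4 * t) (v := 1 / 3 - 1 / 3 * t)
    ((-1 + 4 * t) * (-1 + 3 * t)) (-7 + 25 * t) 12 0 (by linarith) (by
    intro s hs hs'
    refine (X1_mul (X1_L (by linarith)) (X1_L (by linarith))).trans (le_of_eq ?_)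
    ring)
  have e2 := X1_le hc (u := 1 / 3 - 1 / 3 * t) (v := 1 - 3 * t)
    (3 * (-1 + 3 * t)) (21 - 27 * t) (-36) 0 (by linarith) (by
    intro s hs hs'
    refine (X1_mul (X1_M (by linarith)) (X1_L (by linarith))).trans (le_of_eq ?_)
    ring)
  have e3 := X1_le hc (u := 1 - 3 * t) (v := 1 / 3)
    (3 * (3 - 9 * t)) (-9 * (3 - 9 * t)) 0 0 (by linarith) (by
    intro s hs hs'
    refine (X1_mul (X1_M (by linarith)) (X1_M (by linarith))).trans (le_of_eq ?_)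
    ring)
  rw [X1_add hc 0 (1 / 4 - 3 / 4 * t) (1 / 3),
    X1_add hc (1 / 4 - 3 / 4 * t) (1 / 3 - 1 / 3 * t) (1 / 3),
    X1_add hc (1 / 3 - 1 / 3 * t) (1 - 3 * t) (1 / 3)]
  refine (add_le_add e0 (add_le_add e1 (add_le_add e2 e3))).trans (le_of_eq ?_)
  ring

/-- `1/4 ≤ t` -/
theorem X1_c4 {t : ℝ} (h0 : 1 / 4 ≤ t) (h1 : t ≤ 1 / 3) :
    ∫ s in (0 : ℝ)..(1 / 3), el s t * el t s ≤
      -19 / 32 + 143 / 32 * t + (-169 / 32) * t ^ 2 + (-267 / 32) * t ^ 3 := by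
  have hc := X1_cont1 t
  have e0 := X1_le hc (u := 0) (v := 1 / 4 - 3 / 4 * t) 0 0 0 0 (by linarith) (by
    intro s hs hs'
    rw [X1_Z (s := t) (t := s) (by linarith)]
    linarith)
  have e1 := X1_le hc (u := 1 / 4 - 3 / 4 * t) (v := 1 - 3 * t)
    ((-1 + 4 * t) * (-1 + 3 * t)) (-7 + 25 * t) 12 0 (by linarith) (by
    intro s hs hs'
    refine (X1_mul (X1_L (by linarith)) (X1_L (by linarith))).trans (le_of_eq ?_)
    ring)
  have e2 := X1_le hc (u := 1 - 3 * t) (v := 1 / 3 - 1 / 3 * t)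
    ((-1 + 4 * t) * (3 - 9 * t)) (3 * (3 - 9 * t)) 0 0 (by linarith) (by
    intro s hs hs'
    refine (X1_mul (X1_L (by linarith)) (X1_M (by linarith))).trans (le_of_eq ?_)
    ring)
  have e3 := X1_le hc (u := 1 / 3 - 1 / 3 * t) (v := 1 / 3)
    (3 * (3 - 9 * t)) (-9 * (3 - 9 * t)) 0 0 (by linarith) (by
    intro s hs hs'
    refine (X1_mul (X1_M (by linarith)) (X1_M (by linarith))).trans (le_of_eq ?_)
    ring)
  rw [X1_add hc 0 (1 / 4 - 3 / 4 * t) (1 / 3),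
    X1_add hc (1 / 4 - 3 / 4 * t) (1 - 3 * t) (1 / 3),
    X1_add hc (1 - 3 * t) (1 / 3 - 1 / 3 * t) (1 / 3)]
  refine (add_le_add e0 (add_le_add e1 (add_le_add e2 e3))).trans (le_of_eq ?_)
  ring

theorem R_X1 : st_X1 := by
  have hF : Continuous fun t : ℝ => ∫ s in (0 : ℝ)..(1 / 3), el s t * el t s :=
    intervalIntegral.continuous_parametric_intervalIntegral_of_continuous'
      (f := fun t s : ℝ => el s t * el t s) X1_cont 0 (1 / 3)
  have e1 := X1_le hF (u := 0) (v := 1 / 7) _ _ _ _ (by norm_num) (fun t h h' => X1_c1 h h')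
  have e2 := X1_le hF (u := 1 / 7) (v := 2 / 9) _ _ _ _ (by norm_num) (fun t h h' => X1_c2 h h')
  have e3 := X1_le hF (u := 2 / 9) (v := 1 / 4) _ _ _ _ (by norm_num) (fun t h h' => X1_c3 h h')
  have e4 := X1_le hF (u := 1 / 4) (v := 1 / 3) _ _ _ _ (by norm_num) (fun t h h' => X1_c4 h h')
  unfold st_X1
  rw [X1_add hF 0 (1 / 7) (1 / 3), X1_add hF (1 / 7) (2 / 9) (1 / 3),
    X1_add hF (2 / 9) (1 / 4) (1 / 3)]
  refine (add_le_add e1 (add_le_add e2 (add_le_add e3 e4))).trans ?_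
  norm_num

end Pool.Agent.DDD
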