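import Pool.Agent.DDD.Defs2

set_option autoImplicit false

open Finset Real

namespace Pool.Agent.DDD

theorem X2_el_cont : Continuous fun p : ℝ × ℝ => el p.1 p.2 := by
  unfold el
  fun_prop

theorem X2_el_nonneg (s t : ℝ) : 0 ≤ el s t := le_max_left _ _

theorem X2_el_le {s : ℝ} (hs : 0 ≤ s) (t : ℝ) : el s t ≤ 3 := by
  unfold el
  refine max_le (by norm_num) ?_
  have := le_max_left (6 * s) (4 - 4 * t - 6 * s)
  linarith

/-- comparison on a cell -/
theorem X2_cell {K I J : ℕ} (hK : 0 < K) {s t : ℝ} (hs1 : (I : ℝ) ≤ K * s) (hs2 : K * s ≤ I + 1)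
    (ht1 : (J : ℝ) ≤ K * t) (_ht2 : K * t ≤ J + 1) : (U6 K I J : ℝ) ≤ K * el s t + 14 := by
  have hK0 : (0 : ℝ) < K := by exact_mod_cast hK
  have h1 : (K : ℝ) * el s t = max 0 (3 * (K - K * s) - max (6 * (K * s)) (4 * K - 4 * (K * t) - 6 * (K * s))) := by
    unfold el
    rw [mul_max_of_nonneg _ _ hK0.le, mul_zero, mul_sub, mul_max_of_nonneg _ _ hK0.le]
    congr 1
    congr 1
    · ring
    · congr 1
      · ring
      · ring
  have h2 : (U6 K I J : ℝ) = max (3 * ((K : ℝ) - I) -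
      max (6 * (I : ℝ)) (4 * ((K : ℝ) - J - 1) - 6 * (I + 1)) + 1) 0 := by
    unfold U6
    have h3 : ∀ z : ℤ, ((z.toNat : ℕ) : ℝ) = max (z : ℝ) 0 := by
      intro z
      have h4 : ((z.toNat : ℕ) : ℤ) = max z 0 := Int.toNat_eq_max z
      have h5 : (((z.toNat : ℕ) : ℤ) : ℝ) = ((max z 0 : ℤ) : ℝ) := by rw [h4]
      rw [Int.cast_natCast] at h5
      rw [h5]
      push_cast
      rfl
    rw [h3]
    push_cast
    rfl
  rw [h2, h1]
  have a1 := le_max_left (0 : ℝ)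
    (3 * (K - K * s) - max (6 * (K * s)) (4 * K - 4 * (K * t) - 6 * (K * s)))
  have a2 := le_max_right (0 : ℝ)
    (3 * (K - K * s) - max (6 * (K * s)) (4 * K - 4 * (K * t) - 6 * (K * s)))
  refine max_le ?_ (by linarith)
  have a3 := le_max_left (6 * (I : ℝ)) (4 * ((K : ℝ) - J - 1) - 6 * (I + 1))
  have a4 := le_max_right (6 * (I : ℝ)) (4 * ((K : ℝ) - J - 1) - 6 * (I + 1))
  have a5 : max (6 * (K * s)) (4 * K - 4 * (K * t) - 6 * (K * s)) ≤
      max (6 * (I : ℝ)) (4 * ((K : ℝ) - J - 1) - 6 * (I + 1)) + 10 := by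
    refine max_le ?_ ?_
    · linarith
    · linarith
  linarith

/-- lower Riemann sums -/
theorem X2_riemann {K n : ℕ} (hK : 0 < K) {h : ℝ → ℝ} (hh : Continuous h) (c : ℕ → ℝ)
    (hc : ∀ I < n, ∀ s : ℝ, (I : ℝ) ≤ K * s → K * s ≤ I + 1 → c I ≤ h s) :
    (∑ I ∈ range n, c I) / K ≤ ∫ s in (0 : ℝ)..((n : ℝ) / K), h s := by
  have hK0 : (0 : ℝ) < K := by exact_mod_cast hK
  have h1 := intervalIntegral.sum_integral_adjacent_intervals (f := h) (μ := MeasureTheory.volume)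
    (a := fun i : ℕ => (i : ℝ) / K) (n := n) (fun k _ => hh.intervalIntegrable _ _)
  simp only [Nat.cast_zero, zero_div] at h1
  rw [← h1, sum_div]
  refine sum_le_sum fun I hI => ?_
  rw [mem_range] at hI
  have h2 : (I : ℝ) / K ≤ ((I + 1 : ℕ) : ℝ) / K := by
    refine div_le_div_of_nonneg_right ?_ hK0.le
    push_cast
    linarith
  have h3 : ∫ s in ((I : ℝ) / K)..(((I + 1 : ℕ) : ℝ) / K), c I = c I / K := by
    rw [intervalIntegral.integral_const, smul_eq_mul]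
    push_cast
    field_simp
    ring
  rw [← h3]
  refine intervalIntegral.integral_mono_on h2 intervalIntegrable_const (hh.intervalIntegrable _ _) ?_
  intro s hs
  refine hc I hI s ?_ ?_
  · have := (div_le_iff₀ hK0).1 hs.1
    linarith
  · have := (le_div_iff₀ hK0).1 hs.2
    push_cast at this
    linarith

theorem R_X2 : st_X2 := by
  intro K hK hdvd
  obtain ⟨n, rfl⟩ := hdvd
  have hn : 0 < n := by omega
  have hn0 : (0 : ℝ) < n := by exact_mod_cast hn
  have hKp : 0 < 3 * n := by omega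
  have hK0 : (0 : ℝ) < ((3 * n : ℕ) : ℝ) := by exact_mod_cast hKp
  have hdiv : 3 * n / 3 = n := Nat.mul_div_cancel_left n (by norm_num)
  have hnK : (n : ℝ) / ((3 * n : ℕ) : ℝ) = 1 / 3 := by
    push_cast
    field_simp
  rw [hdiv]
  set K := 3 * n with hKdef
  have hg : Continuous fun p : ℝ × ℝ => el p.2 p.1 * el p.1 p.2 :=
    (X2_el_cont.comp (continuous_snd.prodMk continuous_fst)).mul X2_el_cont
  have hprod : ∀ I J : ℕ, ∀ s t : ℝ, (I : ℝ) ≤ K * s → K * s ≤ I + 1 → (J : ℝ) ≤ K * t →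
      K * t ≤ J + 1 → ((U6 K I J * U6 K J I : ℕ) : ℝ) - 150 * K ≤ (K : ℝ) ^ 2 * (el s t * el t s) := by
    intro I J s t hs1 hs2 ht1 ht2
    have hs0 : 0 ≤ s := by
      have h1 : (0 : ℝ) ≤ K * s := (Nat.cast_nonneg I).trans hs1
      by_contra h
      push Not at h
      nlinarith
    have ht0 : 0 ≤ t := by
      have h1 : (0 : ℝ) ≤ K * t := (Nat.cast_nonneg J).trans ht1
      by_contra h
      push Not at h
      nlinarith
    have e1 := X2_cell hKp hs1 hs2 ht1 ht2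
    have e2 := X2_cell hKp ht1 ht2 hs1 hs2
    have e3 := X2_el_le hs0 t
    have e4 := X2_el_le ht0 s
    have e5 := X2_el_nonneg s t
    have e6 := X2_el_nonneg t s
    have hK3 : (3 : ℝ) ≤ (K : ℝ) := by exact_mod_cast hK
    push_cast
    have e7 : (U6 K I J : ℝ) * (U6 K J I : ℝ) ≤ (K * el s t + 14) * (K * el t s + 14) :=
      mul_le_mul e1 e2 (Nat.cast_nonneg _) (by positivity)
    have e8 : (K * el s t + 14) * (K * el t s + 14) =
        (K : ℝ) ^ 2 * (el s t * el t s) + 14 * (K * (el s t + el t s)) + 196 := by ring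
    have e9 : (K : ℝ) * (el s t + el t s) ≤ K * 6 := mul_le_mul_of_nonneg_left (by linarith) hK0.le
    linarith
  have hK2 : (0 : ℝ) < (K : ℝ) ^ 2 := by positivity
  have h1 : ∀ J < n, ∀ t : ℝ, (J : ℝ) ≤ K * t → K * t ≤ J + 1 →
      (∑ I ∈ range n, (((U6 K I J * U6 K J I : ℕ) : ℝ) - 150 * K) / (K : ℝ) ^ 2) / K ≤
        ∫ s in (0 : ℝ)..(1 / 3), el s t * el t s := by
    intro J _ t ht1 ht2
    rw [← hnK]
    refine X2_riemann hKp (hg.comp (continuous_const.prodMk continuous_id)) _ ?_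
    intro I _ s hs1 hs2
    rw [div_le_iff₀ hK2]
    have := hprod I J s t hs1 hs2 ht1 ht2
    simp only [Function.comp_apply, id_eq]
    linarith
  have hG : Continuous fun t : ℝ => ∫ s in (0 : ℝ)..(1 / 3), el s t * el t s :=
    intervalIntegral.continuous_parametric_intervalIntegral_of_continuous' (by exact hg) _ _
  have h2 := X2_riemann (n := n) hKp hG
    (fun J => (∑ I ∈ range n, (((U6 K I J * U6 K J I : ℕ) : ℝ) - 150 * K) / (K : ℝ) ^ 2) / K) h1
  rw [hnK] at h2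
  set X := ∫ t in (0 : ℝ)..(1 / 3), ∫ s in (0 : ℝ)..(1 / 3), el s t * el t s with hX
  have h3 : (∑ J ∈ range n, (∑ I ∈ range n,
      (((U6 K I J * U6 K J I : ℕ) : ℝ) - 150 * K) / (K : ℝ) ^ 2) / (K : ℝ)) / (K : ℝ) =
      (∑ J ∈ range n, ∑ I ∈ range n, (((U6 K I J * U6 K J I : ℕ) : ℝ) - 150 * K)) / (K : ℝ) ^ 4 := by
    rw [sum_div, sum_div]
    refine sum_congr rfl fun J _ => ?_
    rw [← sum_div, div_div, div_div]
    congr 1
    ring
  rw [h3, div_le_iff₀ (by positivity)] at h2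
  have h4 : ∑ J ∈ range n, ∑ I ∈ range n, (((U6 K I J * U6 K J I : ℕ) : ℝ) - 150 * K) =
      ((∑ I ∈ range n, ∑ J ∈ range n, U6 K I J * U6 K J I : ℕ) : ℝ) - (n : ℝ) ^ 2 * (150 * K) := by
    simp only [sum_sub_distrib, sum_const, card_range, nsmul_eq_mul]
    rw [sum_comm]
    push_cast
    ring
  rw [h4] at h2
  have h5 : (n : ℝ) ^ 2 * (150 * K) ≤ 1000 * (K : ℝ) ^ 3 := by
    have h6 : (n : ℝ) ≤ K := by
      have : n ≤ K := by omega
      exact_mod_cast this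
    have h7 : (n : ℝ) ^ 2 ≤ (K : ℝ) ^ 2 := pow_le_pow_left₀ hn0.le h6 2
    nlinarith [pow_pos hK0 3]
  linarith

end Pool.Agent.DDD
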