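import Pool.Agent.DDD.R_K1
import Pool.Agent.DDD.R_K2
import Pool.Agent.DDD.R_K3
import Pool.Agent.DDD.R_K4
import Pool.Agent.DDD.R_K5
import Pool.Agent.DDD.R_K6
import Pool.Agent.DDD.R_K7
import Pool.Agent.DDD.R_K8
import Pool.Agent.DDD.R_T1
import Pool.Agent.DDD.R_P1
import Pool.Agent.DDD.R_M1
import Pool.Agent.DDD.R_M2
import Pool.Agent.DDD.R_M3
import Pool.Agent.DDD.R_M4
import Pool.Agent.DDD.R_M5a
import Pool.Agent.DDD.R_M5b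
import Pool.Agent.DDD.R_M5c
import Pool.Agent.DDD.R_M5d
import Pool.Agent.DDD.R_M6
import Pool.Agent.DDD.R_B1
import Pool.Agent.DDD.R_B2
import Pool.Agent.DDD.R_B3
import Pool.Agent.DDD.R_B4
import Pool.Agent.DDD.R_A1
import Pool.Agent.DDD.R_A2
import Pool.Agent.DDD.R_S1
import Pool.Agent.DDD.R_S2
import Pool.Agent.DDD.R_G1
import Pool.Agent.DDD.R_G2
import Pool.Agent.DDD.R_X1
import Pool.Agent.DDD.R_X2
import Pool.Agent.DDD.R_X3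
import Pool.Agent.DDD.R_F2

/-! # [DDD] assembly -/

namespace Pool.Agent.DDD

theorem K3 : st_K3 := R_K3 R_K1 R_K2
theorem K4 : st_K4 := R_K4 R_K1 K3
theorem K7 : st_K7 := R_K7 K4 R_K5 R_K6
theorem K8 : st_K8 := R_K8 R_K5 R_K6 K7
theorem M3 : st_M3 := R_M3 R_M1
theorem M6 : st_M6 := R_M6 R_P1 M3 R_M4 (R_M5a R_M2) (R_M5b R_M2) (R_M5c R_M2) R_M5d
theorem B1 : st_B1 := R_B1 K8
theorem B2 : st_B2 := R_B2 B1
theorem B3 : st_B3 := R_B3 R_T1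
theorem B4 : st_B4 := R_B4 R_P1 B2 B3 M6
theorem X3 : st_X3 := R_X3 R_G1 R_G2 R_X1 R_X2
theorem main : st_F2 := R_F2 R_P1 B4 R_A1 R_A2 R_S1 R_S2 X3

end Pool.Agent.DDD
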