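import Pool.Agent.DDD.Defs

/-!
# [DDD-K1] Chinese remainder multiplicativity of the Kloosterman sums `kq`
-/

set_option autoImplicit false

namespace Pool.Agent.DDD

open Finset Real

/-- the additive character modulo `q1 * q2` on integers -/
theorem K1_char (q1 q2 : ℕ) [NeZero q1] [NeZero q2] [NeZero (q1 * q2)] (hc : Nat.Coprime q1 q2)
    (v w : ℤ) (hv : (q1 : ℤ) ∣ v * q2 - 1) (hw : (q2 : ℤ) ∣ w * q1 - 1) (k : ℤ) :
    (ZMod.stdAddChar ((k : ℤ) : ZMod (q1 * q2)) : ℂ) =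
      ZMod.stdAddChar ((v * k : ℤ) : ZMod q1) * ZMod.stdAddChar ((w * k : ℤ) : ZMod q2) := by
  have h1 : ((q1 : ℤ) * (q2 : ℤ)) ∣ v * q2 + w * q1 - 1 := by
    refine IsCoprime.mul_dvd (Nat.isCoprime_iff_coprime.2 hc) ?_ ?_
    · have e : v * q2 + w * q1 - 1 = (v * q2 - 1) + q1 * w := by ring
      rw [e]
      exact dvd_add hv (dvd_mul_right _ _)
    · have e : v * q2 + w * q1 - 1 = (w * q1 - 1) + q2 * v := by ring
      rw [e]
      exact dvd_add hw (dvd_mul_right _ _)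
  obtain ⟨t, ht⟩ := h1
  have hq1 : (q1 : ℂ) ≠ 0 := Nat.cast_ne_zero.2 (NeZero.ne q1)
  have hq2 : (q2 : ℂ) ≠ 0 := Nat.cast_ne_zero.2 (NeZero.ne q2)
  have htc : (v : ℂ) * q2 + w * q1 = 1 + q1 * q2 * t := by
    have : v * q2 + w * q1 = 1 + q1 * q2 * t := by linarith
    exact_mod_cast this
  rw [ZMod.stdAddChar_coe, ZMod.stdAddChar_coe, ZMod.stdAddChar_coe, ← Complex.exp_add]
  have e : 2 * (π : ℂ) * Complex.I * ((v * k : ℤ) : ℂ) / (q1 : ℂ) +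
      2 * (π : ℂ) * Complex.I * ((w * k : ℤ) : ℂ) / (q2 : ℂ) =
      2 * (π : ℂ) * Complex.I * (k : ℂ) / ((q1 * q2 : ℕ) : ℂ) + ((k * t : ℤ) : ℂ) * (2 * (π : ℂ) * Complex.I) := by
    push_cast
    field_simp
    linear_combination (k : ℂ) * htc
  rw [e, Complex.exp_add, Complex.exp_int_mul_two_pi_mul_I, mul_one]

/-- the additive character modulo `q1 * q2` on residue classes -/
theorem K1_charZ (q1 q2 : ℕ) [NeZero q1] [NeZero q2] [NeZero (q1 * q2)] (hc : Nat.Coprime q1 q2)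
    (v w : ℤ) (hv : (q1 : ℤ) ∣ v * q2 - 1) (hw : (q2 : ℤ) ∣ w * q1 - 1) (x : ZMod (q1 * q2)) :
    (ZMod.stdAddChar x : ℂ) =
      ZMod.stdAddChar ((v : ZMod q1) * (ZMod.chineseRemainder hc x).1) *
        ZMod.stdAddChar ((w : ZMod q2) * (ZMod.chineseRemainder hc x).2) := by
  obtain ⟨k, rfl⟩ := ZMod.intCast_surjective x
  have h1 : ((v : ZMod q1) * (ZMod.chineseRemainder hc ((k : ℤ) : ZMod (q1 * q2))).1) =
      ((v * k : ℤ) : ZMod q1) := by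
    rw [map_intCast (ZMod.chineseRemainder hc), Prod.fst_intCast, Int.cast_mul]
  have h2 : ((w : ZMod q2) * (ZMod.chineseRemainder hc ((k : ℤ) : ZMod (q1 * q2))).2) =
      ((w * k : ℤ) : ZMod q2) := by
    rw [map_intCast (ZMod.chineseRemainder hc), Prod.snd_intCast, Int.cast_mul]
  rw [h1, h2, K1_char q1 q2 hc v w hv hw k]

theorem R_K1 : st_K1 := by
  intro q q1 q2 _ _ _ hq hc v w hv hw m n
  subst hq
  unfold kq
  rw [Fintype.sum_mul_sum, ← Fintype.sum_prod_type']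
  set e := ZMod.chineseRemainder hc with he
  let E : (ZMod (q1 * q2))ˣ ≃ (ZMod q1)ˣ × (ZMod q2)ˣ :=
    ((Units.mapEquiv e.toMulEquiv).trans MulEquiv.prodUnits).toEquiv
  refine Fintype.sum_equiv E _ _ fun u => ?_
  rw [K1_charZ q1 q2 hc v w hv hw]
  have h1 : ((E u).1 : ZMod q1) = (e (u : ZMod (q1 * q2))).1 := rfl
  have h2 : ((E u).2 : ZMod q2) = (e (u : ZMod (q1 * q2))).2 := rfl
  have h3 : ((((E u).1)⁻¹ : (ZMod q1)ˣ) : ZMod q1) = (e ((u⁻¹ : (ZMod (q1 * q2))ˣ) : ZMod (q1 * q2))).1 := rfl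
  have h4 : ((((E u).2)⁻¹ : (ZMod q2)ˣ) : ZMod q2) = (e ((u⁻¹ : (ZMod (q1 * q2))ˣ) : ZMod (q1 * q2))).2 := rfl
  have h5 : e ((m : ZMod (q1 * q2)) * (u : ZMod (q1 * q2)) +
      (n : ZMod (q1 * q2)) * ((u⁻¹ : (ZMod (q1 * q2))ˣ) : ZMod (q1 * q2))) =
      (m : ZMod q1 × ZMod q2) * e (u : ZMod (q1 * q2)) +
      (n : ZMod q1 × ZMod q2) * e ((u⁻¹ : (ZMod (q1 * q2))ˣ) : ZMod (q1 * q2)) := by
    rw [map_add, map_mul, map_mul, map_intCast, map_intCast]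
  rw [← he, h5, h1, h2, h3, h4]
  congr 2
  · rw [Prod.fst_add, Prod.fst_mul, Prod.fst_mul, Prod.fst_intCast, Prod.fst_intCast]
    push_cast
    ring
  · rw [Prod.snd_add, Prod.snd_mul, Prod.snd_mul, Prod.snd_intCast, Prod.snd_intCast]
    push_cast
    ring

end Pool.Agent.DDD
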