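import Pool.Agent.DDD.Defs

set_option autoImplicit false

namespace Pool.Agent.DDD

open Finset Real

theorem M5b_union {ι κ : Type} (B : Finset ι) (P : Finset κ) (w : ι → ℝ) (hw : ∀ t, 0 ≤ w t)
    (Q : ι → Prop) [DecidablePred Q] (R : κ → ι → Prop) [∀ p, DecidablePred (R p)]
    (h : ∀ t ∈ B, Q t → ∃ p ∈ P, R p t) :
    ∑ t ∈ B.filter Q, w t ≤ ∑ p ∈ P, ∑ t ∈ B.filter (R p), w t := by
  simp_rw [Finset.sum_filter]
  rw [Finset.sum_comm]
  refine Finset.sum_le_sum fun t ht => ?_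
  by_cases hQ : Q t
  · rw [if_pos hQ]
    obtain ⟨p, hp, hR⟩ := h t ht hQ
    calc w t = (fun p => if R p t then w t else 0) p := by
          simp only
          rw [if_pos hR]
      _ ≤ ∑ p ∈ P, (fun p => if R p t then w t else 0) p := by
          refine Finset.single_le_sum (f := fun p => if R p t then w t else 0)
            (fun q _ => ?_) hp
          split_ifs
          · exact hw t
          · exact le_rfl
  · rw [if_neg hQ]
    refine Finset.sum_nonneg fun p _ => ?_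
    split_ifs
    · exact hw t
    · exact le_rfl

/-- the weighted sum over the box with two divisibility conditions -/
theorem M5b_box (h2 : st_M2) {u v : ℕ} (hu : 1 ≤ u) (hv : 1 ≤ v) {x α1 α2 β1 β2 η : ℝ}
    (hx : 1 ≤ x) (h1 : 0 ≤ α1) (h3 : 0 ≤ α2) (h4 : 0 ≤ β1) (h5 : 0 ≤ β2) (h6 : 0 ≤ η) :
    ∑ t ∈ (Bx x α1 α2 β1 β2 η).filter (fun t => u ∣ t.1 ∧ v ∣ t.2.1), wt t ≤
      (η * log x + 1) ^ 4 / (u * v) := by
  have hL : 0 ≤ η * log x := mul_nonneg h6 (log_nonneg hx)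
  have hH : 0 ≤ η * log x + 1 := by linarith
  have hu' : (0 : ℝ) < u := by exact_mod_cast hu
  have hv' : (0 : ℝ) < v := by exact_mod_cast hv
  have hset : (Bx x α1 α2 β1 β2 η).filter (fun t => u ∣ t.1 ∧ v ∣ t.2.1) =
      ((Iv x α1 η).filter (fun a => u ∣ a)) ×ˢ ((Iv x α2 η).filter (fun b => v ∣ b)) ×ˢ
        Iv x β1 η ×ˢ Iv x β2 η := by
    ext t
    rw [Finset.mem_filter, mem_Bx, Finset.mem_product, Finset.mem_product, Finset.mem_product,
      Finset.mem_filter, Finset.mem_filter]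
    tauto
  rw [hset, sum_wt_product]
  have all : ∀ β : ℝ, 0 ≤ β → ∑ a ∈ Iv x β η, (1 : ℝ) / a ≤ η * log x + 1 := by
    intro β hβ
    have := h2 1 le_rfl x β η hx hβ h6
    rw [Finset.filter_true_of_mem (fun a _ => one_dvd a)] at this
    simpa using this
  have nn : ∀ A : Finset ℕ, 0 ≤ ∑ a ∈ A, (1 : ℝ) / a :=
    fun A => Finset.sum_nonneg fun a _ => by positivity
  have e1 := h2 u hu x α1 η hx h1 h6
  have e2 := h2 v hv x α2 η hx h3 h6
  have e3 := all β1 h4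
  have e4 := all β2 h5
  calc (∑ a ∈ (Iv x α1 η).filter (fun a => u ∣ a), (1 : ℝ) / a) *
        (∑ b ∈ (Iv x α2 η).filter (fun b => v ∣ b), (1 : ℝ) / b) *
        (∑ f ∈ Iv x β1 η, (1 : ℝ) / f) * (∑ d ∈ Iv x β2 η, (1 : ℝ) / d)
      ≤ ((η * log x + 1) / u) * ((η * log x + 1) / v) * (η * log x + 1) * (η * log x + 1) := by
        refine mul_le_mul (mul_le_mul (mul_le_mul e1 e2 (nn _) (by positivity)) e3 (nn _)
          (by positivity)) e4 (nn _) (by positivity)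
    _ = (η * log x + 1) ^ 4 / (u * v) := by
        field_simp

theorem M5b_tail (y : ℕ) (hy : 2 ≤ y) (N : ℕ) :
    ∑ n ∈ Ico y N, (1 : ℝ) / (n : ℝ) ^ 2 ≤ 2 / y := by
  have key : ∀ N : ℕ, y ≤ N →
      ∑ n ∈ Ico y N, (1 : ℝ) / (n : ℝ) ^ 2 ≤ 1 / ((y : ℝ) - 1) - 1 / ((N : ℝ) - 1) := by
    intro N hN
    induction N, hN using Nat.le_induction with
    | base => simp
    | succ N hN ih =>
      rw [Finset.sum_Ico_succ_top hN]
      have hN' : (2 : ℝ) ≤ N := by exact_mod_cast hy.trans hN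
      have h1 : (1 : ℝ) / (N : ℝ) ^ 2 ≤ 1 / ((N : ℝ) - 1) - 1 / (((N + 1 : ℕ) : ℝ) - 1) := by
        push_cast
        rw [add_sub_cancel_right, div_sub_div _ _ (by linarith) (by linarith),
          div_le_div_iff₀ (by positivity) (mul_pos (by linarith) (by linarith))]
        nlinarith
      linarith
  have hy' : (2 : ℝ) ≤ y := by exact_mod_cast hy
  have h2 : 1 / ((y : ℝ) - 1) ≤ 2 / y := by
    rw [div_le_div_iff₀ (by linarith) (by linarith)]
    linarith
  rcases le_total y N with h | h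
  · have h1 := key N h
    have h3 : 0 ≤ 1 / ((N : ℝ) - 1) := by
      have : (2 : ℝ) ≤ N := by exact_mod_cast hy.trans h
      exact div_nonneg zero_le_one (by linarith)
    linarith
  · rw [Finset.Ico_eq_empty_of_le h, Finset.sum_empty]
    positivity

theorem R_M5b (h2 : st_M2) : st_M5b := by
  classical
  intro y hy x α1 α2 β1 β2 η hx h1 h3 h4 h5 h6
  have hL : 0 ≤ η * log x := mul_nonneg h6 (log_nonneg hx)
  have hH : 0 ≤ η * log x + 1 := by linarith
  set N0 := ⌊x ^ (α1 + η)⌋₊ * ⌊x ^ (α2 + η)⌋₊ + 1 with hN0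
  have hu := M5b_union (Bx x α1 α2 β1 β2 η) (Ico y N0) wt wt_nonneg
    (fun t => ∃ p : ℕ, p.Prime ∧ y ≤ p ∧ p ^ 2 ∣ t.1 * t.2.1)
    (fun p t => p.Prime ∧ p ^ 2 ∣ t.1 * t.2.1) (by
      rintro t ht ⟨p, hp, hyp, hd⟩
      refine ⟨p, ?_, hp, hd⟩
      rw [mem_Bx] at ht
      have ha := one_lt_of_mem_Iv hx h1 ht.1
      have hb := one_lt_of_mem_Iv hx h3 ht.2.1
      have ha2 := ht.1
      have hb2 := ht.2.1
      unfold Iv at ha2 hb2
      rw [Finset.mem_Ioc] at ha2 hb2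
      have hle : p ^ 2 ≤ t.1 * t.2.1 := Nat.le_of_dvd (Nat.mul_pos (by omega) (by omega)) hd
      have hle2 : t.1 * t.2.1 ≤ ⌊x ^ (α1 + η)⌋₊ * ⌊x ^ (α2 + η)⌋₊ :=
        Nat.mul_le_mul ha2.2 hb2.2
      have hpp : p ≤ p ^ 2 := Nat.le_self_pow (by norm_num) p
      rw [Finset.mem_Ico]
      omega)
  have hp : ∀ p ∈ Ico y N0,
      ∑ t ∈ (Bx x α1 α2 β1 β2 η).filter (fun t => p.Prime ∧ p ^ 2 ∣ t.1 * t.2.1), wt t ≤
        3 * (η * log x + 1) ^ 4 * (1 / (p : ℝ) ^ 2) := by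
    intro p hpI
    rw [Finset.mem_Ico] at hpI
    have hp1 : 1 ≤ p := by omega
    have hp0 : (0 : ℝ) < p := by exact_mod_cast hp1
    have hu2 := M5b_union (Bx x α1 α2 β1 β2 η)
      ({(p ^ 2, 1), (1, p ^ 2), (p, p)} : Finset (ℕ × ℕ)) wt wt_nonneg
      (fun t => p.Prime ∧ p ^ 2 ∣ t.1 * t.2.1)
      (fun c t => c.1 ∣ t.1 ∧ c.2 ∣ t.2.1) (by
        rintro t ht ⟨hpr, hd⟩
        obtain ⟨u, v, hu, hv, huv⟩ := (Nat.dvd_mul).1 hd
        have hup : u ∣ p ^ 2 := ⟨v, huv.symm⟩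
        obtain ⟨i, hi, rfl⟩ := (Nat.dvd_prime_pow hpr).1 hup
        have hv' : v = p ^ (2 - i) := by
          have h1 : p ^ i * v = p ^ i * p ^ (2 - i) := by
            rw [huv, ← pow_add]
            congr 1
            omega
          exact Nat.eq_of_mul_eq_mul_left (pow_pos hpr.pos _) h1
        subst hv'
        interval_cases i
        · exact ⟨(1, p ^ 2), by simp, one_dvd _, by simpa using hv⟩
        · exact ⟨(p, p), by simp, by simpa using hu, by simpa using hv⟩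
        · exact ⟨(p ^ 2, 1), by simp, hu, one_dvd _⟩)
    refine hu2.trans ?_
    have hb : ∀ c ∈ ({(p ^ 2, 1), (1, p ^ 2), (p, p)} : Finset (ℕ × ℕ)),
        ∑ t ∈ (Bx x α1 α2 β1 β2 η).filter (fun t => c.1 ∣ t.1 ∧ c.2 ∣ t.2.1), wt t ≤
          (η * log x + 1) ^ 4 * (1 / (p : ℝ) ^ 2) := by
      intro c hc
      simp only [Finset.mem_insert, Finset.mem_singleton] at hc
      rcases hc with rfl | rfl | rfl
      · refine (M5b_box h2 (u := p ^ 2) (v := 1) (Nat.one_le_pow _ _ hp1) le_rfl hx h1 h3 h4 h5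
          h6).trans (le_of_eq ?_)
        push_cast
        field_simp
      · refine (M5b_box h2 (u := 1) (v := p ^ 2) le_rfl (Nat.one_le_pow _ _ hp1) hx h1 h3 h4 h5
          h6).trans (le_of_eq ?_)
        push_cast
        field_simp
      · refine (M5b_box h2 (u := p) (v := p) hp1 hp1 hx h1 h3 h4 h5 h6).trans (le_of_eq ?_)
        field_simp
    refine (Finset.sum_le_card_nsmul _ _ _ hb).trans ?_
    rw [nsmul_eq_mul]
    have hc : ((({(p ^ 2, 1), (1, p ^ 2), (p, p)} : Finset (ℕ × ℕ)).card : ℕ) : ℝ) ≤ 3 := by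
      exact_mod_cast Finset.card_le_three
    have hnn : 0 ≤ (η * log x + 1) ^ 4 * (1 / (p : ℝ) ^ 2) := by positivity
    nlinarith
  have hs : ∑ p ∈ Ico y N0,
      ∑ t ∈ (Bx x α1 α2 β1 β2 η).filter (fun t => p.Prime ∧ p ^ 2 ∣ t.1 * t.2.1), wt t ≤
        6 / y * (η * log x + 1) ^ 4 := by
    refine (Finset.sum_le_sum hp).trans ?_
    rw [← Finset.mul_sum]
    have ht := M5b_tail y hy N0
    have hy' : (0 : ℝ) < y := by
      have : 0 < y := by omega
      exact_mod_cast this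
    calc 3 * (η * log x + 1) ^ 4 * ∑ i ∈ Ico y N0, (1 : ℝ) / (i : ℝ) ^ 2
        ≤ 3 * (η * log x + 1) ^ 4 * (2 / y) := mul_le_mul_of_nonneg_left ht (by positivity)
      _ = 6 / y * (η * log x + 1) ^ 4 := by
          field_simp
          ring
  refine le_trans (le_of_eq ?_) (hu.trans hs)
  refine Finset.sum_congr ?_ fun _ _ => rfl
  ext t
  simp only [Finset.mem_filter]

end Pool.Agent.DDD
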