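import Pool.Agent.DDD.Defs2

set_option autoImplicit false

namespace Pool.Agent.DDD

open Finset Real

theorem X3_cover (N : ℕ) : (Tp N).card * (Tp N).card ≤ (GG N).card + (Bad N).card := by
  classical
  rw [← card_product]
  refine le_trans ?_ (card_union_le (GG N) (Bad N))
  refine card_le_card_of_injOn (fun g => (g.1.1, g.1.2, g.2.1, g.2.2)) ?_ ?_
  · intro g hg
    rw [mem_coe, mem_product] at hg
    obtain ⟨h1, h2⟩ := hg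
    unfold Tp at h1 h2
    rw [mem_filter, mem_product] at h1 h2
    rw [mem_coe, mem_union]
    unfold GG Bad
    rw [mem_filter, mem_filter, mem_product, mem_product, mem_product]
    by_cases h : 3 * (g.1.1 + g.1.2 + 2) + 2 * (g.2.1 + 1) < 2 * N ∨
        3 * (g.2.1 + g.2.2 + 2) + 2 * (g.1.1 + 1) < 2 * N
    · left
      exact ⟨⟨h1.1.1, h1.1.2, h2.1.1, h2.1.2⟩, h1.2.1, h1.2.2, h2.2.1, h2.2.2, h⟩
    · right
      rw [not_or, not_lt, not_lt] at h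
      exact ⟨⟨h1.1.1, h1.1.2, h2.1.1, h2.1.2⟩, h1.2.1, h1.2.2, h2.2.1, h2.2.2, h.1, h.2⟩
  · intro g _ g' _ h
    have h' : (g.1.1, g.1.2, g.2.1, g.2.2) = (g'.1.1, g'.1.2, g'.2.1, g'.2.2) := h
    simp only [Prod.mk.injEq] at h'
    exact Prod.ext (Prod.ext h'.1 h'.2.1) (Prod.ext h'.2.2.1 h'.2.2.2)

theorem X3_alg (K T G B S I ε : ℝ) (hK : 3 ≤ K) (h1 : (6 * K - 5) ^ 2 ≤ 12 * T)
    (h2 : 36 * B ≤ 6 ^ 4 * S) (h3 : S ≤ K ^ 4 * I + 1000 * K ^ 3) (h4 : I ≤ 5 / 567)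
    (h5 : T * T ≤ G + B) (h6 : 4004 ≤ ε * K) :
    (547 / 567 - ε) * (K * 6) ^ 4 ≤ 144 * G := by
  have hK3 : (0 : ℝ) ≤ K ^ 3 := by positivity
  have hK4 : (0 : ℝ) ≤ K ^ 4 := by positivity
  have e1 : (6 * K - 5) ^ 2 * (6 * K - 5) ^ 2 ≤ (12 * T) * (12 * T) :=
    mul_le_mul h1 h1 (sq_nonneg _) ((sq_nonneg _).trans h1)
  have e2 : (6 * K - 5) ^ 2 * (6 * K - 5) ^ 2 =
      1296 * K ^ 4 - 4320 * K ^ 3 + (5400 * K ^ 2 - 3000 * K + 625) := by ring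
  have e3 : (0 : ℝ) ≤ 5400 * K ^ 2 - 3000 * K + 625 := by nlinarith
  have e4 : K ^ 4 * I ≤ K ^ 4 * (5 / 567) := mul_le_mul_of_nonneg_left h4 hK4
  have e5 : 4004 * K ^ 3 ≤ ε * K * K ^ 3 := mul_le_mul_of_nonneg_right h6 hK3
  have e6 : (12 * T) * (12 * T) = 144 * (T * T) := by ring
  have e7 : (547 / 567 - ε) * (K * 6) ^ 4 = 1296 * (547 / 567) * K ^ 4 - 1296 * (ε * K * K ^ 3) := by
    ring
  rw [e7]
  rw [e2, e6] at e1
  linarith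

theorem R_X3 (h1 : st_G1) (h2 : st_G2) (hX1 : st_X1) (hX2 : st_X2) : st_X3 := by
  intro ε hε
  obtain ⟨k, hk⟩ := exists_nat_gt (4004 / ε)
  have hk2 : 4004 < (k : ℝ) * ε := (div_lt_iff₀ hε).1 hk
  obtain ⟨K, hKd⟩ : ∃ K : ℕ, K = 3 * (k + 2) := ⟨_, rfl⟩
  have hKr : (K : ℝ) = 3 * ((k : ℝ) + 2) := by rw [hKd]; push_cast; ring
  have hk0 : (0 : ℝ) ≤ (k : ℝ) := Nat.cast_nonneg k
  have hK3 : (3 : ℝ) ≤ (K : ℝ) := by rw [hKr]; linarith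
  have h6 : 4004 ≤ ε * (K : ℝ) := by
    have e : (k : ℝ) ≤ (K : ℝ) := by rw [hKr]; linarith
    have e' := mul_le_mul_of_nonneg_left e hε.le
    linarith [mul_comm (k : ℝ) ε]
  have g2 := h2 K 6 (by omega) (le_refl 6) (by rw [hKd]; exact Dvd.intro _ rfl)
  have g3 := hX2 K (by omega) (by rw [hKd]; exact Dvd.intro _ rfl)
  have g1 := h1 (K * 6) (by omega)
  have g5 := X3_cover (K * 6)
  refine ⟨K * 6, by omega, ?_⟩
  have r1 : (6 * (K : ℝ) - 5) ^ 2 ≤ 12 * ((Tp (K * 6)).card : ℝ) := by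
    have e : (((K * 6 - 5 : ℕ) : ℝ)) ^ 2 ≤ 12 * ((Tp (K * 6)).card : ℝ) := by exact_mod_cast g1
    rw [Nat.cast_sub (by omega)] at e
    push_cast at e
    rw [mul_comm (6 : ℝ) (K : ℝ)]
    exact e
  have r2 : 36 * ((Bad (K * 6)).card : ℝ) ≤
      6 ^ 4 * ((∑ I ∈ range (K / 3), ∑ J ∈ range (K / 3), U6 K I J * U6 K J I : ℕ) : ℝ) := by
    exact_mod_cast g2
  have r5 : ((Tp (K * 6)).card : ℝ) * ((Tp (K * 6)).card : ℝ) ≤
      ((GG (K * 6)).card : ℝ) + ((Bad (K * 6)).card : ℝ) := by exact_mod_cast g5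
  have e := X3_alg (K : ℝ) _ _ _ _ _ ε hK3 r1 r2 g3 hX1 r5 h6
  rw [Nat.cast_mul]
  exact e

end Pool.Agent.DDD
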